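import Pool.Agent.Y753.SH.Stm2
import Pool.Agent.Y971.SH.Star

set_option autoImplicit false

/-! The change of weight for a real exponent, after `Pool.Agent.Y971.SH.Star` (helper971). -/

namespace Pool.Agent.Y753.SHR

open Finset Filter MeasureTheory MonoidAlgebra Topology
open Pool.Agent.Y755
open Pool.Agent.W184.NZ
open Pool.Agent.Y753.NL
open Pool.Agent.Y753.SH
open Pool.Agent.Y971.SH (block term_le Az_ip_le Ed_anti DD_one zsum_ratio)
open Pool.Agent.H306R2 (lc dv)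

/-- the change of weight -/
theorem star : S_STARR := by
  classical
  intro s H hs hH
  refine ⟨Real.exp (1 / 10) * (Real.exp (1 / 5) * (2 + H / 2)) ^ (48 * s ^ 2), by positivity, ?_⟩
  intro M z Rs ε e1 c η d x0 hP hkM' y δ J N K K0 hS hδ hδ1 hx
  obtain ⟨b, hbd⟩ : ∃ b : ℕ → ℝ, b = fun p : ℕ => min 1 (H * (δ * Real.log p)) := ⟨_, rfl⟩
  rw [← hbd]
  have hb0 : ∀ p, 0 ≤ b p := by
    intro p
    rw [hbd]
    refine le_min zero_le_one (mul_nonneg hH (mul_nonneg hδ.le ?_))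
    exact Real.log_natCast_nonneg p
  have hk0 : (0:ℝ) ≤ s := hs.le
  obtain ⟨F, hF⟩ : ∃ F : ℕ → P1, ∀ i, F i = NK (20 * (M * RR Rs i)) s (x1 (IZ z y i)) *
      NK (20 * (M * RR Rs i)) (4 * s) (yb b (IZ z y i)) := ⟨_, fun _ => rfl⟩
  have hFm : ∀ i, F i ∈ SA1 (M1 (IZ z y i)) := by
    intro i
    rw [hF]
    refine Subalgebra.mul_mem _ (NK_mem1 (x1_mem (IZ_prime i)) _ _) (NK_mem1 ?_ _ _)
    unfold yb
    exact Subalgebra.sum_mem _ fun p hp => single_mem_SA1 (prime_mem_M1 (IZ_prime i p hp) hp) _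
  have hFe : ∏ i ∈ range J, (NK (20 * (M * RR Rs i)) s (x1 (IZ z y i)) *
      NK (20 * (M * RR Rs i)) (4 * s) (yb b (IZ z y i))) = ∏ i ∈ range J, F i :=
    prod_congr rfl fun i _ => (hF i).symm
  rw [hFe, ip2 (Az_mem s K0 z) (prod_mem1 J fun i _ => hFm i) (Az_mem s K0 z)
    (prod_mem1 J fun i _ => hFm i), ip_prod δ J (IZ_dj hS) hFm hFm]
  set δ' : ℝ := (1 + H / 2) * δ with hδ'
  have hδδ' : δ ≤ δ' := by
    rw [hδ']
    nlinarith [mul_nonneg hH hδ.le]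
  have hδ'0 : 0 < δ' := lt_of_lt_of_le hδ hδδ'
  -- the blocks
  have hblk : ∀ i, ip δ (F i) (F i) ≤ Real.exp (s ^ 2 * vd δ (IZ z y i) +
      48 * s ^ 2 * (vd δ (IZ z y i) - vd δ' (IZ z y i))) := by
    intro i
    rw [hF]
    refine (block _ hk0 (by positivity) b hb0 _ (IZ_prime i)).trans (Real.exp_le_exp.mpr ?_)
    have h1 : ∀ p ∈ IZ z y i, (s + 4 * s * b p) ^ 2 * rp δ p ^ 2 ≤
        s ^ 2 * rp δ p ^ 2 + 48 * s ^ 2 * (rp δ p ^ 2 - rp δ' p ^ 2) := by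
      intro p hp
      rw [hbd]
      exact term_le hδ hH (IZ_prime i p hp)
    refine (sum_le_sum h1).trans (le_of_eq ?_)
    unfold vd
    rw [sum_add_distrib, mul_sum, ← mul_sum (f := fun p => rp δ p ^ 2 - rp δ' p ^ 2), sum_sub_distrib]
  have hprod : ∏ i ∈ range J, ip δ (F i) (F i) ≤ Real.exp (s ^ 2 * Vd δ z y J +
      48 * s ^ 2 * (Vd δ z y J - Vd δ' z y J)) := by
    refine (prod_le_prod (fun i _ => ip_self_nonneg _ _) fun i _ => hblk i).trans (le_of_eq ?_)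
    rw [← Real.exp_sum]
    congr 1
    unfold Vd
    rw [sum_add_distrib, mul_sum, ← mul_sum (f := fun i => vd δ (IZ z y i) - vd δ' (IZ z y i)),
      sum_sub_distrib]
  -- the exponent one
  have hM1 : (1:ℝ) ≤ M := by exact_mod_cast hP.M1
  have c1 := (hP.cm 1 one_pos hM1 y δ hS.zy hδ hx J hS.J1).2
  have hlogy : 0 ≤ Real.log y := by
    refine Real.log_nonneg ?_
    have h1 : (1000:ℝ) ≤ z := by exact_mod_cast hS.z1
    have := hS.zy
    linarith
  have hx' : x0 ≤ δ' * Real.log y := hx.trans (mul_le_mul_of_nonneg_right hδδ' hlogy)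
  have c2 := (hP.cm 1 one_pos hM1 y δ' hS.zy hδ'0 hx' J hS.J1).1
  have hPle : ∏ p ∈ S0 z, Ed 1 δ' p ≤ ∏ p ∈ S0 z, Ed 1 δ p :=
    prod_le_prod (fun p hp => zero_le_one.trans (Ed_ge_one hδ'0.le (mem_S0.mp hp).2)) fun p hp =>
      Ed_anti hδ.le hδδ' (mem_S0.mp hp).2
  have hP0 : 0 < ∏ p ∈ S0 z, Ed 1 δ p :=
    prod_pos fun p hp => one_pos.trans_le (Ed_ge_one hδ.le (mem_S0.mp hp).2)
  have hDD : DD 1 δ ≤ (2 + H / 2) * DD 1 δ' := by
    rw [DD_one hδ, DD_one hδ'0]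
    exact zsum_ratio hδ hH
  have hD : Real.exp (Vd δ z y J - Vd δ' z y J) ≤ Real.exp (1 / 5) * (2 + H / 2) := by
    rw [one_pow, one_mul] at c1 c2
    have a1 : DD 1 δ' ≤ Real.exp ε * ((∏ p ∈ S0 z, Ed 1 δ' p) * Real.exp (Vd δ' z y J)) := by
      have h := mul_le_mul_of_nonneg_left c2 (Real.exp_pos ε).le
      rwa [← mul_assoc, ← Real.exp_add, add_neg_cancel, Real.exp_zero, one_mul] at h
    have a2 : (∏ p ∈ S0 z, Ed 1 δ' p) * Real.exp (Vd δ' z y J) ≤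
        (∏ p ∈ S0 z, Ed 1 δ p) * Real.exp (Vd δ' z y J) :=
      mul_le_mul_of_nonneg_right hPle (Real.exp_pos _).le
    have a3 : (∏ p ∈ S0 z, Ed 1 δ p) * Real.exp (Vd δ z y J) ≤
        Real.exp ε * ((2 + H / 2) * (Real.exp ε * ((∏ p ∈ S0 z, Ed 1 δ p) * Real.exp (Vd δ' z y J)))) := by
      refine c1.trans (mul_le_mul_of_nonneg_left (hDD.trans (mul_le_mul_of_nonneg_left
        (a1.trans (mul_le_mul_of_nonneg_left a2 (Real.exp_pos ε).le)) (by positivity))) (Real.exp_pos ε).le)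
    have a4 : Real.exp (Vd δ z y J) ≤ Real.exp ε * Real.exp ε * (2 + H / 2) * Real.exp (Vd δ' z y J) := by
      refine le_of_mul_le_mul_left (a3.trans (le_of_eq ?_)) hP0
      ring
    rw [Real.exp_sub, div_le_iff₀ (Real.exp_pos _)]
    refine a4.trans (mul_le_mul_of_nonneg_right (mul_le_mul_of_nonneg_right ?_ (by positivity))
      (Real.exp_pos _).le)
    rw [← Real.exp_add]
    refine Real.exp_le_exp.mpr ?_
    have := hP.e01
    linarith
  -- the exponent `k`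
  have c3 := (hP.cm s hs hkM' y δ hS.zy hδ hx J hS.J1).2
  have hA := Az_ip_le (α := s) hδ.le K0 z
  have hDDk : 0 ≤ DD s δ := zero_le_one.trans (DD_ge_one hs hδ)
  have hPk0 : 0 ≤ ∏ p ∈ S0 z, Ed s δ p :=
    prod_nonneg fun p hp => zero_le_one.trans (Ed_ge_one hδ.le (mem_S0.mp hp).2)
  have hexp : Real.exp (48 * s ^ 2 * (Vd δ z y J - Vd δ' z y J)) =
      Real.exp (Vd δ z y J - Vd δ' z y J) ^ (48 * s ^ 2) := by
    rw [← Real.exp_mul, mul_comm]
  calc ip δ (Az s K0 z) (Az s K0 z) * ∏ i ∈ range J, ip δ (F i) (F i)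
      ≤ (∏ p ∈ S0 z, Ed s δ p) * Real.exp (s ^ 2 * Vd δ z y J +
        48 * s ^ 2 * (Vd δ z y J - Vd δ' z y J)) :=
        mul_le_mul hA hprod (prod_nonneg fun i _ => ip_self_nonneg _ _) hPk0
    _ = ((∏ p ∈ S0 z, Ed s δ p) * Real.exp (s ^ 2 * Vd δ z y J)) *
        Real.exp (Vd δ z y J - Vd δ' z y J) ^ (48 * s ^ 2) := by
        rw [Real.exp_add, hexp, mul_assoc]
    _ ≤ (Real.exp ε * DD s δ) * (Real.exp (1 / 5) * (2 + H / 2)) ^ (48 * s ^ 2) :=
        mul_le_mul c3 (Real.rpow_le_rpow (Real.exp_pos _).le hD (by positivity)) (by positivity)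
          (mul_nonneg (Real.exp_pos _).le hDDk)
    _ ≤ (Real.exp (1 / 10) * DD s δ) * (Real.exp (1 / 5) * (2 + H / 2)) ^ (48 * s ^ 2) := by
        refine mul_le_mul_of_nonneg_right (mul_le_mul_of_nonneg_right
          (Real.exp_le_exp.mpr hP.e01) hDDk) (by positivity)
    _ = Real.exp (1 / 10) * (Real.exp (1 / 5) * (2 + H / 2)) ^ (48 * s ^ 2) * DD s δ := by
        ring

end Pool.Agent.Y753.SHR
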