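import Mathlib

set_option autoImplicit false

/-! Statements for the limit laws of the landscape (project SHL): weak convergence from Laplace transforms. -/

namespace Pool.Agent.Y753.SHL

open MeasureTheory Filter Topology ProbabilityTheory

/-- linear forms -/
noncomputable def lf {n : ℕ} (c y : Fin n → ℝ) : ℝ := ∑ j, c j * y j

/-- quadratic forms -/
noncomputable def qf {n : ℕ} (C : Fin n → Fin n → ℝ) (c : Fin n → ℝ) : ℝ := ∑ i, ∑ j, c i * c j * C i j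

/-- `ρ` is the normal law with mean `m` and covariance `C` -/
def Nor {n : ℕ} (m : Fin n → ℝ) (C : Fin n → Fin n → ℝ) (ρ : ProbabilityMeasure (Fin n → ℝ)) : Prop :=
  ∀ c : Fin n → ℝ, 0 ≤ qf C c ∧ (ρ : Measure (Fin n → ℝ)).map (lf c) = gaussianReal (lf c m) (qf C c).toNNReal

/-- the Laplace transforms converge to the one of the normal law at `θ` -/
def Lap {n : ℕ} (μ : ℝ → ProbabilityMeasure (Fin n → ℝ)) (m : Fin n → ℝ) (C : Fin n → Fin n → ℝ) (θ : Fin n → ℝ) : Prop :=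
  (∀ᶠ T in atTop, Integrable (fun y => Real.exp (lf θ y)) (μ T : Measure (Fin n → ℝ))) ∧
  Tendsto (fun T => ∫ y, Real.exp (lf θ y) ∂(μ T : Measure (Fin n → ℝ))) atTop (𝓝 (Real.exp (lf θ m + qf C θ / 2)))

/-- job SHL-CURT: Curtiss' theorem on the line, Laplace transforms in a neighbourhood of zero, normal limit -/
def S_CURT : Prop := ∀ (μ : ℝ → ProbabilityMeasure ℝ) (m v r : ℝ), 0 < r →
  (∀ u : ℝ, |u| < r → (∀ᶠ T in atTop, Integrable (fun x => Real.exp (u * x)) (μ T : Measure ℝ)) ∧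
    Tendsto (fun T => ∫ x, Real.exp (u * x) ∂(μ T : Measure ℝ)) atTop (𝓝 (Real.exp (u * m + u ^ 2 * v / 2)))) →
  0 ≤ v ∧ Tendsto μ atTop (𝓝 ⟨gaussianReal m v.toNNReal, inferInstance⟩)

/-- job SHL-BALL: the same on `ℝ^n` -/
def S_BALL : Prop := ∀ (n : ℕ) (μ : ℝ → ProbabilityMeasure (Fin n → ℝ)) (m : Fin n → ℝ) (C : Fin n → Fin n → ℝ) (r : ℝ),
  0 < r → (∀ i j, C i j = C j i) → (∀ θ : Fin n → ℝ, (∀ j, |θ j| < r) → Lap μ m C θ) →
  ∃ ρ : ProbabilityMeasure (Fin n → ℝ), Nor m C ρ ∧ Tendsto μ atTop (𝓝 ρ)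

/-- job SHL-LAND: the same, the Laplace transforms being known in an open simplex with corner zero -/
def S_LAND : Prop := ∀ (n : ℕ) (μ : ℝ → ProbabilityMeasure (Fin n → ℝ)) (m : Fin n → ℝ) (C : Fin n → Fin n → ℝ) (b : ℝ),
  0 < b → (∀ i j, C i j = C j i) → (∀ θ : Fin n → ℝ, (∀ j, 0 < θ j) → ∑ j, θ j < b → Lap μ m C θ) →
  ∃ ρ : ProbabilityMeasure (Fin n → ℝ), Nor m C ρ ∧ Tendsto μ atTop (𝓝 ρ)

/-- job SHL-DENSE: rational points of the simplex suffice -/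
def S_DENSE : Prop := ∀ (n : ℕ) (μ : ℝ → ProbabilityMeasure (Fin n → ℝ)) (m : Fin n → ℝ) (C : Fin n → Fin n → ℝ) (b : ℝ),
  0 < b → (∀ q : Fin n → ℚ, (∀ j, 0 < q j) → ∑ j, (q j : ℝ) < 1 → Lap μ m C (fun j => b * q j)) →
  ∀ θ : Fin n → ℝ, (∀ j, 0 < θ j) → ∑ j, θ j < b → Lap μ m C θ

end Pool.Agent.Y753.SHL
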