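import Pool.Agent.Y753.SHR.R13

set_option autoImplicit false

/-! The landscape under the moment measures: the two applications. -/

namespace Pool.Agent.Y753.SHL

open Finset Filter MeasureTheory Topology ProbabilityTheory
open Pool.Agent.Y755
open Pool.Agent.W184.NZ
open Pool.Agent.Y753.NL
open Pool.Agent.Y753.SH
open Pool.Agent.Y753.SHR
open Pool.Agent.H306R2 (aF aF_pos)

/-- order at most four, no exceptional set -/
theorem land_full (hDG : S_DIAGR) (hST : S_STARR) (hDE : S_DENSE) (hLA : S_LAND) {δ : ℝ → ℝ} (hδ : Tendsto δ atTop (𝓝 0))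
    (hδL : Tendsto (fun T : ℝ => δ T * Real.log T) atTop atTop) {β : ℝ} (hβ : 0 < β) (hβ4 : β ≤ 4) {n : ℕ} (a : Fin n → ℝ) :
    ∃ ρ : ProbabilityMeasure (Fin n → ℝ), Nor (mL β a) (CL a) ρ ∧ ∀ F : BoundedContinuousFunction (Fin n → ℝ) ℝ,
      Tendsto (fun T : ℝ => (2 * δ T) ^ ((β / 2) ^ 2) / T * ∫ t in Set.Icc 0 T, za (δ T) 0 t ^ β * F (Yl (δ T) a t)) atTop
        (𝓝 (aF (β / 2) * ∫ y, F y ∂(ρ : Measure (Fin n → ℝ)))) := by
  refine land_core hDE hLA hδ hδL (fun T => ⟨measurableSet_Icc, subset_rfl⟩) hβ a (fun κ _ hκ0 hκs => ?_) ?_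
  · have h1 := full_R hDG hST hδ hδL (Nat.le_add_left 1 n) κ (Fin.cons 0 a : Fin (n + 1) → ℝ) hκ0 (by rw [hκs]; linarith)
    rw [hκs] at h1
    exact h1
  · have h1 := full_R hDG hST hδ hδL le_rfl (fun _ : Fin 1 => β / 2) (fun _ => 0) (fun _ => by positivity) (by simp; linarith)
    have e1 : 2 * (β / 2) = β := by ring
    simp only [univ_unique, Fin.default_eq_zero, Fin.isValue, sum_const, card_singleton, one_smul, prod_singleton, sub_self,
      zero_div, e1] at h1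
    have e2 : (1 + (0:ℝ) ^ 2) ^ (-(β / 2 * (β / 2) / 2)) = 1 := by norm_num
    rw [e2, mul_one] at h1
    exact h1

/-- all orders, off one set -/
theorem land_off (hDG : S_DIAGR) (hST : S_STARR) (hDE : S_DENSE) (hLA : S_LAND) {δ : ℝ → ℝ} (hδ : Tendsto δ atTop (𝓝 0))
    (hδL : Tendsto (fun T : ℝ => δ T * Real.log T) atTop atTop) {S B : Set ℝ} (hS : S.Countable) (hB : B.Countable)
    (hB0 : ∀ β ∈ B, 0 < β) :
    ∃ E : ℝ → Set ℝ, (∀ T, MeasurableSet (E T) ∧ E T ⊆ Set.Icc 0 T) ∧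
      Tendsto (fun T => (volume (E T)).toReal / T) atTop (𝓝 0) ∧
      ∀ β ∈ B, ∀ (n : ℕ) (a : Fin n → ℝ), (∀ j, a j ∈ S) →
    ∃ ρ : ProbabilityMeasure (Fin n → ℝ), Nor (mL β a) (CL a) ρ ∧ ∀ F : BoundedContinuousFunction (Fin n → ℝ) ℝ,
      Tendsto (fun T : ℝ => (2 * δ T) ^ ((β / 2) ^ 2) / T * ∫ t in Set.Icc 0 T \ E T, za (δ T) 0 t ^ β * F (Yl (δ T) a t)) atTop
        (𝓝 (aF (β / 2) * ∫ y, F y ∂(ρ : Measure (Fin n → ℝ)))) := by
  obtain ⟨R, hR⟩ : ∃ R : Set ℝ, R = (fun x : ℝ × ℚ => x.1 / 2 * (x.2 : ℝ)) '' (B ×ˢ {q : ℚ | 0 < q}) := ⟨_, rfl⟩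
  have hRc : R.Countable := by
    rw [hR]
    exact (hB.prod (Set.to_countable _)).image _
  have hR0 : ∀ r ∈ R, 0 < r := by
    rw [hR]
    rintro r ⟨⟨β, q⟩, ⟨h1, h2⟩, rfl⟩
    have h3 := hB0 β h1
    have h4 : (0:ℝ) < q := by exact_mod_cast h2
    simp only
    positivity
  obtain ⟨E, hE, hvol, hm⟩ := moments_R hDG hST hδ hδL (hS.insert 0) hRc hR0
  refine ⟨E, hE, hvol, fun β hβ n a ha => ?_⟩
  have hβ0 := hB0 β hβ
  have hmem : ∀ r : ℚ, 0 < β / 2 * (r : ℝ) → β / 2 * (r : ℝ) ∈ R := by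
    intro r hr
    rw [hR]
    refine ⟨(β, r), ⟨hβ, ?_⟩, rfl⟩
    have h1 : (0:ℝ) < r := by
      rcases lt_or_ge (0:ℝ) r with h | h
      · exact h
      · nlinarith
    exact_mod_cast h1
  refine land_core hDE hLA hδ hδL (fun T => ⟨measurableSet_Icc.diff (hE T).1, Set.sdiff_subset⟩) hβ0 a (fun κ hκ hκ0 hκs => ?_) ?_
  · have h1 := hm (n + 1) κ (Fin.cons 0 a : Fin (n + 1) → ℝ) (Nat.le_add_left 1 n) (fun j => by
      obtain ⟨r, hr⟩ := hκ j
      have h2 := hκ0 j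
      rw [hr] at h2 ⊢
      exact hmem r h2) (fun j => by
      refine Fin.cases (Set.mem_insert _ _) (fun i => Set.mem_insert_of_mem _ (ha i)) j)
    rw [hκs] at h1
    exact h1
  · have h1 := hm 1 (fun _ : Fin 1 => β / 2) (fun _ => 0) le_rfl (fun _ => by
      have h2 := hmem 1 (by push_cast; positivity)
      simpa using h2) (fun _ => Set.mem_insert _ _)
    have e1 : 2 * (β / 2) = β := by ring
    simp only [univ_unique, Fin.default_eq_zero, Fin.isValue, sum_const, card_singleton, one_smul, prod_singleton, sub_self,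
      zero_div, e1] at h1
    have e2 : (1 + (0:ℝ) ^ 2) ^ (-(β / 2 * (β / 2) / 2)) = 1 := by norm_num
    rw [e2, mul_one] at h1
    exact h1

end Pool.Agent.Y753.SHL
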