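import Pool.Agent.Y753.SHR.R18
import Pool.Agent.Y753.SHR.R14

set_option autoImplicit false

/-! Joint moments and the landscape off small sets of large values. -/

namespace Pool.Agent.Y753.SHR

open Finset Filter MeasureTheory MonoidAlgebra Topology
open Pool.Agent.Y755
open Pool.Agent.W184.NZ
open Pool.Agent.W184 (zn zn_nonneg zn_cont zn_le')
open Pool.Agent.Y753.NL
open Pool.Agent.Y753.SH
open Pool.Agent.Y753.SHL
open Pool.Agent.H306R2 (dv dv_nonneg dv_one aF aF_pos)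

lemma prod_le {k : ℕ} {κ a : Fin k → ℝ} {s : ℝ} (hκ : ∀ j, 0 < κ j) (hs0 : 0 < s) (hs : s = ∑ j, κ j) (δ t : ℝ) :
    ∏ j, za δ (a j) t ^ (2 * κ j) ≤ ∑ j, κ j / s * za δ (a j) t ^ (2 * s) := by
  have h5 := Real.geom_mean_le_arith_mean_weighted (univ : Finset (Fin k)) (fun j => κ j / s) (fun j => za δ (a j) t ^ (2 * s))
    (fun j _ => div_nonneg (hκ j).le hs0.le) (by rw [← sum_div, ← hs, div_self hs0.ne']) (fun j _ =>
      Real.rpow_nonneg (za_nonneg _ _ _) _)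
  refine le_trans (le_of_eq (prod_congr rfl fun j _ => ?_)) h5
  rw [← Real.rpow_mul (za_nonneg _ _ _)]
  congr 1
  field_simp

/-- the finite sums -/
lemma sums_countable {R : Set ℝ} (hR : R.Countable) :
    {s : ℝ | 0 < s ∧ ∃ (n : ℕ) (κ : Fin n → ℝ), (∀ j, κ j ∈ R) ∧ s = ∑ j, κ j}.Countable := by
  have := hR.to_subtype
  have h1 : (⋃ n : ℕ, Set.range fun κ : Fin n → R => ∑ j, (κ j : ℝ)).Countable :=
    Set.countable_iUnion fun n => Set.countable_range _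
  refine h1.mono ?_
  rintro s ⟨_, n, κ, hκ, rfl⟩
  exact Set.mem_iUnion.mpr ⟨n, fun j => ⟨κ j, hκ j⟩, rfl⟩

lemma ic {δ : ℝ} (h : δ < 1 / 2) (a : ℝ) {r T : ℝ} (hr : 0 ≤ r) : IntegrableOn (fun t => za δ a t ^ r) (Set.Icc 0 T) :=
  ((za_cont h a).rpow_const fun t => Or.inr hr).continuousOn.integrableOn_compact isCompact_Icc

/-- the joint moments, off a small set of large values -/
theorem moments_small (hDG : S_DIAGR) (hST : S_STARR) {δ : ℝ → ℝ} (hδ : Tendsto δ atTop (𝓝 0))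
    (hδL : Tendsto (fun T : ℝ => δ T * Real.log T) atTop atTop) {c : ℝ} (hc : 0 ≤ c)
    {S R : Set ℝ} (hS : S.Countable) (hR : R.Countable) (hR0 : ∀ r ∈ R, 0 < r) :
    ∃ E : ℝ → Set ℝ, (∀ T, MeasurableSet (E T) ∧ E T ⊆ Set.Icc 0 T ∧ ∀ t ∈ E T, ∃ a ∈ S, (δ T) ^ (-(2 + c)) < za (δ T) a t) ∧
      Tendsto (fun T => (volume (E T)).toReal / (T * (δ T) ^ (4 + 4 * c))) atTop (𝓝 0) ∧
      ∀ (k : ℕ) (κ a : Fin k → ℝ), 1 ≤ k → (∀ j, κ j ∈ R) → (∀ j, a j ∈ S) → (∑ j, κ j ≤ 2 ∨ 4 + 4 * c ≤ 2 * ∑ j, κ j) →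
        Tendsto (fun T : ℝ => (2 * δ T) ^ ((∑ j, κ j) ^ 2) / T * ∫ t in Set.Icc 0 T \ E T, ∏ j, za (δ T) (a j) t ^ (2 * κ j)) atTop
          (𝓝 (aF (∑ j, κ j) * ∏ j, ∏ i, (1 + ((a j - a i) / 2) ^ 2) ^ (-(κ j * κ i / 2)))) := by
  rcases S.eq_empty_or_nonempty with hSe | hSn
  · refine ⟨fun _ => ∅, fun T => ⟨MeasurableSet.empty, Set.empty_subset _, fun t ht => ht.elim⟩, ?_, ?_⟩
    · simp
    · intro k κ a hk _ ha
      have := ha ⟨0, by omega⟩
      rw [hSe] at this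
      exact this.elim
  obtain ⟨f, hf⟩ := hS.exists_eq_range hSn
  obtain ⟨Q, hQ⟩ : ∃ Q : Set ℝ, Q = {s : ℝ | 0 < s ∧ ∃ (n : ℕ) (κ : Fin n → ℝ), (∀ j, κ j ∈ R) ∧ s = ∑ j, κ j} := ⟨_, rfl⟩
  have hQc : Q.Countable := by rw [hQ]; exact sums_countable hR
  have hRQ : ∀ r ∈ R, r ∈ insert 2 Q := fun r hr => by
    refine Set.mem_insert_of_mem _ ?_
    rw [hQ]
    exact ⟨hR0 r hr, 1, fun _ => r, fun _ => hr, by simp⟩
  obtain ⟨E, hE, hvol, hm⟩ := moments_R hDG hST hδ hδL hS (hQc.insert 2) (by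
    intro r hr
    rcases Set.mem_insert_iff.mp hr with h | h
    · rw [h]; norm_num
    · rw [hQ] at h; exact h.1)
  have hone : ∀ a ∈ S, ∀ s ∈ insert 2 Q, Tendsto (fun T : ℝ => (2 * δ T) ^ (s ^ 2) / T * ∫ t in Set.Icc 0 T \ E T, za (δ T) a t ^ (2 * s))
      atTop (𝓝 (aF s)) := by
    intro a ha s hs
    have h1 := hm 1 (fun _ => s) (fun _ => a) le_rfl (fun _ => hs) (fun _ => ha)
    simp only [univ_unique, Fin.default_eq_zero, Fin.isValue, sum_const, card_singleton, one_smul, prod_singleton, sub_self,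
      zero_div] at h1
    have e1 : (1 + (0:ℝ) ^ 2) ^ (-(s * s / 2)) = 1 := by norm_num
    rw [e1, mul_one] at h1
    exact h1
  have hfS : ∀ j, f j ∈ S := fun j => by rw [hf]; exact Set.mem_range_self j
  have h4 : ∀ x ∈ S, Tendsto (fun T : ℝ => (2 * δ T) ^ ((2:ℝ) ^ 2) / T * ∫ t in E T, za (δ T) x t ^ (2 * (2:ℝ))) atTop (𝓝 0) :=
    fun x hx => small_E (by norm_num) le_rfl hδ hδL hE x (hone _ hx 2 (Set.mem_insert _ _))
  obtain ⟨E', hE', hvol', hV⟩ := shrink (κ := c) hδ hδL hE (a := f) fun j => h4 _ (hfS j)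
  refine ⟨E', fun T => ⟨(hE' T).1, (hE' T).2.1.trans (hE T).2, fun t ht => ?_⟩, hvol', ?_⟩
  · obtain ⟨j, hj⟩ := (hE' T).2.2 t ht
    exact ⟨f j, hfS j, hj⟩
  intro k κ a hk hκ ha hcase
  obtain ⟨s, hs⟩ : ∃ s, s = ∑ j, κ j := ⟨_, rfl⟩
  have hmain := hm k κ a hk (fun j => hRQ _ (hκ j)) ha
  rw [← hs] at hmain hcase ⊢
  have hκ0 : ∀ j, 0 < κ j := fun j => hR0 _ (hκ j)
  have hs0 : 0 < s := by rw [hs]; exact sum_pos (fun j _ => hκ0 j) ⟨⟨0, by omega⟩, mem_univ _⟩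
  have hsQ : s ∈ insert 2 Q := by
    refine Set.mem_insert_of_mem _ ?_
    rw [hQ]
    exact ⟨hs0, k, κ, hκ, hs⟩
  have hE'' : ∀ T, MeasurableSet (E' T) ∧ E' T ⊆ E T := fun T => ⟨(hE' T).1, (hE' T).2.1⟩
  have hd : ∀ j : Fin k, Tendsto (fun T : ℝ => (2 * δ T) ^ (s ^ 2) / T * ∫ t in E T \ E' T, za (δ T) (a j) t ^ (2 * s)) atTop (𝓝 0) := by
    intro j
    obtain ⟨i, hi⟩ : ∃ i, f i = a j := by
      have h1 := ha j
      rw [hf] at h1
      exact h1
    refine diff_E hc hs0 hcase hδ hδL hE hE'' (a j) ?_ (h4 _ (ha j)) (hone _ (ha j) s hsQ)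
    rw [← hi]
    exact hV i
  have hδ2 := hδ.eventually (gt_mem_nhds (show (0:ℝ) < 1 / 2 by norm_num))
  have hsum : Tendsto (fun T : ℝ => (2 * δ T) ^ (s ^ 2) / T * ∫ t in E T \ E' T, ∑ j, κ j / s * za (δ T) (a j) t ^ (2 * s))
      atTop (𝓝 0) := by
    have h1 := tendsto_finsetSum (univ : Finset (Fin k)) fun j _ => (hd j).const_mul (κ j / s)
    simp only [mul_zero, sum_const_zero] at h1
    refine h1.congr' ?_
    filter_upwards [hδ2] with T hT
    rw [integral_finsetSum _ fun j _ => ((ic hT (a j) (by positivity)).mono_set (Set.sdiff_subset.trans (hE T).2)).const_mul _, mul_sum]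
    refine sum_congr rfl fun j _ => ?_
    rw [integral_const_mul]
    ring
  refine transfer (V := ℝ) (c := fun T => (2 * δ T) ^ (s ^ 2) / T) (f := fun T t => ∏ j, za (δ T) (a j) t ^ (2 * κ j))
    (g := fun T t => ∑ j, κ j / s * za (δ T) (a j) t ^ (2 * s)) ?_ hE hE'' ?_ ?_ ?_ hmain hsum
  · filter_upwards [pos_path hδL, eventually_gt_atTop 0] with T t1 t2
    positivity
  · filter_upwards [hδ2] with T hT
    exact (continuous_finsetProd _ fun j _ => (za_cont hT (a j)).rpow_const fun t =>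
      Or.inr (by have := hκ0 j; positivity)).continuousOn.integrableOn_compact isCompact_Icc
  · filter_upwards [hδ2] with T hT
    exact integrable_finsetSum _ fun j _ => (ic hT (a j) (by positivity)).const_mul _
  · refine Eventually.of_forall fun T t => ?_
    rw [Real.norm_of_nonneg (prod_nonneg fun j _ => Real.rpow_nonneg (za_nonneg _ _ _) _)]
    exact prod_le hκ0 hs0 hs _ _

/-- the landscape, off a small set of large values -/
theorem land_small (hDG : S_DIAGR) (hST : S_STARR) (hDE : S_DENSE) (hLA : S_LAND) {δ : ℝ → ℝ} (hδ : Tendsto δ atTop (𝓝 0))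
    (hδL : Tendsto (fun T : ℝ => δ T * Real.log T) atTop atTop) {c : ℝ} (hc : 0 ≤ c) {S B : Set ℝ} (hS : S.Countable)
    (hB : B.Countable) (hB0 : ∀ β ∈ B, 0 < β) :
    ∃ E : ℝ → Set ℝ, (∀ T, MeasurableSet (E T) ∧ E T ⊆ Set.Icc 0 T ∧ ∀ t ∈ E T, (δ T) ^ (-(2 + c)) < za (δ T) 0 t) ∧
      Tendsto (fun T => (volume (E T)).toReal / (T * (δ T) ^ (4 + 4 * c))) atTop (𝓝 0) ∧
      ∀ β ∈ B, (β ≤ 4 ∨ 4 + 4 * c ≤ β) → ∀ (n : ℕ) (a : Fin n → ℝ), (∀ j, a j ∈ S) →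
    ∃ ρ : ProbabilityMeasure (Fin n → ℝ), Nor (mL β a) (CL a) ρ ∧ ∀ F : BoundedContinuousFunction (Fin n → ℝ) ℝ,
      Tendsto (fun T : ℝ => (2 * δ T) ^ ((β / 2) ^ 2) / T * ∫ t in Set.Icc 0 T \ E T, za (δ T) 0 t ^ β * F (Yl (δ T) a t)) atTop
        (𝓝 (aF (β / 2) * ∫ y, F y ∂(ρ : Measure (Fin n → ℝ)))) := by
  obtain ⟨E, hE, hvol, hm⟩ := land_off hDG hST hDE hLA hδ hδL hS (hB.insert 4) (by
    intro β hβ
    rcases Set.mem_insert_iff.mp hβ with h | h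
    · rw [h]; norm_num
    · exact hB0 _ h)
  have hone : ∀ β ∈ insert 4 B, Tendsto (fun T : ℝ => (2 * δ T) ^ ((β / 2) ^ 2) / T *
      ∫ t in Set.Icc 0 T \ E T, za (δ T) 0 t ^ (2 * (β / 2))) atTop (𝓝 (aF (β / 2))) := by
    intro β hβ
    obtain ⟨ρ, _, h2⟩ := hm β hβ 0 (fun _ => 0) (fun j => j.elim0)
    have h3 := h2 (BoundedContinuousFunction.const _ 1)
    have e1 : 2 * (β / 2) = β := by ring
    simp only [BoundedContinuousFunction.const_apply, mul_one, integral_const, smul_eq_mul, probReal_univ] at h3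
    rw [e1]
    exact h3
  have h4 := hone 4 (Set.mem_insert _ _)
  have e4 : (4:ℝ) / 2 = 2 := by norm_num
  rw [e4] at h4
  have h4' := small_E (by norm_num) le_rfl hδ hδL hE 0 h4
  obtain ⟨E', hE', hvol', hV⟩ := shrink (κ := c) hδ hδL hE (a := fun _ => 0) fun _ => h4'
  refine ⟨E', fun T => ⟨(hE' T).1, (hE' T).2.1.trans (hE T).2, fun t ht => ((hE' T).2.2 t ht).choose_spec⟩, hvol', ?_⟩
  intro β hβ hcase n a ha
  have hβ0 := hB0 β hβ
  obtain ⟨ρ, hρ, hF⟩ := hm β (Set.mem_insert_of_mem _ hβ) n a ha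
  refine ⟨ρ, hρ, fun F => ?_⟩
  have hE'' : ∀ T, MeasurableSet (E' T) ∧ E' T ⊆ E T := fun T => ⟨(hE' T).1, (hE' T).2.1⟩
  have hd := diff_E hc (show 0 < β / 2 by positivity) (by
    rcases hcase with h | h
    · left; linarith
    · right; linarith) hδ hδL hE hE'' 0 (hV 0) h4' (hone β (Set.mem_insert_of_mem _ hβ))
  have e1 : 2 * (β / 2) = β := by ring
  rw [e1] at hd
  have hd' : Tendsto (fun T => (2 * δ T) ^ ((β / 2) ^ 2) / T * ∫ t in E T \ E' T, ‖F‖ * za (δ T) 0 t ^ β) atTop (𝓝 0) := by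
    have h1 := hd.const_mul ‖F‖
    rw [mul_zero] at h1
    refine h1.congr fun T => ?_
    rw [integral_const_mul]
    ring
  have hδ2 := hδ.eventually (gt_mem_nhds (show (0:ℝ) < 1 / 2 by norm_num))
  refine transfer (V := ℝ) (c := fun T => (2 * δ T) ^ ((β / 2) ^ 2) / T) (f := fun T t => za (δ T) 0 t ^ β * F (Yl (δ T) a t))
    (g := fun T t => ‖F‖ * za (δ T) 0 t ^ β) ?_ hE hE'' ?_ ?_ ?_ (hF F) hd'
  · filter_upwards [pos_path hδL, eventually_gt_atTop 0] with T t1 t2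
    positivity
  · filter_upwards [hδ2] with T hT
    have hY : Measurable (Yl (δ T) a) := measurable_pi_lambda _ fun j =>
      (Real.measurable_log.comp (za_cont hT (a j)).measurable).sub (Real.measurable_log.comp (za_cont hT 0).measurable)
    exact (ic hT 0 hβ0.le).mul_bdd (c := ‖F‖) (F.continuous.measurable.comp hY).aestronglyMeasurable
      (Eventually.of_forall fun t => F.norm_coe_le_norm _)
  · filter_upwards [hδ2] with T hT
    exact (ic hT 0 hβ0.le).const_mul _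
  · refine Eventually.of_forall fun T t => ?_
    rw [norm_mul, Real.norm_of_nonneg (Real.rpow_nonneg (za_nonneg _ _ _) _), mul_comm]
    exact mul_le_mul_of_nonneg_right (F.norm_coe_le_norm _) (Real.rpow_nonneg (za_nonneg _ _ _) _)

end Pool.Agent.Y753.SHR
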