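import Mathlib

set_option autoImplicit false

/-! From paths to uniformity. -/

namespace Pool.Agent.Y753.SHR

open Filter Topology

/-- a limit along all paths `δ(T) → 0`, `δ(T) log T → ∞` is uniform for `λ / log T ≤ δ ≤ 1 / λ` -/
theorem unif {f : ℝ → ℝ → ℝ} {L : ℝ} (h : ∀ δ : ℝ → ℝ, Tendsto δ atTop (𝓝 0) → Tendsto (fun T : ℝ => δ T * Real.log T) atTop atTop →
      Tendsto (fun T => f T (δ T)) atTop (𝓝 L)) {ε : ℝ} (hε : 0 < ε) :
    ∃ lam : ℝ, 0 < lam ∧ ∀ᶠ T : ℝ in atTop, ∀ δ : ℝ, lam / Real.log T ≤ δ → δ ≤ 1 / lam → |f T δ - L| ≤ ε := by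
  by_contra hcon
  push Not at hcon
  have h1 : ∀ n : ℕ, ∀ A : ℝ, ∃ T, A ≤ T ∧ ∃ δ : ℝ, ((n:ℝ) + 1) / Real.log T ≤ δ ∧ δ ≤ 1 / ((n:ℝ) + 1) ∧ ε < |f T δ - L| := by
    intro n A
    have h2 := hcon ((n:ℝ) + 1) (by positivity)
    rw [Filter.frequently_atTop] at h2
    exact h2 A
  choose t ht d hd1 hd2 hd3 using h1
  -- the sequence
  let u : ℕ → ℝ := fun n => Nat.rec (t 0 2) (fun n x => t (n + 1) (max (x + 1) (n + 3))) n
  have hu0 : u 0 = t 0 2 := rfl
  have hus : ∀ n, u (n + 1) = t (n + 1) (max (u n + 1) ((n:ℝ) + 3)) := fun n => rfl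
  obtain ⟨A, hA⟩ : ∃ A : ℕ → ℝ, ∀ n, u n = t n (A n) ∧ (n:ℝ) + 2 ≤ u n := by
    refine ⟨fun n => match n with
      | 0 => 2
      | n + 1 => max (u n + 1) ((n:ℝ) + 3), fun n => ?_⟩
    cases n with
    | zero =>
      refine ⟨rfl, ?_⟩
      have := ht 0 2
      rw [hu0]; push_cast; linarith
    | succ n =>
      refine ⟨rfl, ?_⟩
      have := ht (n + 1) (max (u n + 1) ((n:ℝ) + 3))
      rw [hus]
      push_cast
      linarith [le_max_right (u n + 1) ((n:ℝ) + 3)]
  have hmono : StrictMono u := by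
    refine strictMono_nat_of_lt_succ fun n => ?_
    have := ht (n + 1) (max (u n + 1) ((n:ℝ) + 3))
    rw [hus]
    linarith [le_max_left (u n + 1) ((n:ℝ) + 3)]
  have hutop : Tendsto u atTop atTop := by
    refine tendsto_atTop_mono (fun n => (hA n).2) ?_
    exact tendsto_atTop_add_const_right _ _ tendsto_natCast_atTop_atTop
  classical
  -- the path
  obtain ⟨δ, hδ⟩ : ∃ δ : ℝ → ℝ, (∀ n, δ (u n) = d n (A n)) ∧ ∀ T, (∀ n, T ≠ u n) → δ T = 1 / √(Real.log T) := by
    refine ⟨fun T => if h : ∃ n, T = u n then d h.choose (A h.choose) else 1 / √(Real.log T), fun n => ?_, fun T hT => ?_⟩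
    · have hex : ∃ m, u n = u m := ⟨n, rfl⟩
      have h2 : hex.choose = n := hmono.injective hex.choose_spec.symm
      simp only [dif_pos hex, h2]
    · have hex : ¬ ∃ n, T = u n := fun ⟨n, hn⟩ => hT n hn
      simp only [dif_neg hex]
  have hsq : Tendsto (fun T : ℝ => √(Real.log T)) atTop atTop := Real.tendsto_sqrt_atTop.comp Real.tendsto_log_atTop
  have hlog : ∀ n : ℕ, 0 < Real.log (u n) := fun n => Real.log_pos (by have := (hA n).2; have : (0:ℝ) ≤ n := Nat.cast_nonneg n; linarith)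
  have hδn : ∀ n : ℕ, ((n:ℝ) + 1) / Real.log (u n) ≤ δ (u n) ∧ δ (u n) ≤ 1 / ((n:ℝ) + 1) ∧ ε < |f (u n) (δ (u n)) - L| := by
    intro n
    rw [hδ.1 n]
    have e := (hA n).1
    have g1 := hd1 n (A n)
    have g3 := hd3 n (A n)
    rw [← e] at g1 g3
    exact ⟨g1, hd2 n (A n), g3⟩
  have hδ0 : Tendsto δ atTop (𝓝 0) := by
    rw [Metric.tendsto_atTop]
    intro e he
    obtain ⟨N, hN⟩ := exists_nat_gt (1 / e)
    obtain ⟨T1, hT1⟩ := (hsq.eventually_gt_atTop (1 / e)).exists_forall_of_atTop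
    refine ⟨max T1 (u N), fun T hT => ?_⟩
    rw [Real.dist_eq, sub_zero]
    rcases Classical.em (∃ n : ℕ, T = u n) with hex | hex
    · obtain ⟨n, rfl⟩ := hex
      have hNn : N ≤ n := hmono.le_iff_le.mp ((le_max_right _ _).trans hT)
      obtain ⟨g1, g2, -⟩ := hδn n
      have g0 : 0 ≤ δ (u n) := le_trans (div_nonneg (by positivity) (hlog n).le) g1
      rw [abs_of_nonneg g0]
      refine lt_of_le_of_lt g2 ?_
      have h3 : (N:ℝ) ≤ n := by exact_mod_cast hNn
      rw [div_lt_iff₀ (by positivity)]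
      rw [div_lt_iff₀ he] at hN
      nlinarith
    · push Not at hex
      rw [hδ.2 T hex]
      have h3 := hT1 T ((le_max_left _ _).trans hT)
      have h4 : 0 < √(Real.log T) := lt_trans (by positivity) h3
      rw [abs_of_nonneg (by positivity), div_lt_iff₀ h4]
      rw [div_lt_iff₀ he] at h3
      linarith
  have hδL : Tendsto (fun T : ℝ => δ T * Real.log T) atTop atTop := by
    rw [tendsto_atTop]
    intro b
    obtain ⟨N, hN⟩ := exists_nat_ge b
    obtain ⟨T1, hT1⟩ := (hsq.eventually_ge_atTop (max b 1)).exists_forall_of_atTop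
    rw [eventually_atTop]
    refine ⟨max T1 (u N), fun T hT => ?_⟩
    rcases Classical.em (∃ n : ℕ, T = u n) with hex | hex
    · obtain ⟨n, rfl⟩ := hex
      have hNn : N ≤ n := hmono.le_iff_le.mp ((le_max_right _ _).trans hT)
      obtain ⟨g1, -, -⟩ := hδn n
      rw [div_le_iff₀ (hlog n)] at g1
      have h3 : (N:ℝ) ≤ n := by exact_mod_cast hNn
      linarith
    · push Not at hex
      rw [hδ.2 T hex]
      have h3 := hT1 T ((le_max_left _ _).trans hT)
      have h4 : 1 ≤ √(Real.log T) := (le_max_right _ _).trans h3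
      have h5 : b ≤ √(Real.log T) := (le_max_left _ _).trans h3
      have h6 : 0 ≤ Real.log T := by
        by_contra h7
        push Not at h7
        rw [Real.sqrt_eq_zero_of_nonpos h7.le] at h4
        linarith
      have h7 : 1 / √(Real.log T) * Real.log T = √(Real.log T) := by
        rw [div_mul_eq_mul_div, one_mul, Real.div_sqrt]
      rw [h7]
      exact h5
  have h2 := (h δ hδ0 hδL).comp hutop
  have h3 : Tendsto (fun n => |f (u n) (δ (u n)) - L|) atTop (𝓝 |L - L|) := (h2.sub_const L).abs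
  rw [sub_self, abs_zero] at h3
  obtain ⟨n, hn⟩ := (h3.eventually (gt_mem_nhds hε)).exists
  exact absurd hn (not_lt.mpr (hδn n).2.2.le)

end Pool.Agent.Y753.SHR
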