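import Pool.Agent.Y753.SH.Sh10
import Pool.Agent.Y753.SH.Stm2

set_option autoImplicit false

/-! Products of shifts with real exponents. -/

namespace Pool.Agent.Y753.SHR

open Finset Filter MeasureTheory MonoidAlgebra Topology
open Pool.Agent.Y755
open Pool.Agent.W184.NZ
open Pool.Agent.Y753.NL
open Pool.Agent.Y753.SH
open Pool.Agent.H306R2 (lc lc_zero lc_nonneg lc_conv dv dv_nonneg dv_one dA dA_apply dA_mul dA_one dA_zero dA_nat)

/-- the product of the shifts -/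
noncomputable def Fr {k : ℕ} (h : Fin k → ℝ) (f : Fin k → P1) : PC := ∏ j, sh (h j) (f j)

/-- its limit coefficients -/
noncomputable def dr {k : ℕ} (κ h : Fin k → ℝ) : ArithmeticFunction ℂ := ∏ j, tk (κ j) (h j)

lemma Fr_Do {k : ℕ} (h : Fin k → ℝ) {f : Fin k → P1} (hf : ∀ j, Le (f j) (f j)) : Do (∏ j, f j) (Fr h f) :=
  Do.prod (s := univ) (g := f) (A := fun j => sh (h j) (f j)) fun j _ => Do.sh (hf j) (h j)

lemma tk_norm {κ : ℝ} (hκ : 0 ≤ κ) (h : ℝ) {n : ℕ} (hn : n ≠ 0) : ‖tk κ h n‖ = dv κ n := by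
  show ‖(dv κ n : ℂ) * tz h n‖ = dv κ n
  rw [norm_mul, tz_norm h hn, mul_one, Complex.norm_real, Real.norm_of_nonneg (dv_nonneg hκ n)]

lemma tk_apply (κ h : ℝ) {n : ℕ} (hn : n ≠ 0) : tk κ h n = (dv κ n : ℂ) * (n:ℂ) ^ (-((h:ℂ) * Complex.I)) := by
  show (dv κ n : ℂ) * tz h n = _
  rw [tz_apply h hn]

/-- the coefficients of the product of the shifts -/
theorem dr_diff {k : ℕ} {κ : Fin k → ℝ} (hκ : ∀ j, 0 ≤ κ j) {f : Fin k → P1}
    (hf : ∀ j n, 0 ≤ (f j).coeff n ∧ (f j).coeff n ≤ dv (κ j) n) (h : Fin k → ℝ) :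
    ∀ n, n ≠ 0 → ‖dr κ h n - (Fr h f).coeff n‖ ≤ dv (∑ j, κ j) n - (∏ j, f j).coeff n ∧ ‖dr κ h n‖ ≤ dv (∑ j, κ j) n := by
  classical
  induction k with
  | zero =>
    intro n hn
    have e1 : dr κ h = 1 := by unfold dr; simp
    have e2 : Fr h f = 1 := by unfold Fr; simp
    have e3 : dv (∑ j, κ j) n = if n = 1 then 1 else 0 := by
      rw [← dA_apply, univ_eq_empty, sum_empty, dA_zero, ArithmeticFunction.one_apply]
    rw [e1, e2, e3, univ_eq_empty, prod_empty, ArithmeticFunction.one_apply, MonoidAlgebra.one_def, MonoidAlgebra.one_def, coeff_single,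
      coeff_single, Finsupp.single_apply, Finsupp.single_apply]
    by_cases h1 : n = 1
    · subst h1; simp
    · rw [if_neg h1, if_neg h1, if_neg (fun h2 => h1 h2.symm), if_neg (fun h2 => h1 h2.symm)]; simp
  | succ k ih =>
    intro n hn
    set h' : Fin k → ℝ := fun j => h j.succ with hh'
    set κ' : Fin k → ℝ := fun j => κ j.succ with hκ'
    set f' : Fin k → P1 := fun j => f j.succ with hf'
    have ih' := ih (κ := κ') (fun j => hκ j.succ) (f := f') (fun j => hf j.succ) h'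
    have e1 : dr κ h = tk (κ 0) (h 0) * dr κ' h' := by unfold dr; rw [Fin.prod_univ_succ]
    have e2 : Fr h f = sh (h 0) (f 0) * Fr h' f' := by unfold Fr; rw [Fin.prod_univ_succ]
    have e3 : dv (∑ j, κ j) n = ∑ p ∈ n.divisorsAntidiagonal, dv (κ 0) p.1 * dv (∑ j, κ' j) p.2 := by
      rw [← dA_apply, Fin.sum_univ_succ, ← dA_mul, ArithmeticFunction.mul_apply]
      refine sum_congr rfl fun p _ => ?_
      rw [dA_apply, dA_apply]
    rw [e1, e2, e3, Fin.prod_univ_succ, ArithmeticFunction.mul_apply, anti_c hn, anti_r hn]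
    have hp : ∀ p ∈ n.divisorsAntidiagonal, p.1 ≠ 0 ∧ p.2 ≠ 0 := by
      intro p hp
      rw [Nat.mem_divisorsAntidiagonal] at hp
      constructor
      · intro h0; rw [h0, zero_mul] at hp; exact hn hp.1.symm
      · intro h0; rw [h0, mul_zero] at hp; exact hn hp.1.symm
    constructor
    · rw [← sum_sub_distrib, ← sum_sub_distrib]
      refine (norm_sum_le _ _).trans (sum_le_sum fun p hpm => ?_)
      obtain ⟨p1, p2⟩ := hp p hpm
      obtain ⟨i1, i2⟩ := ih' p.2 p2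
      rw [sh_coeff, tk_apply _ _ p1]
      set u := (p.1:ℂ) ^ (-((h 0 : ℂ) * Complex.I)) with hu
      have hu1 : ‖u‖ = 1 := norm_ncpow p1 (h 0)
      have hf1 := hf 0 p.1
      have e4 : (dv (κ 0) p.1 : ℂ) * u * dr κ' h' p.2 - ((f 0).coeff p.1 : ℂ) * u * (Fr h' f').coeff p.2 =
          u * (((f 0).coeff p.1 : ℂ) * (dr κ' h' p.2 - (Fr h' f').coeff p.2) + ((dv (κ 0) p.1 - (f 0).coeff p.1 : ℝ) : ℂ) * dr κ' h' p.2) := by
        push_cast; ring
      rw [e4, norm_mul, hu1, one_mul]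
      refine (norm_add_le _ _).trans ?_
      rw [norm_mul, norm_mul, Complex.norm_real, Complex.norm_real, Real.norm_of_nonneg hf1.1,
        Real.norm_of_nonneg (by linarith [hf1.2])]
      have h5 := mul_le_mul_of_nonneg_left i1 hf1.1
      have h6 := mul_le_mul_of_nonneg_left i2 (by linarith [hf1.2] : 0 ≤ dv (κ 0) p.1 - (f 0).coeff p.1)
      have h7 : (f 0).coeff p.1 * (dv (∑ j, κ' j) p.2 - (∏ j, f' j).coeff p.2) + (dv (κ 0) p.1 - (f 0).coeff p.1) * dv (∑ j, κ' j) p.2 =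
          dv (κ 0) p.1 * dv (∑ j, κ' j) p.2 - (f 0).coeff p.1 * (∏ j, f' j).coeff p.2 := by ring
      linarith
    · refine (norm_sum_le _ _).trans (sum_le_sum fun p hpm => ?_)
      obtain ⟨p1, p2⟩ := hp p hpm
      rw [norm_mul, tk_norm (hκ 0) _ p1]
      exact mul_le_mul_of_nonneg_left (ih' p.2 p2).2 (dv_nonneg (hκ 0) _)

/-- the Dirichlet polynomial of the product -/
noncomputable def Dr {k : ℕ} (κ h : Fin k → ℝ) (N : ℕ) : PC := ∑ n ∈ Icc 1 N, single n (dr κ h n)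

lemma Dr_coeff {k : ℕ} (κ h : Fin k → ℝ) (N n : ℕ) : (Dr κ h N).coeff n = if n ∈ Icc 1 N then dr κ h n else 0 := by
  classical
  unfold Dr
  rw [coeff_sum, Finsupp.finsetSum_apply]
  simp_rw [coeff_single, Finsupp.single_apply]
  rw [sum_ite_eq' (Icc 1 N) n (fun m => dr κ h m)]

lemma dr_le {k : ℕ} {κ : Fin k → ℝ} (hκ : ∀ j, 0 ≤ κ j) (h : Fin k → ℝ) {n : ℕ} (hn : n ≠ 0) : ‖dr κ h n‖ ≤ dv (∑ j, κ j) n :=
  (dr_diff hκ (f := fun _ => 0) (fun j n => by simpa using dv_nonneg (hκ j) n) h n hn).2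

lemma Dr_Do {k : ℕ} {κ : Fin k → ℝ} (hκ : ∀ j, 0 ≤ κ j) (h : Fin k → ℝ) (N : ℕ) : Do (DN (∑ j, κ j) N) (Dr κ h N) := by
  intro n
  rw [Dr_coeff, DN_coeff]
  split_ifs with h1
  · rw [mem_Icc] at h1
    exact dr_le hκ h (by omega)
  · rw [norm_zero]

lemma Dr_diff {k N : ℕ} {κ : Fin k → ℝ} (hκ : ∀ j, 0 ≤ κ j) {f : Fin k → P1}
    (hf : ∀ j n, 0 ≤ (f j).coeff n ∧ (f j).coeff n ≤ dv (κ j) n) (hN : Bd1 N (∏ j, f j)) (h : Fin k → ℝ) :
    Do (DN (∑ j, κ j) N - ∏ j, f j) (Dr κ h N - Fr h f) := by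
  intro n
  rw [coeff_sub, coeff_sub, Finsupp.sub_apply, Finsupp.sub_apply, Dr_coeff, DN_coeff]
  have hff : ∀ j, Le (f j) (f j) := fun j n => ⟨(hf j n).1, le_rfl⟩
  split_ifs with h1
  · rw [mem_Icc] at h1
    exact (dr_diff hκ hf h n (by omega)).1
  · have h2 : (∏ j, f j).coeff n = 0 := by
      by_contra h3
      have := hN n (Finsupp.mem_support_iff.mpr h3)
      rw [mem_Icc, not_and_or] at h1
      have h4 : n ≤ N := by exact_mod_cast this.2
      omega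
    have h3 := Fr_Do h hff n
    rw [h2] at h3
    rw [norm_le_zero_iff.mp h3, h2]
    simp

/-! ### sums of exponents -/

/-- the polynomial close to a real power of zeta -/
noncomputable def fr (κ : ℝ) (M z K0 : ℕ) (y : ℝ) (J Rs : ℕ) : P1 := Az κ K0 z * Bm M κ z y J Rs

lemma fr_zero (M z K0 : ℕ) (y : ℝ) (J Rs : ℕ) : fr 0 M z K0 y J Rs = 1 := by
  unfold fr Az Bm
  rw [prod_eq_one fun p _ => Lp_zero K0 p, prod_eq_one fun i _ => one_le_NK_zero _, mul_one]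

lemma Az_nn' {κ : ℝ} (hκ : 0 ≤ κ) (K z : ℕ) : Le (Az κ K z) (Az κ K z) := by
  unfold Az
  exact Le.prod fun p _ => Lp_nn hκ K p

lemma Bm_nn' {κ : ℝ} (hκ : 0 ≤ κ) (M z : ℕ) (y : ℝ) (J Rs : ℕ) : Le (Bm M κ z y J Rs) (Bm M κ z y J Rs) := by
  unfold Bm
  exact Le.prod fun i _ => NK_nn _ hκ (x1_nn _)

lemma fr_nn {κ : ℝ} (hκ : 0 ≤ κ) (M z K0 : ℕ) (y : ℝ) (J Rs : ℕ) : Le (fr κ M z K0 y J Rs) (fr κ M z K0 y J Rs) :=
  (Az_nn' hκ K0 z).mul (Bm_nn' hκ M z y J Rs)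

lemma fr_add_le {a b : ℝ} (ha : 0 ≤ a) (hb : 0 ≤ b) (M z K0 : ℕ) (y : ℝ) (J Rs : ℕ) :
    Le (fr (a + b) M z K0 y J Rs) (fr a M z K0 y J Rs * fr b M z K0 y J Rs) := by
  have h1 : Le (Az (a + b) K0 z) (Az a K0 z * Az b K0 z) := by
    unfold Az
    rw [← prod_mul_distrib]
    exact Le.prod fun p _ => Lp_add_le ha hb K0 p
  have h2 : Le (Bm M (a + b) z y J Rs) (Bm M a z y J Rs * Bm M b z y J Rs) := by
    unfold Bm
    rw [← prod_mul_distrib]
    exact Le.prod fun i _ => NK_exp_add_le _ ha hb (x1_nn _)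
  have h3 := h1.mul h2
  have e1 : Az a K0 z * Az b K0 z * (Bm M a z y J Rs * Bm M b z y J Rs) = fr a M z K0 y J Rs * fr b M z K0 y J Rs := by
    unfold fr; ring
  rw [e1] at h3
  exact h3

lemma fr_sum_le {k : ℕ} {κ : Fin k → ℝ} (hκ : ∀ j, 0 ≤ κ j) (M z K0 : ℕ) (y : ℝ) (J Rs : ℕ) :
    Le (fr (∑ j, κ j) M z K0 y J Rs) (∏ j, fr (κ j) M z K0 y J Rs) := by
  induction k with
  | zero => rw [univ_eq_empty, sum_empty, prod_empty, fr_zero]; exact Le.one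
  | succ k ih =>
    rw [Fin.sum_univ_succ, Fin.prod_univ_succ]
    exact (fr_add_le (hκ 0) (sum_nonneg fun j _ => hκ j.succ) M z K0 y J Rs).trans
      ((fr_nn (hκ 0) M z K0 y J Rs).mul (ih fun j => hκ j.succ))

end Pool.Agent.Y753.SHR
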