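import Pool.Agent.Y753.SHR.R9

set_option autoImplicit false

/-! The final form of the limits of the shifted moments with real exponents. -/

namespace Pool.Agent.Y753.SHR

open Finset Filter MeasureTheory MonoidAlgebra Topology
open Pool.Agent.Y755
open Pool.Agent.W184.NZ
open Pool.Agent.Y753.NL
open Pool.Agent.Y753.SH
open Pool.Agent.H306R2 (dv dv_nonneg dv_one aF)

/-- the final form -/
theorem main_R (hDG : S_DIAGR) (hST : S_STARR) {δ : ℝ → ℝ} (hδ : Tendsto δ atTop (𝓝 0))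
    (hδL : Tendsto (fun T : ℝ => δ T * Real.log T) atTop atTop)
    {S R : Set ℝ} (hS : S.Countable) (hR : R.Countable) (hR0 : ∀ r ∈ R, 0 < r) :
    ∃ (E : ℝ → Set ℝ) (w : ℝ → ℝ → ℂ), (∀ T, MeasurableSet (E T) ∧ E T ⊆ Set.Icc 0 T ∧ Measurable (w T)) ∧
      Tendsto (fun T => (volume (E T)).toReal / T) atTop (𝓝 0) ∧
      (∀ a ∈ S, ∀ᶠ T in atTop, ∀ t ∈ Set.Icc 0 T \ E T, Complex.exp (w T (t + a * δ T)) =
        riemannZeta (1 / 2 + δ T + ((t + a * δ T : ℝ) : ℂ) * Complex.I)) ∧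
      ∀ (k l : ℕ) (κ a : Fin k → ℝ) (τ b : Fin l → ℝ) (s : ℝ), 1 ≤ k → 1 ≤ l → ∑ j, κ j = s → ∑ i, τ i = s →
        (∀ j, κ j ∈ R) → (∀ j, a j ∈ S) → (∀ i, τ i ∈ R) → (∀ i, b i ∈ S) →
        (∀ᶠ T in atTop, IntegrableOn (fun t => zr (w T) (δ T) κ a t * (starRingEnd ℂ) (zr (w T) (δ T) τ b t))
          (Set.Icc 0 T \ E T)) ∧
        Tendsto (fun T : ℝ => (((2 * δ T) ^ (s ^ 2) / T : ℝ) : ℂ) *
          ∫ t in Set.Icc 0 T \ E T, zr (w T) (δ T) κ a t * (starRingEnd ℂ) (zr (w T) (δ T) τ b t)) atTop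
          (𝓝 ((aF s : ℂ) * ∏ j, ∏ i, (1 + Complex.I * ((a j - b i : ℝ) : ℂ) / 2) ^ (-((κ j * τ i : ℝ) : ℂ)))) := by
  obtain ⟨σ, hσ⟩ := (hS.insert 0).exists_eq_range (Set.insert_nonempty _ _)
  obtain ⟨ρ, hρ⟩ := (hR.insert 1).exists_eq_range (Set.insert_nonempty _ _)
  have hmem : ∀ x ∈ S, ∃ i, x = σ i := by
    intro x hx
    have h1 : x ∈ Set.range σ := by rw [← hσ]; exact Set.mem_insert_of_mem _ hx
    obtain ⟨i, hi⟩ := h1
    exact ⟨i, hi.symm⟩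
  have hmemR : ∀ x ∈ R, ∃ i, x = ρ i := by
    intro x hx
    have h1 : x ∈ Set.range ρ := by rw [← hρ]; exact Set.mem_insert_of_mem _ hx
    obtain ⟨i, hi⟩ := h1
    exact ⟨i, hi.symm⟩
  have hρ0 : ∀ i, 0 < ρ i := by
    intro i
    have h1 : ρ i ∈ insert 1 R := by rw [hρ]; exact Set.mem_range_self i
    rcases Set.mem_insert_iff.mp h1 with h2 | h2
    · rw [h2]; exact one_pos
    · exact hR0 _ h2
  obtain ⟨V, N, hN, hVm, hV⟩ := path_R hST σ ρ hρ0 hδ hδL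
  have hE : ∀ᶠ T in atTop, Set.Icc 0 T \ (Set.Icc 0 T \ (V T).1) = (V T).1 := by
    filter_upwards [hV] with T hT
    rw [Set.sdiff_sdiff_right_self, Set.inter_eq_right.mpr hT.1.1.2.1]
  refine ⟨fun T => Set.Icc 0 T \ (V T).1, fun T => (V T).2,
    fun T => ⟨measurableSet_Icc.diff (hVm T).1, Set.sdiff_subset, (hVm T).2⟩, ?_, ?_, ?_⟩
  · refine squeeze_zero' ?_ ?_ (Pool.Agent.Y753.NL.inv_N (N := N) hN)
    · filter_upwards [eventually_gt_atTop 0] with T hT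
      positivity
    · filter_upwards [eventually_gt_atTop 0, hV] with T hT hT'
      rw [div_le_iff₀ hT]
      have h1 := hT'.1.1.2.2
      have e1 : 1 / ((N T : ℝ) + 1) * T = T / (N T + 1) := by ring
      rw [e1]
      exact h1
  · intro a ha
    obtain ⟨i, hi⟩ := hmem a ha
    filter_upwards [hV, hE, hN.eventually_ge_atTop i] with T h1 h2 h3 t ht
    rw [h2] at ht
    rw [hi]
    exact h1.1.2.2 t ht i h3
  · intro k l κ a τ b s hk hl hκs hτs hκ ha hτ hb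
    obtain ⟨m1, m2⟩ := lim_R hDG hρ0 hδ hδL hN hV hk hl κ a τ b hκs hτs (fun j => hmemR _ (hκ j)) (fun j => hmem _ (ha j))
      (fun j => hmemR _ (hτ j)) (fun j => hmem _ (hb j))
    refine ⟨?_, ?_⟩
    · filter_upwards [m1, hE] with T h1 h2
      rw [h2]
      exact h1
    · refine m2.congr' ?_
      filter_upwards [hE, eventually_gt_atTop 0] with T h1 hT0
      rw [h1]
      have hTc : ((T:ℝ):ℂ) ≠ 0 := by exact_mod_cast hT0.ne'
      push_cast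
      field_simp

/-- the modulus of the product of the shifted powers -/
lemma zr_sq {k : ℕ} {w : ℝ → ℂ} {δ : ℝ} {κ a : Fin k → ℝ} {t : ℝ}
    (hw : ∀ j, Complex.exp (w (t + a j * δ)) = riemannZeta (1 / 2 + δ + ((t + a j * δ : ℝ) : ℂ) * Complex.I)) :
    zr w δ κ a t * (starRingEnd ℂ) (zr w δ κ a t) =
      ((∏ j, ‖riemannZeta (1 / 2 + δ + ((t + a j * δ : ℝ) : ℂ) * Complex.I)‖ ^ (2 * κ j) : ℝ) : ℂ) := by
  rw [Complex.mul_conj, Complex.normSq_eq_norm_sq]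
  congr 1
  unfold zr
  rw [norm_prod, ← Finset.prod_pow]
  refine Finset.prod_congr rfl fun j _ => ?_
  rw [← hw j, Complex.norm_exp, Complex.norm_exp, ← Real.exp_mul, ← Real.exp_nat_mul]
  congr 1
  simp only [Complex.mul_re, Complex.ofReal_re, Complex.ofReal_im, zero_mul, sub_zero]
  push_cast
  ring

/-- the modulus of the limit -/
lemma lim_norm {k : ℕ} (κ a : Fin k → ℝ) :
    ‖∏ j, ∏ i, (1 + Complex.I * ((a j - a i : ℝ) : ℂ) / 2) ^ (-((κ j * κ i : ℝ) : ℂ))‖ =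
      ∏ j, ∏ i, (1 + ((a j - a i) / 2) ^ 2) ^ (-(κ j * κ i / 2)) := by
  rw [norm_prod]
  refine Finset.prod_congr rfl fun j _ => ?_
  rw [norm_prod]
  refine Finset.prod_congr rfl fun i _ => ?_
  obtain ⟨x, hx⟩ : ∃ x, x = a j - a i := ⟨_, rfl⟩
  rw [← hx]
  have e1 : ‖1 + Complex.I * (x : ℂ) / 2‖ = (1 + (x / 2) ^ 2) ^ ((1:ℝ) / 2) := by
    rw [← Real.sqrt_eq_rpow, Complex.norm_def, Complex.normSq_apply]
    congr 1
    simp
    ring
  have e2 : (-((κ j * κ i : ℝ) : ℂ)) = ((-(κ j * κ i) : ℝ) : ℂ) := by push_cast; ring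
  rw [e2, Complex.norm_cpow_real, e1, ← Real.rpow_mul (by positivity)]
  congr 1
  ring

/-- the joint moments -/
theorem moments_R (hDG : S_DIAGR) (hST : S_STARR) {δ : ℝ → ℝ} (hδ : Tendsto δ atTop (𝓝 0))
    (hδL : Tendsto (fun T : ℝ => δ T * Real.log T) atTop atTop)
    {S R : Set ℝ} (hS : S.Countable) (hR : R.Countable) (hR0 : ∀ r ∈ R, 0 < r) :
    ∃ E : ℝ → Set ℝ, (∀ T, MeasurableSet (E T) ∧ E T ⊆ Set.Icc 0 T) ∧
      Tendsto (fun T => (volume (E T)).toReal / T) atTop (𝓝 0) ∧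
      ∀ (k : ℕ) (κ a : Fin k → ℝ), 1 ≤ k → (∀ j, κ j ∈ R) → (∀ j, a j ∈ S) →
        Tendsto (fun T : ℝ => (2 * δ T) ^ ((∑ j, κ j) ^ 2) / T *
          ∫ t in Set.Icc 0 T \ E T, ∏ j, ‖riemannZeta (1 / 2 + δ T + ((t + a j * δ T : ℝ) : ℂ) * Complex.I)‖ ^ (2 * κ j)) atTop
          (𝓝 (aF (∑ j, κ j) * ∏ j, ∏ i, (1 + ((a j - a i) / 2) ^ 2) ^ (-(κ j * κ i / 2)))) := by
  obtain ⟨E, w, hE, hvol, hw, hm⟩ := main_R hDG hST hδ hδL hS hR hR0
  refine ⟨E, fun T => ⟨(hE T).1, (hE T).2.1⟩, hvol, fun k κ a hk hκ ha => ?_⟩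
  have hpos : ∀ᶠ T in atTop, 0 < δ T := by
    filter_upwards [hδL.eventually_gt_atTop 0, eventually_gt_atTop 1] with T hT hT1
    exact (pos_iff_pos_of_mul_pos hT).mpr (Real.log_pos hT1)
  have hs0 : 0 < ∑ j, κ j := sum_pos (fun j _ => hR0 _ (hκ j)) ⟨⟨0, by omega⟩, mem_univ _⟩
  have h1 := (hm k k κ a κ a _ hk hk rfl rfl hκ ha hκ ha).2.norm
  rw [norm_mul, lim_norm, Complex.norm_real, Real.norm_of_nonneg (Pool.Agent.H306R2.aF_pos hs0).le] at h1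
  refine h1.congr' ?_
  have hw' : ∀ᶠ T in atTop, ∀ j, ∀ t ∈ Set.Icc 0 T \ E T, Complex.exp (w T (t + a j * δ T)) =
        riemannZeta (1 / 2 + δ T + ((t + a j * δ T : ℝ) : ℂ) * Complex.I) :=
    eventually_all.mpr fun j => hw _ (ha j)
  filter_upwards [hw', hpos, eventually_gt_atTop 0] with T h2 h3 hT0
  have hmeas : MeasurableSet (Set.Icc 0 T \ E T) := measurableSet_Icc.diff (hE T).1
  have e1 : ∫ t in Set.Icc 0 T \ E T, zr (w T) (δ T) κ a t * (starRingEnd ℂ) (zr (w T) (δ T) κ a t) =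
      ((∫ t in Set.Icc 0 T \ E T, ∏ j, ‖riemannZeta (1 / 2 + δ T + ((t + a j * δ T : ℝ) : ℂ) * Complex.I)‖ ^ (2 * κ j) : ℝ) : ℂ) := by
    rw [← integral_complex_ofReal]
    exact setIntegral_congr_fun hmeas fun t ht => zr_sq fun j => h2 j t ht
  rw [e1, norm_mul, Complex.norm_real, Complex.norm_real, Real.norm_of_nonneg (by positivity), Real.norm_of_nonneg]
  exact setIntegral_nonneg hmeas fun t _ => Finset.prod_nonneg fun j _ => by positivity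

/-- the two shifts of the problem of Kösters, real exponents -/
theorem two_R (hDG : S_DIAGR) (hST : S_STARR) {δ : ℝ → ℝ} (hδ : Tendsto δ atTop (𝓝 0))
    (hδL : Tendsto (fun T : ℝ => δ T * Real.log T) atTop atTop)
    {S R : Set ℝ} (hS : S.Countable) (hR : R.Countable) (hR0 : ∀ r ∈ R, 0 < r) :
    ∃ (E : ℝ → Set ℝ) (w : ℝ → ℝ → ℂ), (∀ T, MeasurableSet (E T) ∧ E T ⊆ Set.Icc 0 T ∧ Measurable (w T)) ∧
      Tendsto (fun T => (volume (E T)).toReal / T) atTop (𝓝 0) ∧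
      (∀ α ∈ S, ∀ᶠ T in atTop, ∀ t ∈ Set.Icc 0 T \ E T,
        Complex.exp (w T (t + α * δ T)) = riemannZeta (1 / 2 + δ T + ((t + α * δ T : ℝ) : ℂ) * Complex.I) ∧
        Complex.exp (w T (t - α * δ T)) = riemannZeta (1 / 2 + δ T + ((t - α * δ T : ℝ) : ℂ) * Complex.I)) ∧
      ∀ κ ∈ R, ∀ α ∈ S, 
        (∀ᶠ T in atTop, IntegrableOn (fun t => Complex.exp (κ * (w T (t + α * δ T) + (starRingEnd ℂ) (w T (t - α * δ T)))))
          (Set.Icc 0 T \ E T)) ∧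
        Tendsto (fun T : ℝ => (((2 * δ T) ^ (κ ^ 2) / T : ℝ) : ℂ) *
          ∫ t in Set.Icc 0 T \ E T, Complex.exp (κ * (w T (t + α * δ T) + (starRingEnd ℂ) (w T (t - α * δ T))))) atTop
          (𝓝 ((aF κ : ℂ) * (1 + Complex.I * α) ^ (-((κ ^ 2 : ℝ) : ℂ)))) := by
  obtain ⟨E, w, hE, hvol, hw, hm⟩ := main_R hDG hST hδ hδL (S := S ∪ (fun x => -x) '' S) (hS.union (hS.image _)) hR hR0
  have hneg : ∀ α ∈ S, -α ∈ S ∪ (fun x => -x) '' S := fun α hα => Or.inr ⟨α, hα, rfl⟩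
  refine ⟨E, w, hE, hvol, fun α hα => ?_, fun κ hκ α hα => ?_⟩
  · filter_upwards [hw α (Or.inl hα), hw (-α) (hneg α hα)] with T h1 h2 t ht
    have h3 := h2 t ht
    have e1 : t + -α * δ T = t - α * δ T := by ring
    rw [e1] at h3
    exact ⟨h1 t ht, h3⟩
  · obtain ⟨h1, h2⟩ := hm 1 1 (fun _ => κ) (fun _ => α) (fun _ => κ) (fun _ => -α) κ le_rfl le_rfl (by simp) (by simp)
      (fun _ => hκ) (fun _ => Or.inl hα) (fun _ => hκ) (fun _ => hneg α hα)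
    have e1 : ∀ (T t : ℝ), zr (w T) (δ T) (fun _ : Fin 1 => κ) (fun _ => α) t *
        (starRingEnd ℂ) (zr (w T) (δ T) (fun _ : Fin 1 => κ) (fun _ => -α) t) =
        Complex.exp (κ * (w T (t + α * δ T) + (starRingEnd ℂ) (w T (t - α * δ T)))) := by
      intro T t
      unfold zr
      rw [Fin.prod_univ_one, Fin.prod_univ_one, ← Complex.exp_conj, ← Complex.exp_add]
      congr 1
      have e2 : t + -α * δ T = t - α * δ T := by ring
      rw [e2, map_mul, Complex.conj_ofReal]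
      ring
    simp_rw [e1] at h1 h2
    refine ⟨h1, ?_⟩
    rw [Fin.prod_univ_one, Fin.prod_univ_one] at h2
    have e3 : (1 + Complex.I * ((α - -α : ℝ) : ℂ) / 2) ^ (-((κ * κ : ℝ) : ℂ)) = (1 + Complex.I * α) ^ (-((κ ^ 2 : ℝ) : ℂ)) := by
      have e4 : (1 + Complex.I * ((α - -α : ℝ) : ℂ) / 2) = 1 + Complex.I * α := by push_cast; ring
      rw [e4, sq]
    rw [e3] at h2
    exact h2

end Pool.Agent.Y753.SHR
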