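import Pool.Agent.Y753.SHR.R10
import Pool.Agent.Y755.Fin4

set_option autoImplicit false

/-! Full joint moments of total order at most four, and lower bounds of every order. -/

namespace Pool.Agent.Y753.SHR

open Finset Filter MeasureTheory MonoidAlgebra Topology
open Pool.Agent.Y755
open Pool.Agent.W184.NZ
open Pool.Agent.Y753.NL
open Pool.Agent.Y753.SH
open Pool.Agent.H306R2 (dv dv_nonneg dv_one aF aF_pos)

lemma up_full {s : ℝ} (hs : 0 < s) (hs2 : s ≤ 2) {ε : ℝ} (hε : 0 < ε) :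
    ∃ lam : ℝ, 1 ≤ lam ∧ ∀ x : ℝ, ∀ᶠ T : ℝ in atTop, ∀ δ : ℝ, lam / Real.log T ≤ δ → δ ≤ 1 / 16 →
      mom (2 * s) (1 / 2 + δ) x T ≤ (1 + ε) * DD s δ := by
  rcases le_or_gt s 1 with h | h
  · exact mom_up hs h hε
  · exact mom_up4 h.le hs2 hε

/-- the absolute value at a shifted point -/
noncomputable def za (δ a t : ℝ) : ℝ := ‖riemannZeta (1 / 2 + δ + ((t + a * δ : ℝ) : ℂ) * Complex.I)‖

lemma za_nonneg (δ a t : ℝ) : 0 ≤ za δ a t := norm_nonneg _

lemma za_cont {δ : ℝ} (hδ : δ < 1 / 2) (a : ℝ) : Continuous (za δ a) := by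
  unfold za
  have h1 : Continuous fun t : ℝ => riemannZeta (1 / 2 + δ + t * Complex.I) := zl_cont hδ
  exact (h1.comp (continuous_id.add continuous_const)).norm

lemma za_shift (δ a t : ℝ) : za δ a t = za δ 0 (t + a * δ) := by
  unfold za
  congr 3
  push_cast
  ring

lemma shift_up {s : ℝ} (hs : 0 < s) (hs2 : s ≤ 2) {δ : ℝ → ℝ} (hδ : Tendsto δ atTop (𝓝 0))
    (hδL : Tendsto (fun T : ℝ => δ T * Real.log T) atTop atTop) (a : ℝ) {c : ℝ} (hc : aF s < c) :
    ∀ᶠ T : ℝ in atTop, (2 * δ T) ^ (s ^ 2) / T * ∫ t in Set.Icc 0 T, za (δ T) a t ^ (2 * s) ≤ c := by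
  have hpos : ∀ᶠ T in atTop, 0 < δ T := by
    filter_upwards [hδL.eventually_gt_atTop 0, eventually_gt_atTop 1] with T hT hT1
    exact (pos_iff_pos_of_mul_pos hT).mpr (Real.log_pos hT1)
  have ha := aF_pos hs
  obtain ⟨ε, hε, hεc⟩ : ∃ ε : ℝ, 0 < ε ∧ (1 + ε) * aF s < c := by
    refine ⟨(c / aF s - 1) / 2, ?_, ?_⟩
    · have : 1 < c / aF s := by rw [lt_div_iff₀ ha]; linarith
      linarith
    · have e1 : (1 + (c / aF s - 1) / 2) * aF s = (aF s + c) / 2 := by field_simp; ring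
      rw [e1]; linarith
  obtain ⟨lam, hlam, hup⟩ := up_full hs hs2 hε
  have hD : Tendsto (fun T => (2 * δ T) ^ (s ^ 2) * DD s (δ T)) atTop (𝓝 (aF s)) := DD_asym hs hpos hδ
  have hT2 : Tendsto (fun T : ℝ => (T + 2) / T) atTop (𝓝 1) := by
    have h1 : Tendsto (fun T : ℝ => 1 + 2 / T) atTop (𝓝 (1 + 0)) := tendsto_const_nhds.add (tendsto_const_nhds.div_atTop tendsto_id)
    rw [add_zero] at h1
    refine h1.congr' ?_
    filter_upwards [eventually_gt_atTop 0] with T hT
    field_simp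
  have hg : Tendsto (fun T : ℝ => (T + 2) / T * ((1 + ε) * ((2 * δ T) ^ (s ^ 2) * DD s (δ T)))) atTop (𝓝 (1 * ((1 + ε) * aF s))) :=
    hT2.mul (hD.const_mul _)
  rw [one_mul] at hg
  have hL : ∀ᶠ T : ℝ in atTop, lam / Real.log (T + 2) ≤ δ T := by
    filter_upwards [hδL.eventually_ge_atTop lam, hpos, eventually_gt_atTop 1] with T h1 h2 h3
    have h4 := Real.log_pos h3
    have h5 : Real.log T ≤ Real.log (T + 2) := Real.log_le_log (by linarith) (by linarith)
    rw [div_le_iff₀ (h4.trans_le h5)]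
    exact h1.trans (mul_le_mul_of_nonneg_left h5 h2.le)
  have hup' : ∀ᶠ T : ℝ in atTop, ∀ δ : ℝ, lam / Real.log (T + 2) ≤ δ → δ ≤ 1 / 16 →
      mom (2 * s) (1 / 2 + δ) (-1) (T + 2) ≤ (1 + ε) * DD s δ :=
    (tendsto_atTop_add_const_right atTop 2 tendsto_id).eventually (hup (-1))
  have haδ : ∀ᶠ T in atTop, |a * δ T| < 1 := by
    have h1 : Tendsto (fun T => |a * δ T|) atTop (𝓝 |a * 0|) := (hδ.const_mul a).abs
    rw [mul_zero, abs_zero] at h1
    exact h1.eventually (gt_mem_nhds one_pos)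
  filter_upwards [hup', hL, hpos, hδ.eventually (gt_mem_nhds (show (0:ℝ) < 1 / 16 by norm_num)), hg.eventually (gt_mem_nhds hεc),
    haδ, eventually_gt_atTop 1] with T h1 h2 h3 h4 h5 h6 h7
  have hT0 : 0 < T := by linarith
  have hcont : Continuous fun t => za (δ T) 0 t ^ (2 * s) :=
    (za_cont (by linarith) 0).rpow_const fun t => Or.inr (by positivity)
  have e1 : ∫ t in Set.Icc 0 T, za (δ T) a t ^ (2 * s) = ∫ t in (0 + a * δ T)..(T + a * δ T), za (δ T) 0 t ^ (2 * s) := by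
    rw [integral_Icc_eq_integral_Ioc, ← intervalIntegral.integral_of_le hT0.le]
    simp_rw [za_shift (δ T) a]
    rw [intervalIntegral.integral_comp_add_right (fun t => za (δ T) 0 t ^ (2 * s))]
  have h6' := abs_lt.mp h6
  have e2 : ∫ t in (0 + a * δ T)..(T + a * δ T), za (δ T) 0 t ^ (2 * s) ≤ ∫ t in (-1:ℝ)..(T + 1), za (δ T) 0 t ^ (2 * s) :=
    intervalIntegral.integral_mono_interval (by linarith) (by linarith) (by linarith)
      (Eventually.of_forall fun t => Real.rpow_nonneg (za_nonneg _ _ _) _) (hcont.intervalIntegrable _ _)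
  have e3 : ∫ t in (-1:ℝ)..(T + 1), za (δ T) 0 t ^ (2 * s) = (T + 2) * mom (2 * s) (1 / 2 + δ T) (-1) (T + 2) := by
    unfold mom
    have h8 := intervalIntegral.mul_integral_comp_mul_add (a := 0) (b := 1) (f := fun t => za (δ T) 0 t ^ (2 * s)) (c := T + 2) (-1)
    have e4 : (T + 2) * 0 + -1 = -1 := by ring
    have e5 : (T + 2) * 1 + -1 = T + 1 := by ring
    rw [e4, e5] at h8
    rw [← h8]
    congr 1
    refine intervalIntegral.integral_congr fun u _ => ?_
    unfold za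
    congr 3
    push_cast
    ring
  have h9 := h1 (δ T) h2 h4.le
  have h10 : ∫ t in Set.Icc 0 T, za (δ T) a t ^ (2 * s) ≤ (T + 2) * ((1 + ε) * DD s (δ T)) := by
    rw [e1]
    refine e2.trans ?_
    rw [e3]
    exact mul_le_mul_of_nonneg_left h9 (by linarith)
  refine le_trans ?_ h5.le
  refine (mul_le_mul_of_nonneg_left h10 (by positivity)).trans (le_of_eq ?_)
  ring

/-- full joint moments of total order at most four -/
theorem full_R (hDG : S_DIAGR) (hST : S_STARR) {δ : ℝ → ℝ} (hδ : Tendsto δ atTop (𝓝 0))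
    (hδL : Tendsto (fun T : ℝ => δ T * Real.log T) atTop atTop) {k : ℕ} (hk : 1 ≤ k) (κ a : Fin k → ℝ)
    (hκ : ∀ j, 0 < κ j) (h2 : ∑ j, κ j ≤ 2) :
    Tendsto (fun T : ℝ => (2 * δ T) ^ ((∑ j, κ j) ^ 2) / T * ∫ t in Set.Icc 0 T, ∏ j, za (δ T) (a j) t ^ (2 * κ j)) atTop
      (𝓝 (aF (∑ j, κ j) * ∏ j, ∏ i, (1 + ((a j - a i) / 2) ^ 2) ^ (-(κ j * κ i / 2)))) := by
  obtain ⟨s, hs⟩ : ∃ s, s = ∑ j, κ j := ⟨_, rfl⟩
  rw [← hs] at h2 ⊢
  have hs0 : 0 < s := by rw [hs]; exact sum_pos (fun j _ => hκ j) ⟨⟨0, by omega⟩, mem_univ _⟩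
  have hpos : ∀ᶠ T in atTop, 0 < δ T := by
    filter_upwards [hδL.eventually_gt_atTop 0, eventually_gt_atTop 1] with T hT hT1
    exact (pos_iff_pos_of_mul_pos hT).mpr (Real.log_pos hT1)
  obtain ⟨E, hE, hvol, hm⟩ := moments_R hDG hST hδ hδL (S := Set.range a) (R := insert s (Set.range κ)) (Set.countable_range a)
    ((Set.countable_range κ).insert s) (by
      intro r hr
      rcases Set.mem_insert_iff.mp hr with h | ⟨j, rfl⟩
      · rw [h]; exact hs0
      · exact hκ j)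
  have hmain := hm k κ a hk (fun j => Set.mem_insert_of_mem _ ⟨j, rfl⟩) (fun j => ⟨j, rfl⟩)
  rw [← hs] at hmain
  have hone : ∀ j, Tendsto (fun T : ℝ => (2 * δ T) ^ (s ^ 2) / T * ∫ t in Set.Icc 0 T \ E T, za (δ T) (a j) t ^ (2 * s)) atTop
      (𝓝 (aF s)) := by
    intro j
    have h1 := hm 1 (fun _ => s) (fun _ => a j) le_rfl (fun _ => Set.mem_insert _ _) (fun _ => ⟨j, rfl⟩)
    simp only [univ_unique, Fin.default_eq_zero, Fin.isValue, sum_const, card_singleton, one_smul, prod_singleton, sub_self,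
      zero_div] at h1
    have e1 : (1 + (0:ℝ) ^ 2) ^ (-(s * s / 2)) = 1 := by norm_num
    rw [e1, mul_one] at h1
    exact h1
  have hsmall : ∀ j, Tendsto (fun T : ℝ => (2 * δ T) ^ (s ^ 2) / T * ∫ t in E T, za (δ T) (a j) t ^ (2 * s)) atTop (𝓝 0) := by
    intro j
    rw [Metric.tendsto_nhds]
    intro ε hε
    filter_upwards [shift_up hs0 h2 hδ hδL (a j) (show aF s < aF s + ε / 2 by linarith),
      (hone j).eventually (lt_mem_nhds (show aF s - ε / 2 < aF s by linarith)), hpos, eventually_gt_atTop 0,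
      hδ.eventually (gt_mem_nhds (show (0:ℝ) < 1 / 2 by norm_num))] with T h1 h3 h4 h5 h6
    have hcont : Continuous fun t => za (δ T) (a j) t ^ (2 * s) :=
      (za_cont h6 (a j)).rpow_const fun t => Or.inr (by positivity)
    have hint : IntegrableOn (fun t => za (δ T) (a j) t ^ (2 * s)) (Set.Icc 0 T) :=
      hcont.continuousOn.integrableOn_compact isCompact_Icc
    have e1 := setIntegral_sdiff (μ := volume) (hE T).1 hint (hE T).2
    rw [e1, mul_sub] at h3
    have h7 : 0 ≤ (2 * δ T) ^ (s ^ 2) / T * ∫ t in E T, za (δ T) (a j) t ^ (2 * s) :=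
      mul_nonneg (by positivity) (setIntegral_nonneg (hE T).1 fun t _ => Real.rpow_nonneg (za_nonneg _ _ _) _)
    rw [Real.dist_eq, sub_zero, abs_of_nonneg h7]
    linarith
  have hsum : Tendsto (fun T : ℝ => ∑ j, κ j / s * ((2 * δ T) ^ (s ^ 2) / T * ∫ t in E T, za (δ T) (a j) t ^ (2 * s))) atTop (𝓝 0) := by
    have h1 := tendsto_finsetSum (univ : Finset (Fin k)) fun j _ => (hsmall j).const_mul (κ j / s)
    simpa using h1
  have hEj : Tendsto (fun T : ℝ => (2 * δ T) ^ (s ^ 2) / T * ∫ t in E T, ∏ j, za (δ T) (a j) t ^ (2 * κ j)) atTop (𝓝 0) := by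
    refine squeeze_zero' ?_ ?_ hsum
    · filter_upwards [hpos, eventually_gt_atTop 0] with T h1 h3
      refine mul_nonneg (by positivity) (setIntegral_nonneg (hE T).1 fun t _ => prod_nonneg fun j _ =>
        Real.rpow_nonneg (za_nonneg _ _ _) _)
    · filter_upwards [hpos, eventually_gt_atTop 0, hδ.eventually (gt_mem_nhds (show (0:ℝ) < 1 / 2 by norm_num))] with T h1 h3 h6
      have hcont : ∀ (j : Fin k) (r : ℝ), 0 < r → IntegrableOn (fun t => za (δ T) (a j) t ^ r) (E T) := fun j r hr =>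
        (((za_cont h6 (a j)).rpow_const fun t => Or.inr hr.le).continuousOn.integrableOn_compact isCompact_Icc).mono_set (hE T).2
      have hcontp : IntegrableOn (fun t => ∏ j, za (δ T) (a j) t ^ (2 * κ j)) (E T) :=
        ((continuous_finsetProd _ fun j _ => (za_cont h6 (a j)).rpow_const fun t => Or.inr (by have := hκ j; positivity)).continuousOn.integrableOn_compact
          isCompact_Icc).mono_set (hE T).2
      have h4 : ∫ t in E T, ∏ j, za (δ T) (a j) t ^ (2 * κ j) ≤ ∫ t in E T, ∑ j, κ j / s * za (δ T) (a j) t ^ (2 * s) := by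
        refine setIntegral_mono_on hcontp (integrable_finsetSum _ fun j _ => (hcont j _ (by positivity)).const_mul _) (hE T).1 fun t _ => ?_
        have h5 := Real.geom_mean_le_arith_mean_weighted (univ : Finset (Fin k)) (fun j => κ j / s) (fun j => za (δ T) (a j) t ^ (2 * s))
          (fun j _ => div_nonneg (hκ j).le hs0.le) (by rw [← sum_div, ← hs, div_self hs0.ne']) (fun j _ =>
            Real.rpow_nonneg (za_nonneg _ _ _) _)
        refine le_trans (le_of_eq (prod_congr rfl fun j _ => ?_)) h5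
        rw [← Real.rpow_mul (za_nonneg _ _ _)]
        congr 1
        field_simp
      rw [integral_finsetSum _ fun j _ => (hcont j _ (by positivity)).const_mul _] at h4
      refine (mul_le_mul_of_nonneg_left h4 (by positivity)).trans (le_of_eq ?_)
      rw [mul_sum]
      refine sum_congr rfl fun j _ => ?_
      rw [integral_const_mul]
      ring
  have h3 := hmain.add hEj
  rw [add_zero] at h3
  refine h3.congr' ?_
  filter_upwards [hpos, eventually_gt_atTop 0, hδ.eventually (gt_mem_nhds (show (0:ℝ) < 1 / 2 by norm_num))] with T h1 h3 h6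
  have hint : IntegrableOn (fun t => ∏ j, za (δ T) (a j) t ^ (2 * κ j)) (Set.Icc 0 T) :=
    (continuous_finsetProd _ fun j _ => (za_cont h6 (a j)).rpow_const fun t => Or.inr (by have := hκ j; positivity)).continuousOn.integrableOn_compact
      isCompact_Icc
  have e1 := setIntegral_sdiff (μ := volume) (hE T).1 hint (hE T).2
  rw [← mul_add]
  congr 1
  show (∫ t in Set.Icc 0 T \ E T, ∏ j, za (δ T) (a j) t ^ (2 * κ j)) + _ = _
  rw [e1]
  ring

/-- lower bounds of every order -/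
theorem lower_R (hDG : S_DIAGR) (hST : S_STARR) {δ : ℝ → ℝ} (hδ : Tendsto δ atTop (𝓝 0))
    (hδL : Tendsto (fun T : ℝ => δ T * Real.log T) atTop atTop) {k : ℕ} (hk : 1 ≤ k) (κ a : Fin k → ℝ)
    (hκ : ∀ j, 0 < κ j) {c : ℝ} (hc : c < aF (∑ j, κ j) * ∏ j, ∏ i, (1 + ((a j - a i) / 2) ^ 2) ^ (-(κ j * κ i / 2))) :
    ∀ᶠ T : ℝ in atTop, c < (2 * δ T) ^ ((∑ j, κ j) ^ 2) / T * ∫ t in Set.Icc 0 T, ∏ j, za (δ T) (a j) t ^ (2 * κ j) := by
  have hpos : ∀ᶠ T in atTop, 0 < δ T := by
    filter_upwards [hδL.eventually_gt_atTop 0, eventually_gt_atTop 1] with T hT hT1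
    exact (pos_iff_pos_of_mul_pos hT).mpr (Real.log_pos hT1)
  obtain ⟨E, hE, hvol, hm⟩ := moments_R hDG hST hδ hδL (S := Set.range a) (R := Set.range κ) (Set.countable_range a)
    (Set.countable_range κ) (by rintro r ⟨j, rfl⟩; exact hκ j)
  have hmain := hm k κ a hk (fun j => ⟨j, rfl⟩) (fun j => ⟨j, rfl⟩)
  filter_upwards [hmain.eventually (lt_mem_nhds hc), hpos, eventually_gt_atTop 0,
    hδ.eventually (gt_mem_nhds (show (0:ℝ) < 1 / 2 by norm_num))] with T h0 h1 h3 h6
  refine h0.trans_le (mul_le_mul_of_nonneg_left ?_ (by positivity))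
  have hint : IntegrableOn (fun t => ∏ j, za (δ T) (a j) t ^ (2 * κ j)) (Set.Icc 0 T) :=
    (continuous_finsetProd _ fun j _ => (za_cont h6 (a j)).rpow_const fun t => Or.inr (by have := hκ j; positivity)).continuousOn.integrableOn_compact
      isCompact_Icc
  exact setIntegral_mono_set hint (Eventually.of_forall fun t => prod_nonneg fun j _ => Real.rpow_nonneg (za_nonneg _ _ _) _)
    (Eventually.of_forall fun t ht => ht.1)

end Pool.Agent.Y753.SHR
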