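import Pool.Agent.Y753.SHR.Stm3

set_option autoImplicit false

/-! A limit theorem for weighted averages in `ℝ^n`. -/

namespace Pool.Agent.Y753.SHL

open MeasureTheory Filter Topology ProbabilityTheory

/-- the law of `Y` under the density `p` with respect to `m` -/
noncomputable def wn {n : ℕ} (p : ℝ → ℝ) (Y : ℝ → (Fin n → ℝ)) (m : Measure ℝ) : Measure (Fin n → ℝ) :=
  (m.withDensity fun t => ENNReal.ofReal (p t)).map Y

variable {n : ℕ}

lemma wn_integral {p : ℝ → ℝ} {Y : ℝ → (Fin n → ℝ)} {m : Measure ℝ} (hp : Measurable p) (h0 : ∀ t, 0 ≤ p t) (hY : Measurable Y)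
    {g : (Fin n → ℝ) → ℝ} (hg : Continuous g) : ∫ x, g x ∂(wn p Y m) = ∫ t, p t * g (Y t) ∂m := by
  have hz : Measurable fun t => ENNReal.ofReal (p t) := ENNReal.measurable_ofReal.comp hp
  unfold wn
  rw [integral_map hY.aemeasurable hg.aestronglyMeasurable,
    integral_withDensity_eq_integral_toReal_smul hz
      (Eventually.of_forall fun _ => ENNReal.ofReal_lt_top)]
  refine integral_congr_ae (Eventually.of_forall fun t => ?_)
  show (ENNReal.ofReal (p t)).toReal • g (Y t) = p t * g (Y t)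
  rw [ENNReal.toReal_ofReal (h0 t), smul_eq_mul]

lemma wn_integrable {p : ℝ → ℝ} {Y : ℝ → (Fin n → ℝ)} {m : Measure ℝ} (hp : Measurable p) (h0 : ∀ t, 0 ≤ p t) (hY : Measurable Y)
    {g : (Fin n → ℝ) → ℝ} (hg : Continuous g) (hi : Integrable (fun t => p t * g (Y t)) m) :
    Integrable g (wn p Y m) := by
  have hz : Measurable fun t => ENNReal.ofReal (p t) := ENNReal.measurable_ofReal.comp hp
  unfold wn
  rw [integrable_map_measure hg.aestronglyMeasurable hY.aemeasurable,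
    integrable_withDensity_iff_integrable_smul' hz
      (Eventually.of_forall fun _ => ENNReal.ofReal_lt_top)]
  refine hi.congr (Eventually.of_forall fun t => ?_)
  show p t * g (Y t) = (ENNReal.ofReal (p t)).toReal • (g ∘ Y) t
  rw [ENNReal.toReal_ofReal (h0 t), smul_eq_mul, Function.comp]

lemma wn_prob {p : ℝ → ℝ} {Y : ℝ → (Fin n → ℝ)} {m : Measure ℝ} (h0 : ∀ t, 0 ≤ p t) (hi : Integrable p m) (hY : Measurable Y)
    (h1 : ∫ t, p t ∂m = 1) : IsProbabilityMeasure (wn p Y m) := by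
  constructor
  unfold wn
  rw [Measure.map_apply hY MeasurableSet.univ, Set.preimage_univ, withDensity_apply _ MeasurableSet.univ,
    Measure.restrict_univ, ← ofReal_integral_eq_lintegral_ofReal hi (Eventually.of_forall h0), h1, ENNReal.ofReal_one]

lemma lf_cont (c : Fin n → ℝ) : Continuous fun y : Fin n → ℝ => lf c y := by
  unfold lf
  fun_prop

/-- the limit theorem -/
theorem cltn (hDE : S_DENSE) (hLA : S_LAND) {p : ℝ → ℝ → ℝ} {Y : ℝ → ℝ → (Fin n → ℝ)} {ms : ℝ → Measure ℝ}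
    (hp : ∀ᶠ T : ℝ in atTop, Measurable (p T) ∧ ∀ t, 0 ≤ p T t) (hY : ∀ᶠ T : ℝ in atTop, Measurable (Y T))
    {c b : ℝ} (hc : 0 < c) (hb : 0 < b) {m : Fin n → ℝ} {C : Fin n → Fin n → ℝ} (hC : ∀ i j, C i j = C j i)
    (hi : ∀ᶠ T : ℝ in atTop, Integrable (p T) (ms T)) (hm0 : Tendsto (fun T : ℝ => ∫ t, p T t ∂(ms T)) atTop (𝓝 c))
    (hq : ∀ q : Fin n → ℚ, (∀ j, 0 < q j) → ∑ j, (q j : ℝ) < 1 →
      (∀ᶠ T : ℝ in atTop, Integrable (fun t => p T t * Real.exp (lf (fun j => b * q j) (Y T t))) (ms T)) ∧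
      Tendsto (fun T : ℝ => ∫ t, p T t * Real.exp (lf (fun j => b * q j) (Y T t)) ∂(ms T)) atTop
        (𝓝 (c * Real.exp (lf (fun j => b * q j) m + qf C (fun j => b * q j) / 2)))) :
    ∃ ρ : ProbabilityMeasure (Fin n → ℝ), Nor m C ρ ∧ ∀ F : BoundedContinuousFunction (Fin n → ℝ) ℝ,
      Tendsto (fun T : ℝ => ∫ t, p T t * F (Y T t) ∂(ms T)) atTop (𝓝 (c * ∫ y, F y ∂(ρ : Measure (Fin n → ℝ)))) := by
  classical
  obtain ⟨M, hMd⟩ : ∃ M : ℝ → ℝ, ∀ T, M T = ∫ t, p T t ∂(ms T) := ⟨_, fun _ => rfl⟩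
  simp_rw [← hMd] at hm0
  have hmp : ∀ᶠ T in atTop, 0 < M T := hm0.eventually (lt_mem_nhds hc)
  obtain ⟨q, hqd⟩ : ∃ q : ℝ → ℝ → ℝ, ∀ T t, q T t = p T t / M T := ⟨_, fun _ _ => rfl⟩
  have hq1 : ∀ᶠ T : ℝ in atTop, Measurable (q T) ∧ (∀ t, 0 ≤ q T t) ∧ Integrable (q T) (ms T) ∧ ∫ t, q T t ∂(ms T) = 1 := by
    filter_upwards [hp, hmp, hi] with T h1 h2 h3
    have e : q T = fun t => p T t / M T := funext (hqd T)
    rw [e]
    refine ⟨h1.1.div_const _, fun t => div_nonneg (h1.2 t) h2.le, h3.div_const _, ?_⟩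
    rw [integral_div, ← hMd, div_self h2.ne']
  obtain ⟨μ, hμ⟩ : ∃ μ : ℝ → ProbabilityMeasure (Fin n → ℝ), ∀ᶠ T : ℝ in atTop, (μ T : Measure (Fin n → ℝ)) = wn (q T) (Y T) (ms T) := by
    have hex : ∀ T : ℝ, ∃ μT : ProbabilityMeasure (Fin n → ℝ), IsProbabilityMeasure (wn (q T) (Y T) (ms T)) →
        (μT : Measure (Fin n → ℝ)) = wn (q T) (Y T) (ms T) := by
      intro T
      by_cases h : IsProbabilityMeasure (wn (q T) (Y T) (ms T))
      · exact ⟨⟨wn (q T) (Y T) (ms T), h⟩, fun _ => rfl⟩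
      · exact ⟨⟨Measure.dirac 0, inferInstance⟩, fun h1 => absurd h1 h⟩
    choose μ hμ using hex
    refine ⟨μ, ?_⟩
    filter_upwards [hq1, hY] with T h1 h2
    exact hμ T (wn_prob h1.2.1 h1.2.2.1 h2 h1.2.2.2)
  have hcont : ∀ θ : Fin n → ℝ, Continuous fun y : Fin n → ℝ => Real.exp (lf θ y) := fun θ => Real.continuous_exp.comp (lf_cont θ)
  have hlap : ∀ r : Fin n → ℚ, (∀ j, 0 < r j) → ∑ j, (r j : ℝ) < 1 → Lap μ m C (fun j => b * r j) := by
    intro r h1 h2
    obtain ⟨h3, h4⟩ := hq r h1 h2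
    refine ⟨?_, ?_⟩
    · filter_upwards [h3, hq1, hY, hμ] with T g1 g2 g3 g4
      rw [g4]
      refine wn_integrable g2.1 g2.2.1 g3 (hcont _) ?_
      refine (g1.div_const (M T)).congr (Eventually.of_forall fun t => ?_)
      show p T t * Real.exp (lf (fun j => b * r j) (Y T t)) / M T = q T t * Real.exp (lf (fun j => b * r j) (Y T t))
      rw [hqd]; ring
    · have g5 := h4.div hm0 hc.ne'
      rw [mul_div_cancel_left₀ _ hc.ne'] at g5
      refine g5.congr' ?_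
      filter_upwards [hq1, hY, hμ] with T g2 g3 g4
      rw [g4, wn_integral g2.1 g2.2.1 g3 (hcont _)]
      show (∫ t, p T t * Real.exp (lf (fun j => b * r j) (Y T t)) ∂(ms T)) / M T = _
      rw [← integral_div]
      refine integral_congr_ae (Eventually.of_forall fun t => ?_)
      show p T t * Real.exp (lf (fun j => b * r j) (Y T t)) / M T = q T t * Real.exp (lf (fun j => b * r j) (Y T t))
      rw [hqd]; ring
  obtain ⟨ρ, hρ, hT⟩ := hLA n μ m C b hb hC (hDE n μ m C b hb hlap)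
  refine ⟨ρ, hρ, fun F => ?_⟩
  have h1 := ProbabilityMeasure.tendsto_iff_forall_integral_tendsto.mp hT F
  have h2 := h1.mul hm0
  rw [mul_comm] at h2
  refine h2.congr' ?_
  filter_upwards [hq1, hY, hμ, hmp] with T h3 h4 h5 h7
  rw [h5, wn_integral h3.1 h3.2.1 h4 F.continuous, ← integral_mul_const]
  refine integral_congr_ae (Eventually.of_forall fun t => ?_)
  show q T t * F (Y T t) * M T = p T t * F (Y T t)
  rw [hqd]
  field_simp

end Pool.Agent.Y753.SHL
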