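import Pool.Agent.Y753.SHR.R11
import Pool.Agent.Y753.SHR.R12

set_option autoImplicit false

/-! The landscape under the moment measures. -/

namespace Pool.Agent.Y753.SHL

open Finset Filter MeasureTheory Topology ProbabilityTheory
open Pool.Agent.Y755
open Pool.Agent.W184.NZ
open Pool.Agent.Y753.NL
open Pool.Agent.Y753.SH
open Pool.Agent.Y753.SHR
open Pool.Agent.H306R2 (aF aF_pos)

/-- the potential -/
noncomputable def Lg (x : ℝ) : ℝ := Real.log (1 + (x / 2) ^ 2)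

lemma Lg_zero : Lg 0 = 0 := by unfold Lg; simp

lemma Lg_neg (x : ℝ) : Lg (-x) = Lg x := by unfold Lg; congr 2; ring

/-- the mean -/
noncomputable def mL {n : ℕ} (β : ℝ) (a : Fin n → ℝ) (j : Fin n) : ℝ := -(β / 4) * Lg (a j)

/-- the covariance -/
noncomputable def CL {n : ℕ} (a : Fin n → ℝ) (i j : Fin n) : ℝ := (Lg (a i) + Lg (a j) - Lg (a i - a j)) / 4

lemma CL_symm {n : ℕ} (a : Fin n → ℝ) (i j : Fin n) : CL a i j = CL a j i := by
  unfold CL
  rw [show a j - a i = -(a i - a j) by ring, Lg_neg]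
  ring

/-- the exponents -/
noncomputable def ex {n : ℕ} (β : ℝ) (θ : Fin n → ℝ) : Fin (n + 1) → ℝ := Fin.cons (β / 2 - (∑ j, θ j) / 2) fun j => θ j / 2

lemma ex_zero {n : ℕ} (β : ℝ) (θ : Fin n → ℝ) : ex β θ 0 = β / 2 - (∑ j, θ j) / 2 := rfl

lemma ex_succ {n : ℕ} (β : ℝ) (θ : Fin n → ℝ) (j : Fin n) : ex β θ j.succ = θ j / 2 := rfl

lemma ex_sum {n : ℕ} (β : ℝ) (θ : Fin n → ℝ) : ∑ j, ex β θ j = β / 2 := by
  rw [Fin.sum_univ_succ, ex_zero]
  simp_rw [ex_succ]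
  rw [← sum_div]
  ring

lemma prod_exp {n : ℕ} (β : ℝ) (θ a : Fin n → ℝ) :
    ∏ j, ∏ i, (1 + (((Fin.cons 0 a : Fin (n + 1) → ℝ) j - (Fin.cons 0 a : Fin (n + 1) → ℝ) i) / 2) ^ 2) ^
      (-(ex β θ j * ex β θ i / 2)) = Real.exp (lf θ (mL β a) + qf (CL a) θ / 2) := by
  have h1 : ∀ x y : ℝ, (1 + (x / 2) ^ 2) ^ y = Real.exp (Lg x * y) := fun x y => by
    rw [Real.rpow_def_of_pos (by positivity)]; rfl
  simp_rw [h1]
  simp_rw [← Real.exp_sum]
  congr 1
  rw [Fin.sum_univ_succ]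
  simp_rw [Fin.sum_univ_succ]
  simp only [Fin.cons_zero, Fin.cons_succ, sub_self, Lg_zero, zero_mul, zero_add, zero_sub, Lg_neg, sub_zero, ex_zero, ex_succ]
  obtain ⟨S, hS⟩ : ∃ S, S = ∑ j, θ j := ⟨_, rfl⟩
  obtain ⟨P, hP⟩ : ∃ P, P = ∑ j, θ j * Lg (a j) := ⟨_, rfl⟩
  obtain ⟨Q, hQ⟩ : ∃ Q, Q = ∑ i, ∑ j, θ i * θ j * Lg (a i - a j) := ⟨_, rfl⟩
  rw [← hS, sum_add_distrib]
  have e1 : ∑ j, Lg (a j) * -((β / 2 - S / 2) * (θ j / 2) / 2) = -(β / 2 - S / 2) / 4 * P := by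
    rw [hP, mul_sum]; exact sum_congr rfl fun j _ => by ring
  have e2 : ∑ j, Lg (a j) * -(θ j / 2 * (β / 2 - S / 2) / 2) = -(β / 2 - S / 2) / 4 * P := by
    rw [hP, mul_sum]; exact sum_congr rfl fun j _ => by ring
  have e3 : ∑ i, ∑ j, Lg (a i - a j) * -(θ i / 2 * (θ j / 2) / 2) = -Q / 8 := by
    rw [hQ, neg_div, sum_div, ← sum_neg_distrib]
    refine sum_congr rfl fun i _ => ?_
    rw [sum_div, ← sum_neg_distrib]
    exact sum_congr rfl fun j _ => by ring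
  have e4 : lf θ (mL β a) = -(β / 4) * P := by
    unfold lf mL
    rw [hP, mul_sum]; exact sum_congr rfl fun j _ => by ring
  have e5 : qf (CL a) θ = S * P / 2 - Q / 4 := by
    have e6 : ∀ i j, θ i * θ j * CL a i j = (θ i * Lg (a i)) * θ j / 4 + θ i * (θ j * Lg (a j)) / 4 - θ i * θ j * Lg (a i - a j) / 4 := fun i j => by
      unfold CL; ring
    unfold qf
    simp_rw [e6, sum_sub_distrib, sum_add_distrib, ← sum_div]
    rw [← hQ]
    have e7 : ∑ i, ∑ j, θ i * Lg (a i) * θ j = P * S := by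
      rw [hP, hS, sum_mul_sum]
    have e8 : ∑ i, ∑ j, θ i * (θ j * Lg (a j)) = S * P := by
      rw [hP, hS, sum_mul_sum]
    rw [e7, e8]; ring
  rw [e1, e2, e3, e4, e5]
  ring

/-- almost every point is not a zero -/
lemma za_ae (δ x : ℝ) : ∀ᵐ t : ℝ, 0 < za δ x t := by
  have h1 : {t : ℝ | za δ x t = 0}.Countable := by
    have hz : riemannZetaZeros.Countable := by
      have h2 : riemannZetaZeros = ⋃ m : ℕ, (Metric.closedBall (0:ℂ) m ∩ riemannZetaZeros) := by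
        ext z
        simp only [Set.mem_iUnion, Set.mem_inter_iff, Metric.mem_closedBall, dist_zero_right]
        constructor
        · intro hz
          obtain ⟨m, hm⟩ := exists_nat_ge ‖z‖
          exact ⟨m, hm, hz⟩
        · rintro ⟨m, -, hz⟩
          exact hz
      rw [h2]
      exact Set.countable_iUnion fun m => ((isCompact_closedBall (0:ℂ) m).inter_riemannZetaZeros_finite).countable
    have h3 : {t : ℝ | za δ x t = 0} ⊆ (fun t : ℝ => (1 / 2 + δ + ((t + x * δ : ℝ) : ℂ) * Complex.I : ℂ)) ⁻¹' riemannZetaZeros := by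
      intro t ht
      exact norm_eq_zero.mp ht
    refine Set.Countable.mono h3 (hz.preimage_of_injOn fun t _ u _ htu => ?_)
    have h4 := congrArg Complex.im htu
    simp at h4
    linarith
  have h2 := h1.measure_zero volume
  filter_upwards [measure_eq_zero_iff_ae_notMem.mp h2] with t ht
  exact lt_of_le_of_ne (za_nonneg _ _ _) (Ne.symm ht)

/-- the landscape -/
noncomputable def Yl {n : ℕ} (δ : ℝ) (a : Fin n → ℝ) (t : ℝ) : Fin n → ℝ := fun j => Real.log (za δ (a j) t) - Real.log (za δ 0 t)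

lemma point_id {n : ℕ} {δ β : ℝ} {θ a : Fin n → ℝ} {t : ℝ} (h0 : 0 < za δ 0 t) (ha : ∀ j, 0 < za δ (a j) t) :
    za δ 0 t ^ β * Real.exp (lf θ (Yl δ a t)) = ∏ j, za δ ((Fin.cons 0 a : Fin (n + 1) → ℝ) j) t ^ (2 * ex β θ j) := by
  rw [Fin.prod_univ_succ]
  simp only [Fin.cons_zero, Fin.cons_succ, ex_zero, ex_succ]
  have e1 : ∀ j, za δ (a j) t ^ (2 * (θ j / 2)) = Real.exp (θ j * Real.log (za δ (a j) t)) := fun j => by
    rw [Real.rpow_def_of_pos (ha j)]; congr 1; ring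
  simp_rw [e1]
  rw [← Real.exp_sum, Real.rpow_def_of_pos h0, Real.rpow_def_of_pos h0, ← Real.exp_add, ← Real.exp_add]
  congr 1
  unfold lf Yl
  simp_rw [mul_sub, sum_sub_distrib, ← sum_mul]
  ring

/-- the limit law of the landscape -/
theorem land_core (hDE : S_DENSE) (hLA : S_LAND) {δ : ℝ → ℝ} (hδ : Tendsto δ atTop (𝓝 0))
    (hδL : Tendsto (fun T : ℝ => δ T * Real.log T) atTop atTop) {D : ℝ → Set ℝ} (hD : ∀ T, MeasurableSet (D T) ∧ D T ⊆ Set.Icc 0 T)
    {β : ℝ} (hβ : 0 < β) {n : ℕ} (a : Fin n → ℝ)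
    (Hm : ∀ κ : Fin (n + 1) → ℝ, (∀ j, ∃ r : ℚ, κ j = β / 2 * r) → (∀ j, 0 < κ j) → ∑ j, κ j = β / 2 →
      Tendsto (fun T : ℝ => (2 * δ T) ^ ((β / 2) ^ 2) / T *
          ∫ t in D T, ∏ j, za (δ T) ((Fin.cons 0 a : Fin (n + 1) → ℝ) j) t ^ (2 * κ j)) atTop
        (𝓝 (aF (β / 2) * ∏ j, ∏ i, (1 + (((Fin.cons 0 a : Fin (n + 1) → ℝ) j - (Fin.cons 0 a : Fin (n + 1) → ℝ) i) / 2) ^ 2) ^
          (-(κ j * κ i / 2)))))
    (H0 : Tendsto (fun T : ℝ => (2 * δ T) ^ ((β / 2) ^ 2) / T * ∫ t in D T, za (δ T) 0 t ^ β) atTop (𝓝 (aF (β / 2)))) :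
    ∃ ρ : ProbabilityMeasure (Fin n → ℝ), Nor (mL β a) (CL a) ρ ∧ ∀ F : BoundedContinuousFunction (Fin n → ℝ) ℝ,
      Tendsto (fun T : ℝ => (2 * δ T) ^ ((β / 2) ^ 2) / T * ∫ t in D T, za (δ T) 0 t ^ β * F (Yl (δ T) a t)) atTop
        (𝓝 (aF (β / 2) * ∫ y, F y ∂(ρ : Measure (Fin n → ℝ)))) := by
  have hpos : ∀ᶠ T in atTop, 0 < δ T := by
    filter_upwards [hδL.eventually_gt_atTop 0, eventually_gt_atTop 1] with T hT hT1
    exact (pos_iff_pos_of_mul_pos hT).mpr (Real.log_pos hT1)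
  have hlt : ∀ᶠ T in atTop, δ T < 1 / 2 := hδ.eventually (gt_mem_nhds (by norm_num))
  have hc : 0 < aF (β / 2) := aF_pos (by positivity)
  obtain ⟨w, hw⟩ : ∃ w : ℝ → ℝ, ∀ T, w T = (2 * δ T) ^ ((β / 2) ^ 2) / T := ⟨_, fun _ => rfl⟩
  simp_rw [← hw] at Hm H0 ⊢
  have hw0 : ∀ᶠ T in atTop, 0 ≤ w T := by
    filter_upwards [hpos, eventually_gt_atTop 0] with T h1 h2
    rw [hw]; positivity
  have hcont : ∀ {T : ℝ}, δ T < 1 / 2 → ∀ x r : ℝ, 0 ≤ r → Continuous fun t => za (δ T) x t ^ r := fun hT x r hr =>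
    (za_cont hT x).rpow_const fun _ => Or.inr hr
  have hY : ∀ᶠ T : ℝ in atTop, Measurable (Yl (δ T) a) := by
    filter_upwards [hlt] with T hT
    refine measurable_pi_lambda _ fun j => ?_
    exact (Real.measurable_log.comp (za_cont hT (a j)).measurable).sub (Real.measurable_log.comp (za_cont hT 0).measurable)
  obtain ⟨ρ, hρ, hF⟩ := cltn hDE hLA (p := fun T t => w T * za (δ T) 0 t ^ β) (Y := fun T t => Yl (δ T) a t)
    (ms := fun T => volume.restrict (D T)) (by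
      filter_upwards [hlt, hw0] with T hT h0
      exact ⟨(hcont hT 0 β hβ.le).measurable.const_mul _, fun t => mul_nonneg h0 (Real.rpow_nonneg (za_nonneg _ _ _) _)⟩) hY
    (c := aF (β / 2)) (b := β) (m := mL β a) (C := CL a) hc hβ (CL_symm a) (by
      filter_upwards [hlt] with T hT
      exact ((((hcont hT 0 β hβ.le).continuousOn.integrableOn_compact isCompact_Icc).mono_set (hD T).2).const_mul _)) (by
      refine H0.congr fun T => ?_
      rw [integral_const_mul]) (by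
      intro q hq1 hq2
      obtain ⟨θ, hθ⟩ : ∃ θ : Fin n → ℝ, θ = fun j => β * q j := ⟨_, rfl⟩
      rw [← hθ]
      have hθ0 : ∀ j, 0 < θ j := fun j => by
        rw [hθ]; have : (0:ℝ) < q j := by exact_mod_cast hq1 j
        positivity
      have hsum : ∑ j, θ j < β := by
        rw [hθ, ← mul_sum]
        calc β * ∑ j, (q j : ℝ) < β * 1 := mul_lt_mul_of_pos_left hq2 hβ
          _ = β := mul_one β
      have hex0 : ∀ j, 0 < ex β θ j := by
        intro j
        refine Fin.cases ?_ (fun i => ?_) j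
        · rw [ex_zero]; linarith
        · rw [ex_succ]; have := hθ0 i; positivity
      have hexr : ∀ j, ∃ r : ℚ, ex β θ j = β / 2 * r := by
        intro j
        refine Fin.cases ⟨1 - ∑ j, q j, ?_⟩ (fun i => ⟨q i, ?_⟩) j
        · rw [ex_zero, hθ, ← mul_sum]; push_cast; ring
        · rw [ex_succ, hθ]; ring
      have hid : ∀ T : ℝ, (fun t => w T * za (δ T) 0 t ^ β * Real.exp (lf θ (Yl (δ T) a t))) =ᵐ[volume.restrict (D T)]
          fun t => w T * ∏ j, za (δ T) ((Fin.cons 0 a : Fin (n + 1) → ℝ) j) t ^ (2 * ex β θ j) := by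
        intro T
        refine ae_restrict_of_ae ?_
        filter_upwards [za_ae (δ T) 0, ae_all_iff.mpr fun j => za_ae (δ T) (a j)] with t h1 h2
        rw [mul_assoc, point_id h1 h2]
      refine ⟨?_, ?_⟩
      · filter_upwards [hlt] with T hT
        have hc1 : Continuous fun t => ∏ j, za (δ T) ((Fin.cons 0 a : Fin (n + 1) → ℝ) j) t ^ (2 * ex β θ j) :=
          continuous_finsetProd _ fun j _ => hcont hT _ _ (by have := hex0 j; positivity)
        exact ((((hc1.continuousOn.integrableOn_compact isCompact_Icc).mono_set (hD T).2).const_mul (w T)).congr (hid T).symm)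
      · have h1 := Hm (ex β θ) hexr hex0 (ex_sum β θ)
        rw [prod_exp] at h1
        refine h1.congr fun T => ?_
        rw [integral_congr_ae (hid T), integral_const_mul])
  refine ⟨ρ, hρ, fun F => ?_⟩
  refine (hF F).congr fun T => ?_
  rw [← integral_const_mul]
  refine integral_congr_ae (Eventually.of_forall fun t => ?_)
  simp only
  ring

end Pool.Agent.Y753.SHL
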