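import Pool.Agent.Y753.SHR.R11

set_option autoImplicit false

/-! The two shifts, complete integrals for the orders at most two. -/

namespace Pool.Agent.Y753.SHR

open Finset Filter MeasureTheory MonoidAlgebra Topology
open Pool.Agent.Y755
open Pool.Agent.W184.NZ
open Pool.Agent.Y753.NL
open Pool.Agent.Y753.SH
open Pool.Agent.H306R2 (dv dv_nonneg dv_one aF aF_pos)

/-- the exceptional set carries little of the moment of order at most four -/
lemma small_E {s : ℝ} (hs0 : 0 < s) (h2 : s ≤ 2) {δ : ℝ → ℝ} (hδ : Tendsto δ atTop (𝓝 0))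
    (hδL : Tendsto (fun T : ℝ => δ T * Real.log T) atTop atTop) {E : ℝ → Set ℝ} (hE : ∀ T, MeasurableSet (E T) ∧ E T ⊆ Set.Icc 0 T)
    (a : ℝ) (hone : Tendsto (fun T : ℝ => (2 * δ T) ^ (s ^ 2) / T * ∫ t in Set.Icc 0 T \ E T, za (δ T) a t ^ (2 * s)) atTop
      (𝓝 (aF s))) :
    Tendsto (fun T : ℝ => (2 * δ T) ^ (s ^ 2) / T * ∫ t in E T, za (δ T) a t ^ (2 * s)) atTop (𝓝 0) := by
  have hpos : ∀ᶠ T in atTop, 0 < δ T := by
    filter_upwards [hδL.eventually_gt_atTop 0, eventually_gt_atTop 1] with T hT hT1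
    exact (pos_iff_pos_of_mul_pos hT).mpr (Real.log_pos hT1)
  rw [Metric.tendsto_nhds]
  intro ε hε
  filter_upwards [shift_up hs0 h2 hδ hδL a (show aF s < aF s + ε / 2 by linarith),
    hone.eventually (lt_mem_nhds (show aF s - ε / 2 < aF s by linarith)), hpos, eventually_gt_atTop 0,
    hδ.eventually (gt_mem_nhds (show (0:ℝ) < 1 / 2 by norm_num))] with T h1 h3 h4 h5 h6
  have hcont : Continuous fun t => za (δ T) a t ^ (2 * s) :=
    (za_cont h6 a).rpow_const fun t => Or.inr (by positivity)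
  have hint : IntegrableOn (fun t => za (δ T) a t ^ (2 * s)) (Set.Icc 0 T) :=
    hcont.continuousOn.integrableOn_compact isCompact_Icc
  have e1 := setIntegral_sdiff (μ := volume) (hE T).1 hint (hE T).2
  rw [e1, mul_sub] at h3
  have h7 : 0 ≤ (2 * δ T) ^ (s ^ 2) / T * ∫ t in E T, za (δ T) a t ^ (2 * s) :=
    mul_nonneg (by positivity) (setIntegral_nonneg (hE T).1 fun t _ => Real.rpow_nonneg (za_nonneg _ _ _) _)
  rw [Real.dist_eq, sub_zero, abs_of_nonneg h7]
  linarith

lemma za_zero_iff (δ a t : ℝ) : za δ a t = 0 ↔ riemannZeta (1 / 2 + δ + ((t + a * δ : ℝ) : ℂ) * Complex.I) = 0 := norm_eq_zero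

/-- the two shifts of the problem of Kösters, real exponents, complete integrals for the orders at most two -/
theorem two_full (hDG : S_DIAGR) (hST : S_STARR) {δ : ℝ → ℝ} (hδ : Tendsto δ atTop (𝓝 0))
    (hδL : Tendsto (fun T : ℝ => δ T * Real.log T) atTop atTop)
    {S R : Set ℝ} (hS : S.Countable) (hR : R.Countable) (hR0 : ∀ r ∈ R, 0 < r) :
    ∃ (E : ℝ → Set ℝ) (w : ℝ → ℝ → ℂ), (∀ T, MeasurableSet (E T) ∧ E T ⊆ Set.Icc 0 T ∧ Measurable (w T)) ∧
      Tendsto (fun T => (volume (E T)).toReal / T) atTop (𝓝 0) ∧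
      (∀ᶠ T in atTop, ∀ u : ℝ, riemannZeta (1 / 2 + δ T + (u : ℂ) * Complex.I) ≠ 0 →
        Complex.exp (w T u) = riemannZeta (1 / 2 + δ T + (u : ℂ) * Complex.I)) ∧
      (∀ α ∈ S, ∀ᶠ T in atTop, ∀ t ∈ Set.Icc 0 T \ E T,
        Complex.exp (w T (t + α * δ T)) = riemannZeta (1 / 2 + δ T + ((t + α * δ T : ℝ) : ℂ) * Complex.I) ∧
        Complex.exp (w T (t - α * δ T)) = riemannZeta (1 / 2 + δ T + ((t - α * δ T : ℝ) : ℂ) * Complex.I)) ∧
      ∀ κ ∈ R, ∀ α ∈ S,
        Tendsto (fun T : ℝ => (((2 * δ T) ^ (κ ^ 2) / T : ℝ) : ℂ) *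
          ∫ t in Set.Icc 0 T \ E T, Complex.exp (κ * (w T (t + α * δ T) + (starRingEnd ℂ) (w T (t - α * δ T))))) atTop
          (𝓝 ((aF κ : ℂ) * (1 + Complex.I * α) ^ (-((κ ^ 2 : ℝ) : ℂ)))) ∧
        (κ ≤ 2 → Tendsto (fun T : ℝ => (((2 * δ T) ^ (κ ^ 2) / T : ℝ) : ℂ) *
          ∫ t in Set.Icc 0 T, Complex.exp (κ * (w T (t + α * δ T) + (starRingEnd ℂ) (w T (t - α * δ T))))) atTop
          (𝓝 ((aF κ : ℂ) * (1 + Complex.I * α) ^ (-((κ ^ 2 : ℝ) : ℂ))))) := by
  classical
  obtain ⟨E, w, hE, hvol, hw, hm⟩ := main_R hDG hST hδ hδL (S := S ∪ (fun x => -x) '' S) (hS.union (hS.image _)) hR hR0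
  have hneg : ∀ α ∈ S, -α ∈ S ∪ (fun x => -x) '' S := fun α hα => Or.inr ⟨α, hα, rfl⟩
  have hpos : ∀ᶠ T in atTop, 0 < δ T := by
    filter_upwards [hδL.eventually_gt_atTop 0, eventually_gt_atTop 1] with T hT hT1
    exact (pos_iff_pos_of_mul_pos hT).mpr (Real.log_pos hT1)
  have hlt : ∀ᶠ T in atTop, δ T < 1 / 2 := hδ.eventually (gt_mem_nhds (by norm_num))
  -- the new determination
  obtain ⟨z, hz⟩ : ∃ z : ℝ → ℝ → ℂ, ∀ T u, z T u = riemannZeta (1 / 2 + δ T + (u : ℂ) * Complex.I) := ⟨_, fun _ _ => rfl⟩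
  have hzm : ∀ T, δ T < 1 / 2 → Measurable (z T) := by
    intro T hT
    have h1 : Continuous fun t : ℝ => riemannZeta (1 / 2 + δ T + t * Complex.I) := zl_cont hT
    have e : z T = fun t : ℝ => riemannZeta (1 / 2 + δ T + t * Complex.I) := funext (hz T)
    rw [e]; exact h1.measurable
  obtain ⟨w', hw'⟩ : ∃ w' : ℝ → ℝ → ℂ, ∀ T u, w' T u = if δ T < 1 / 2 ∧ Complex.exp (w T u) ≠ z T u then Complex.log (z T u) else w T u :=
    ⟨_, fun _ _ => rfl⟩
  have hwm : ∀ T, Measurable (w' T) := by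
    intro T
    by_cases hT : δ T < 1 / 2
    · have e : w' T = fun u => if Complex.exp (w T u) ≠ z T u then Complex.log (z T u) else w T u := by
        funext u
        rw [hw']
        by_cases h : Complex.exp (w T u) ≠ z T u
        · rw [if_pos ⟨hT, h⟩, if_pos h]
        · rw [if_neg (fun h1 => h h1.2), if_neg h]
      rw [e]
      refine Measurable.ite ?_ (Complex.measurable_log.comp (hzm T hT)) (hE T).2.2
      exact (measurableSet_eq_fun (Complex.measurable_exp.comp (hE T).2.2) (hzm T hT)).compl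
    · have e : w' T = w T := by
        funext u
        rw [hw', if_neg (fun h1 => hT h1.1)]
      rw [e]; exact (hE T).2.2
  have hexp : ∀ᶠ T in atTop, ∀ u : ℝ, z T u ≠ 0 → Complex.exp (w' T u) = z T u := by
    filter_upwards [hlt] with T hT u hu
    rw [hw']
    split_ifs with h
    · exact Complex.exp_log hu
    · rw [not_and_or, not_ne_iff] at h
      rcases h with h | h
      · exact absurd hT h
      · exact h
  have hsame : ∀ T u, Complex.exp (w T u) = z T u → w' T u = w T u := by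
    intro T u h
    rw [hw', if_neg]
    exact fun h1 => h1.2 h
  have hgood : ∀ α ∈ S, ∀ᶠ T in atTop, ∀ t ∈ Set.Icc 0 T \ E T,
      Complex.exp (w T (t + α * δ T)) = z T (t + α * δ T) ∧ Complex.exp (w T (t - α * δ T)) = z T (t - α * δ T) := by
    intro α hα
    filter_upwards [hw α (Or.inl hα), hw (-α) (hneg α hα)] with T h1 h2 t ht
    have h3 := h2 t ht
    have e1 : t + -α * δ T = t - α * δ T := by ring
    rw [e1] at h3
    rw [hz, hz]
    exact ⟨h1 t ht, h3⟩
  refine ⟨E, w', fun T => ⟨(hE T).1, (hE T).2.1, hwm T⟩, hvol, ?_, fun α hα => ?_, fun κ hκ α hα => ?_⟩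
  · filter_upwards [hexp] with T hT u hu
    rw [← hz] at hu ⊢
    exact hT u hu
  · filter_upwards [hgood α hα] with T hT t ht
    obtain ⟨h1, h2⟩ := hT t ht
    rw [hsame T _ h1, hsame T _ h2, ← hz, ← hz]
    exact ⟨h1, h2⟩
  have hκ0 := hR0 κ hκ
  have hoff : Tendsto (fun T : ℝ => (((2 * δ T) ^ (κ ^ 2) / T : ℝ) : ℂ) *
          ∫ t in Set.Icc 0 T \ E T, Complex.exp (κ * (w' T (t + α * δ T) + (starRingEnd ℂ) (w' T (t - α * δ T))))) atTop
          (𝓝 ((aF κ : ℂ) * (1 + Complex.I * α) ^ (-((κ ^ 2 : ℝ) : ℂ)))) ∧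
      ∀ᶠ T in atTop, IntegrableOn (fun t => Complex.exp (κ * (w' T (t + α * δ T) + (starRingEnd ℂ) (w' T (t - α * δ T)))))
        (Set.Icc 0 T \ E T) := by
    obtain ⟨h1, h2⟩ := hm 1 1 (fun _ => κ) (fun _ => α) (fun _ => κ) (fun _ => -α) κ le_rfl le_rfl (by simp) (by simp)
      (fun _ => hκ) (fun _ => Or.inl hα) (fun _ => hκ) (fun _ => hneg α hα)
    have e1 : ∀ (T t : ℝ), zr (w T) (δ T) (fun _ : Fin 1 => κ) (fun _ => α) t *
        (starRingEnd ℂ) (zr (w T) (δ T) (fun _ : Fin 1 => κ) (fun _ => -α) t) =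
        Complex.exp (κ * (w T (t + α * δ T) + (starRingEnd ℂ) (w T (t - α * δ T)))) := by
      intro T t
      unfold zr
      rw [Fin.prod_univ_one, Fin.prod_univ_one, ← Complex.exp_conj, ← Complex.exp_add]
      congr 1
      have e2 : t + -α * δ T = t - α * δ T := by ring
      rw [e2, map_mul, Complex.conj_ofReal]
      ring
    simp_rw [e1] at h1 h2
    rw [Fin.prod_univ_one, Fin.prod_univ_one] at h2
    have e3 : (1 + Complex.I * ((α - -α : ℝ) : ℂ) / 2) ^ (-((κ * κ : ℝ) : ℂ)) = (1 + Complex.I * α) ^ (-((κ ^ 2 : ℝ) : ℂ)) := by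
      have e4 : (1 + Complex.I * ((α - -α : ℝ) : ℂ) / 2) = 1 + Complex.I * α := by push_cast; ring
      rw [e4, sq]
    rw [e3] at h2
    refine ⟨h2.congr' ?_, ?_⟩
    · filter_upwards [hgood α hα] with T hT
      congr 1
      refine setIntegral_congr_fun (measurableSet_Icc.diff (hE T).1) fun t ht => ?_
      obtain ⟨h3, h4⟩ := hT t ht
      rw [hsame T _ h3, hsame T _ h4]
    · filter_upwards [h1, hgood α hα] with T h5 hT
      refine h5.congr_fun (fun t ht => ?_) (measurableSet_Icc.diff (hE T).1)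
      obtain ⟨h3, h4⟩ := hT t ht
      simp only
      rw [hsame T _ h3, hsame T _ h4]
  refine ⟨hoff.1, fun hκ2 => ?_⟩
  -- one point
  have hone : ∀ a ∈ S ∪ (fun x => -x) '' S, Tendsto (fun T : ℝ => (2 * δ T) ^ (κ ^ 2) / T *
      ∫ t in Set.Icc 0 T \ E T, za (δ T) a t ^ (2 * κ)) atTop (𝓝 (aF κ)) := by
    intro a ha
    obtain ⟨-, h2⟩ := hm 1 1 (fun _ => κ) (fun _ => a) (fun _ => κ) (fun _ => a) κ le_rfl le_rfl (by simp) (by simp)
      (fun _ => hκ) (fun _ => ha) (fun _ => hκ) (fun _ => ha)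
    have h3 := h2.norm
    rw [norm_mul, lim_norm, Complex.norm_real, Real.norm_of_nonneg (aF_pos hκ0).le] at h3
    simp only [univ_unique, Fin.default_eq_zero, Fin.isValue, prod_singleton, sub_self, zero_div] at h3
    have e1 : (1 + (0:ℝ) ^ 2) ^ (-(κ * κ / 2)) = 1 := by norm_num
    rw [e1, mul_one] at h3
    refine h3.congr' ?_
    filter_upwards [hw a ha, hpos, eventually_gt_atTop 0] with T h4 h5 hT0
    have hmeas : MeasurableSet (Set.Icc 0 T \ E T) := measurableSet_Icc.diff (hE T).1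
    have e2 : ∫ t in Set.Icc 0 T \ E T, zr (w T) (δ T) (fun _ : Fin 1 => κ) (fun _ => a) t *
        (starRingEnd ℂ) (zr (w T) (δ T) (fun _ : Fin 1 => κ) (fun _ => a) t) =
        ((∫ t in Set.Icc 0 T \ E T, za (δ T) a t ^ (2 * κ) : ℝ) : ℂ) := by
      rw [← integral_complex_ofReal]
      refine setIntegral_congr_fun hmeas fun t ht => ?_
      have h6 := zr_sq (k := 1) (w := w T) (δ := δ T) (κ := fun _ => κ) (a := fun _ => a) (t := t) fun _ => h4 t ht
      rw [Fin.prod_univ_one] at h6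
      exact h6
    rw [e2, norm_mul, Complex.norm_real, Complex.norm_real, Real.norm_of_nonneg (by positivity), Real.norm_of_nonneg]
    exact setIntegral_nonneg hmeas fun t _ => Real.rpow_nonneg (za_nonneg _ _ _) _
  have hs1 := small_E hκ0 hκ2 hδ hδL (fun T => ⟨(hE T).1, (hE T).2.1⟩) α (hone α (Or.inl hα))
  have hs2 := small_E hκ0 hκ2 hδ hδL (fun T => ⟨(hE T).1, (hE T).2.1⟩) (-α) (hone (-α) (hneg α hα))
  -- almost every point
  have hzc : riemannZetaZeros.Countable := by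
    have h2 : riemannZetaZeros = ⋃ m : ℕ, (Metric.closedBall (0:ℂ) m ∩ riemannZetaZeros) := by
      ext x
      simp only [Set.mem_iUnion, Set.mem_inter_iff, Metric.mem_closedBall, dist_zero_right]
      constructor
      · intro hx
        obtain ⟨m, hm⟩ := exists_nat_ge ‖x‖
        exact ⟨m, hm, hx⟩
      · rintro ⟨m, -, hx⟩
        exact hx
    rw [h2]
    exact Set.countable_iUnion fun m => ((isCompact_closedBall (0:ℂ) m).inter_riemannZetaZeros_finite).countable
  have hae : ∀ T c : ℝ, ∀ᵐ t : ℝ, z T (t + c) ≠ 0 := by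
    intro T c
    have h3 : {t : ℝ | z T (t + c) = 0} ⊆ (fun t : ℝ => (1 / 2 + δ T + ((t + c : ℝ) : ℂ) * Complex.I : ℂ)) ⁻¹' riemannZetaZeros := by
      intro t ht
      have h4 : z T (t + c) = 0 := ht
      rw [hz] at h4
      exact h4
    have h1 : {t : ℝ | z T (t + c) = 0}.Countable := by
      refine Set.Countable.mono h3 (hzc.preimage_of_injOn fun t _ u _ htu => ?_)
      have h4 := congrArg Complex.im htu
      simp at h4
      linarith
    filter_upwards [measure_eq_zero_iff_ae_notMem.mp (h1.measure_zero volume)] with t ht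
    exact ht
  have hnorm : ∀ᶠ T in atTop, ∀ᵐ t : ℝ, ‖Complex.exp (κ * (w' T (t + α * δ T) + (starRingEnd ℂ) (w' T (t - α * δ T))))‖ =
      za (δ T) α t ^ κ * za (δ T) (-α) t ^ κ := by
    filter_upwards [hexp] with T hT
    filter_upwards [hae T (α * δ T), hae T (-(α * δ T))] with t h1 h2
    have h3 := hT _ h1
    have e1 : t + -(α * δ T) = t - α * δ T := by ring
    rw [e1] at h2
    have h4 := hT _ h2
    have e2 : za (δ T) α t = ‖Complex.exp (w' T (t + α * δ T))‖ := by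
      rw [h3, hz]; rfl
    have e3 : za (δ T) (-α) t = ‖Complex.exp (w' T (t - α * δ T))‖ := by
      rw [h4, hz]
      unfold za
      congr 3
      push_cast
      ring
    rw [e2, e3, Complex.norm_exp, Complex.norm_exp, Complex.norm_exp, ← Real.exp_mul, ← Real.exp_mul, ← Real.exp_add]
    congr 1
    simp
    ring
  have hbd : Tendsto (fun T : ℝ => 1 / 2 * ((2 * δ T) ^ (κ ^ 2) / T * ∫ t in E T, za (δ T) α t ^ (2 * κ)) +
      1 / 2 * ((2 * δ T) ^ (κ ^ 2) / T * ∫ t in E T, za (δ T) (-α) t ^ (2 * κ))) atTop (𝓝 0) := by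
    have := (hs1.const_mul (1 / 2)).add (hs2.const_mul (1 / 2))
    simpa using this
  have hintE : ∀ᶠ T in atTop, IntegrableOn (fun t => Complex.exp (κ * (w' T (t + α * δ T) + (starRingEnd ℂ) (w' T (t - α * δ T))))) (E T) ∧
      ‖∫ t in E T, Complex.exp (κ * (w' T (t + α * δ T) + (starRingEnd ℂ) (w' T (t - α * δ T))))‖ ≤
        1 / 2 * (∫ t in E T, za (δ T) α t ^ (2 * κ)) + 1 / 2 * ∫ t in E T, za (δ T) (-α) t ^ (2 * κ) := by
    filter_upwards [hnorm, hlt] with T h1 hT
    have hc : ∀ x : ℝ, IntegrableOn (fun t => za (δ T) x t ^ (2 * κ)) (E T) := fun x =>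
      (((za_cont hT x).rpow_const fun t => Or.inr (by positivity : (0:ℝ) ≤ 2 * κ)).continuousOn.integrableOn_compact isCompact_Icc).mono_set (hE T).2.1
    have hb : IntegrableOn (fun t => 1 / 2 * za (δ T) α t ^ (2 * κ) + 1 / 2 * za (δ T) (-α) t ^ (2 * κ)) (E T) :=
      ((hc α).const_mul _).add ((hc (-α)).const_mul _)
    have hle : ∀ᵐ t ∂(volume.restrict (E T)), ‖Complex.exp (κ * (w' T (t + α * δ T) + (starRingEnd ℂ) (w' T (t - α * δ T))))‖ ≤
        1 / 2 * za (δ T) α t ^ (2 * κ) + 1 / 2 * za (δ T) (-α) t ^ (2 * κ) := by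
      filter_upwards [ae_restrict_of_ae h1] with t ht
      rw [ht]
      have e1 : ∀ x : ℝ, za (δ T) x t ^ (2 * κ) = (za (δ T) x t ^ κ) ^ 2 := fun x => by
        rw [← Real.rpow_natCast, ← Real.rpow_mul (za_nonneg _ _ _)]
        congr 1
        push_cast
        ring
      rw [e1, e1]
      nlinarith [sq_nonneg (za (δ T) α t ^ κ - za (δ T) (-α) t ^ κ)]
    have hmeas : AEStronglyMeasurable (fun t => Complex.exp (κ * (w' T (t + α * δ T) + (starRingEnd ℂ) (w' T (t - α * δ T)))))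
        (volume.restrict (E T)) := by
      refine Measurable.aestronglyMeasurable ?_
      refine Complex.measurable_exp.comp ((((hwm T).comp (measurable_id.add_const _)).add
        (Complex.continuous_conj.measurable.comp ((hwm T).comp (measurable_id.sub_const _)))).const_mul _)
    refine ⟨Integrable.mono' hb hmeas hle, ?_⟩
    refine (norm_integral_le_integral_norm _).trans ?_
    refine (integral_mono_ae (Integrable.mono' hb hmeas hle).norm hb hle).trans (le_of_eq ?_)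
    rw [integral_add ((hc α).const_mul _) ((hc (-α)).const_mul _), integral_const_mul, integral_const_mul]
  have hE0 : Tendsto (fun T : ℝ => (((2 * δ T) ^ (κ ^ 2) / T : ℝ) : ℂ) *
          ∫ t in E T, Complex.exp (κ * (w' T (t + α * δ T) + (starRingEnd ℂ) (w' T (t - α * δ T))))) atTop (𝓝 0) := by
    rw [tendsto_zero_iff_norm_tendsto_zero]
    refine squeeze_zero' (Eventually.of_forall fun T => norm_nonneg _) ?_ hbd
    filter_upwards [hintE, hpos, eventually_gt_atTop 0] with T h1 h2 h3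
    have hp : 0 ≤ (2 * δ T) ^ (κ ^ 2) / T := by positivity
    rw [norm_mul, Complex.norm_real, Real.norm_of_nonneg hp]
    refine (mul_le_mul_of_nonneg_left h1.2 hp).trans (le_of_eq ?_)
    ring
  have h3 := hoff.1.add hE0
  rw [add_zero] at h3
  refine h3.congr' ?_
  filter_upwards [hoff.2, hintE] with T h4 h5
  rw [← mul_add]
  congr 1
  have e1 : Set.Icc 0 T = (Set.Icc 0 T \ E T) ∪ E T := (Set.sdiff_union_of_subset (hE T).2.1).symm
  conv_rhs => rw [e1]
  rw [setIntegral_union Set.disjoint_sdiff_left (hE T).1 h4 h5.1]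

end Pool.Agent.Y753.SHR
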