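import Pool.Agent.Y753.SHR.R15
import Pool.Agent.Y755.Gn3

set_option autoImplicit false

/-! Shrinking the exceptional sets to sets of large values. -/

namespace Pool.Agent.Y753.SHR

open Finset Filter MeasureTheory MonoidAlgebra Topology
open Pool.Agent.Y755
open Pool.Agent.W184.NZ
open Pool.Agent.Y753.NL
open Pool.Agent.Y753.SH
open Pool.Agent.H306R2 (dv dv_nonneg dv_one aF aF_pos)

lemma pos_path {δ : ℝ → ℝ} (hδL : Tendsto (fun T : ℝ => δ T * Real.log T) atTop atTop) : ∀ᶠ T in atTop, 0 < δ T := by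
  filter_upwards [hδL.eventually_gt_atTop 0, eventually_gt_atTop 1] with T hT hT1
  exact (pos_iff_pos_of_mul_pos hT).mpr (Real.log_pos hT1)

/-- Markov's inequality for the fourth power -/
lemma big_set {δ T V : ℝ} (hV : 0 < V) (hδ : δ < 1 / 2) {E : Set ℝ} (hEm : MeasurableSet E) (hE : E ⊆ Set.Icc 0 T) (a : ℝ) :
    volume.real (E ∩ {t | V < za δ a t}) ≤ V ^ (-4:ℝ) * ∫ t in E, za δ a t ^ (2 * (2:ℝ)) := by
  have hc := za_cont hδ a
  have hm : MeasurableSet (E ∩ {t | V < za δ a t}) := hEm.inter (measurableSet_lt measurable_const hc.measurable)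
  have hsub : E ∩ {t | V < za δ a t} ⊆ E := Set.inter_subset_left
  have hint : IntegrableOn (fun t => za δ a t ^ (2 * (2:ℝ))) E :=
    ((hc.rpow_const fun t => Or.inr (by norm_num)).continuousOn.integrableOn_compact isCompact_Icc).mono_set hE
  have hfin : volume E ≠ ⊤ := ((measure_mono hE).trans_lt (by simp)).ne
  have hfin' : volume (E ∩ {t | V < za δ a t}) ≠ ⊤ := ((measure_mono hsub).trans_lt (lt_top_iff_ne_top.mpr hfin)).ne
  have h1 : ∫ t in E ∩ {t | V < za δ a t}, V ^ (4:ℝ) ≤ ∫ t in E ∩ {t | V < za δ a t}, za δ a t ^ (2 * (2:ℝ)) := by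
    refine setIntegral_mono_on (integrableOn_const hfin') (hint.mono_set hsub) hm fun t ht => ?_
    have e1 : (2 * (2:ℝ)) = 4 := by norm_num
    rw [e1]
    exact Real.rpow_le_rpow hV.le ht.2.le (by norm_num)
  have h2 : ∫ t in E ∩ {t | V < za δ a t}, za δ a t ^ (2 * (2:ℝ)) ≤ ∫ t in E, za δ a t ^ (2 * (2:ℝ)) :=
    setIntegral_mono_set hint (Eventually.of_forall fun t => Real.rpow_nonneg (za_nonneg _ _ _) _) hsub.eventuallyLE
  rw [setIntegral_const, smul_eq_mul] at h1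
  rw [Real.rpow_neg hV.le, inv_mul_eq_div, le_div_iff₀ (by positivity)]
  exact h1.trans h2

/-- moments of order at least four, where the values are not too large -/
lemma mid_E {κ s : ℝ} (hκ : 0 ≤ κ) (hs : 4 + 4 * κ ≤ 2 * s) {δ : ℝ → ℝ} (hδ : Tendsto δ atTop (𝓝 0))
    (hδL : Tendsto (fun T : ℝ => δ T * Real.log T) atTop atTop) {G : ℝ → Set ℝ} (hG : ∀ T, MeasurableSet (G T) ∧ G T ⊆ Set.Icc 0 T)
    (a : ℝ) (hV : ∀ᶠ T in atTop, ∀ t ∈ G T, za (δ T) a t ≤ (δ T) ^ (-(2 + κ)))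
    (h4 : Tendsto (fun T : ℝ => (2 * δ T) ^ ((2:ℝ) ^ 2) / T * ∫ t in G T, za (δ T) a t ^ (2 * (2:ℝ))) atTop (𝓝 0)) :
    Tendsto (fun T : ℝ => (2 * δ T) ^ (s ^ 2) / T * ∫ t in G T, za (δ T) a t ^ (2 * s)) atTop (𝓝 0) := by
  have hpos := pos_path hδL
  have he : 0 ≤ (s - 2) * (s - 2 - 2 * κ) := mul_nonneg (by linarith) (by linarith)
  have hub := h4.const_mul ((2:ℝ) ^ (s ^ 2 - 4))
  rw [mul_zero] at hub
  refine squeeze_zero' ?_ ?_ hub
  · filter_upwards [hpos, eventually_gt_atTop 0] with T h1 h3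
    exact mul_nonneg (by positivity) (setIntegral_nonneg (hG T).1 fun t _ => Real.rpow_nonneg (za_nonneg _ _ _) _)
  · filter_upwards [hV, hpos, eventually_gt_atTop 0, hδ.eventually (gt_mem_nhds (show (0:ℝ) < 1 / 2 by norm_num))]
      with T h2 h3 h4 h5
    have hc := za_cont h5 a
    have hi : ∀ r : ℝ, 0 ≤ r → IntegrableOn (fun t => za (δ T) a t ^ r) (Set.Icc 0 T) := fun r hr =>
      (hc.rpow_const fun t => Or.inr hr).continuousOn.integrableOn_compact isCompact_Icc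
    have i1 : ∫ t in G T, za (δ T) a t ^ (2 * s) ≤ ∫ t in G T, (δ T) ^ (-(2 + κ) * (2 * s - 4)) * za (δ T) a t ^ (2 * (2:ℝ)) := by
      refine setIntegral_mono_on ((hi _ (by linarith)).mono_set (hG T).2) (((hi _ (by norm_num)).mono_set (hG T).2).const_mul _)
        (hG T).1 fun t ht => ?_
      have e1 : 2 * s = (2 * s - 4) + 2 * (2:ℝ) := by ring
      have hz := za_nonneg (δ T) a t
      have e2 : za (δ T) a t ^ (2 * s) = za (δ T) a t ^ (2 * s - 4) * za (δ T) a t ^ (2 * (2:ℝ)) := by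
        rw [← Real.rpow_add_of_nonneg hz (by linarith) (by norm_num), ← e1]
      rw [e2, Real.rpow_mul h3.le]
      exact mul_le_mul_of_nonneg_right (Real.rpow_le_rpow hz (h2 t ht) (by linarith)) (Real.rpow_nonneg hz _)
    rw [integral_const_mul] at i1
    refine (mul_le_mul_of_nonneg_left i1 (by positivity)).trans ?_
    have hI : 0 ≤ ∫ t in G T, za (δ T) a t ^ (2 * (2:ℝ)) :=
      setIntegral_nonneg (hG T).1 fun t _ => Real.rpow_nonneg (za_nonneg _ _ _) _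
    have e3 : (2 * δ T) ^ (s ^ 2) / T * ((δ T) ^ (-(2 + κ) * (2 * s - 4)) * ∫ t in G T, za (δ T) a t ^ (2 * (2:ℝ))) =
        δ T ^ ((s - 2) * (s - 2 - 2 * κ)) *
          ((2:ℝ) ^ (s ^ 2 - 4) * ((2 * δ T) ^ ((2:ℝ) ^ 2) / T * ∫ t in G T, za (δ T) a t ^ (2 * (2:ℝ)))) := by
      have e4 : (2 * δ T) ^ (s ^ 2) = (2:ℝ) ^ (s ^ 2 - 4) * (δ T) ^ (s ^ 2 - 4) * (2 * δ T) ^ ((2:ℝ) ^ 2) := by
        rw [← Real.mul_rpow (by norm_num) h3.le, ← Real.rpow_add (by positivity)]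
        congr 1
        norm_num
      have e5 : δ T ^ ((s - 2) * (s - 2 - 2 * κ)) = (δ T) ^ (s ^ 2 - 4) * (δ T) ^ (-(2 + κ) * (2 * s - 4)) := by
        rw [← Real.rpow_add h3]
        congr 1
        ring
      rw [e4, e5]
      ring
    rw [e3]
    have h6 : δ T ^ ((s - 2) * (s - 2 - 2 * κ)) ≤ 1 := Real.rpow_le_one h3.le (by linarith) he
    exact mul_le_of_le_one_left (by positivity) h6

/-- shrinking the exceptional set -/
theorem shrink {κ : ℝ} {δ : ℝ → ℝ} (hδ : Tendsto δ atTop (𝓝 0))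
    (hδL : Tendsto (fun T : ℝ => δ T * Real.log T) atTop atTop) {E : ℝ → Set ℝ} (hE : ∀ T, MeasurableSet (E T) ∧ E T ⊆ Set.Icc 0 T)
    {a : ℕ → ℝ} (h4 : ∀ j, Tendsto (fun T : ℝ => (2 * δ T) ^ ((2:ℝ) ^ 2) / T * ∫ t in E T, za (δ T) (a j) t ^ (2 * (2:ℝ)))
      atTop (𝓝 0)) :
    ∃ E' : ℝ → Set ℝ, (∀ T, MeasurableSet (E' T) ∧ E' T ⊆ E T ∧ ∀ t ∈ E' T, ∃ j, (δ T) ^ (-(2 + κ)) < za (δ T) (a j) t) ∧
      Tendsto (fun T => (volume (E' T)).toReal / (T * (δ T) ^ (4 + 4 * κ))) atTop (𝓝 0) ∧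
      ∀ j, ∀ᶠ T in atTop, ∀ t ∈ E T \ E' T, za (δ T) (a j) t ≤ (δ T) ^ (-(2 + κ)) := by
  classical
  have hpos := pos_path hδL
  obtain ⟨Es, hEs⟩ : ∃ Es : ℕ → ℝ → Set ℝ, ∀ n T, Es n T = if δ T < 1 / 2 then
    ⋃ j ∈ range n, (E T ∩ {t | (δ T) ^ (-(2 + κ)) < za (δ T) (a j) t}) else ∅ := ⟨_, fun _ _ => rfl⟩
  have hd : ∀ n : ℕ, ∀ᶠ T in atTop, ∃ _ : Unit, volume.real (Es n T) ≤ 1 / ((n:ℝ) + 1) * (T * (δ T) ^ (4 + 4 * κ)) := by
    intro n
    have hsum : Tendsto (fun T : ℝ => ∑ j ∈ range n, (2 * δ T) ^ ((2:ℝ) ^ 2) / T * ∫ t in E T, za (δ T) (a j) t ^ (2 * (2:ℝ)))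
        atTop (𝓝 0) := by
      simpa using tendsto_finsetSum (range n) fun j _ => h4 j
    filter_upwards [hsum.eventually (gt_mem_nhds (show (0:ℝ) < 1 / ((n:ℝ) + 1) by positivity)), hpos, eventually_gt_atTop 0,
      hδ.eventually (gt_mem_nhds (show (0:ℝ) < 1 / 2 by norm_num))] with T h1 h2 h3 h5
    refine ⟨(), ?_⟩
    rw [hEs, if_pos h5]
    have hV : 0 < (δ T) ^ (-(2 + κ)) := by positivity
    have h6 : volume.real (⋃ j ∈ range n, (E T ∩ {t | (δ T) ^ (-(2 + κ)) < za (δ T) (a j) t})) ≤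
        ∑ j ∈ range n, ((δ T) ^ (-(2 + κ))) ^ (-4:ℝ) * ∫ t in E T, za (δ T) (a j) t ^ (2 * (2:ℝ)) :=
      (measureReal_biUnion_finset_le _ _).trans (sum_le_sum fun j _ => big_set hV h5 (hE T).1 (hE T).2 (a j))
    refine h6.trans ?_
    have e1 : ((δ T) ^ (-(2 + κ))) ^ (-4:ℝ) = 1 / 16 * (T * (δ T) ^ (4 + 4 * κ)) * ((2 * δ T) ^ ((2:ℝ) ^ 2) / T) := by
      rw [← Real.rpow_mul h2.le, Real.mul_rpow (by norm_num) h2.le]
      have e2 : (-(2 + κ) * (-4:ℝ)) = (4 + 4 * κ) + (2:ℝ) ^ 2 := by ring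
      have e3 : (2:ℝ) ^ ((2:ℝ) ^ 2) = 16 := by
        have : ((2:ℝ) ^ 2) = ((4:ℕ) : ℝ) := by norm_num
        rw [this, Real.rpow_natCast]; norm_num
      rw [e2, Real.rpow_add h2, e3]
      field_simp
    have e4 : ∑ j ∈ range n, ((δ T) ^ (-(2 + κ))) ^ (-4:ℝ) * ∫ t in E T, za (δ T) (a j) t ^ (2 * (2:ℝ)) =
        1 / 16 * (T * (δ T) ^ (4 + 4 * κ)) * ∑ j ∈ range n, (2 * δ T) ^ ((2:ℝ) ^ 2) / T * ∫ t in E T, za (δ T) (a j) t ^ (2 * (2:ℝ)) := by
      rw [mul_sum]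
      refine sum_congr rfl fun j _ => ?_
      rw [e1]; ring
    rw [e4]
    have hp : 0 < T * (δ T) ^ (4 + 4 * κ) := by positivity
    have h7 : 0 ≤ ∑ j ∈ range n, (2 * δ T) ^ ((2:ℝ) ^ 2) / T * ∫ t in E T, za (δ T) (a j) t ^ (2 * (2:ℝ)) :=
      sum_nonneg fun j _ => mul_nonneg (by positivity) (setIntegral_nonneg (hE T).1 fun t _ => Real.rpow_nonneg (za_nonneg _ _ _) _)
    nlinarith [mul_le_mul_of_nonneg_left h1.le hp.le, mul_nonneg hp.le h7]
  obtain ⟨_, N, hN, hP⟩ := diag (A := Unit) (P := fun n T _ => volume.real (Es n T) ≤ 1 / ((n:ℝ) + 1) * (T * (δ T) ^ (4 + 4 * κ))) hd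
  refine ⟨fun T => Es (N T) T, fun T => ?_, ?_, fun j => ?_⟩
  · simp only [hEs]
    split_ifs with h
    · refine ⟨?_, ?_, ?_⟩
      · exact Finset.measurableSet_biUnion _ fun j _ => (hE T).1.inter (measurableSet_lt measurable_const (za_cont h (a j)).measurable)
      · exact Set.iUnion₂_subset fun j _ => Set.inter_subset_left
      · intro t ht
        obtain ⟨j, _, hj⟩ := Set.mem_iUnion₂.mp ht
        exact ⟨j, hj.2⟩
    · exact ⟨MeasurableSet.empty, Set.empty_subset _, fun t ht => ht.elim⟩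
  · refine squeeze_zero' ?_ ?_ (inv_N hN)
    · filter_upwards [hpos, eventually_gt_atTop 0] with T h1 h2
      positivity
    · filter_upwards [hP, hpos, eventually_gt_atTop 0] with T h1 h2 h3
      rw [div_le_iff₀ (by positivity)]
      exact h1
  · filter_upwards [hN.eventually_gt_atTop j, hδ.eventually (gt_mem_nhds (show (0:ℝ) < 1 / 2 by norm_num))] with T h1 h2 t ht
    by_contra hlt
    refine ht.2 ?_
    rw [hEs, if_pos h2]
    exact Set.mem_iUnion₂.mpr ⟨j, mem_range.mpr h1, ht.1, not_le.mp hlt⟩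

end Pool.Agent.Y753.SHR
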