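import Pool.Agent.Y753.SHR.R17
import Pool.Agent.Y753.NL.All6

set_option autoImplicit false

/-! Transfer of limits to the shrunk exceptional sets. -/

namespace Pool.Agent.Y753.SHR

open Finset Filter MeasureTheory MonoidAlgebra Topology
open Pool.Agent.Y755
open Pool.Agent.W184.NZ
open Pool.Agent.W184 (zn zn_nonneg zn_cont zn_le')
open Pool.Agent.Y753.NL
open Pool.Agent.Y753.SH
open Pool.Agent.H306R2 (dv dv_nonneg dv_one aF aF_pos)

/-- transfer of a limit -/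
lemma transfer {V : Type*} [NormedAddCommGroup V] [NormedSpace ℝ V] {c : ℝ → ℝ} {f : ℝ → ℝ → V} {g : ℝ → ℝ → ℝ}
    {E E' : ℝ → Set ℝ} {L : V} (hc : ∀ᶠ T in atTop, 0 ≤ c T)
    (hE : ∀ T, MeasurableSet (E T) ∧ E T ⊆ Set.Icc 0 T) (hE' : ∀ T, MeasurableSet (E' T) ∧ E' T ⊆ E T)
    (hf : ∀ᶠ T in atTop, IntegrableOn (f T) (Set.Icc 0 T)) (hg : ∀ᶠ T in atTop, IntegrableOn (g T) (Set.Icc 0 T))
    (hfg : ∀ᶠ T in atTop, ∀ t, ‖f T t‖ ≤ g T t)
    (h1 : Tendsto (fun T => c T • ∫ t in Set.Icc 0 T \ E T, f T t) atTop (𝓝 L))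
    (h2 : Tendsto (fun T => c T * ∫ t in E T \ E' T, g T t) atTop (𝓝 0)) :
    Tendsto (fun T => c T • ∫ t in Set.Icc 0 T \ E' T, f T t) atTop (𝓝 L) := by
  have h3 : Tendsto (fun T => c T • ∫ t in E T \ E' T, f T t) atTop (𝓝 0) := by
    rw [tendsto_zero_iff_norm_tendsto_zero]
    refine squeeze_zero' (Eventually.of_forall fun T => norm_nonneg _) ?_ h2
    filter_upwards [hc, hf, hg, hfg] with T t1 t2 t3 t4
    rw [norm_smul, Real.norm_of_nonneg t1]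
    refine mul_le_mul_of_nonneg_left ?_ t1
    exact norm_integral_le_of_norm_le (t3.mono_set (Set.sdiff_subset.trans (hE T).2)) (Eventually.of_forall t4)
  have h4 := h1.add h3
  rw [add_zero] at h4
  refine h4.congr' ?_
  filter_upwards [hf] with T t2
  rw [← smul_add]
  congr 1
  have hu : Set.Icc 0 T \ E' T = (Set.Icc 0 T \ E T) ∪ (E T \ E' T) := by
    ext t
    have ha : t ∈ E T → t ∈ Set.Icc 0 T := fun h => (hE T).2 h
    have hb : t ∈ E' T → t ∈ E T := fun h => (hE' T).2 h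
    simp only [Set.mem_sdiff, Set.mem_union]
    tauto
  rw [hu, setIntegral_union ?_ ((hE T).1.diff (hE' T).1) (t2.mono_set Set.sdiff_subset) (t2.mono_set (Set.sdiff_subset.trans (hE T).2))]
  refine Set.disjoint_left.mpr fun t h h' => h.2 h'.1

lemma zn_za (δ t : ℝ) : zn (1 / 2 + δ) t = za δ 0 t := by
  unfold zn za
  congr 2
  push_cast
  ring

/-- the difference of the two exceptional sets carries little -/
lemma diff_E {κ s : ℝ} (hκ : 0 ≤ κ) (hs0 : 0 < s) (hs : s ≤ 2 ∨ 4 + 4 * κ ≤ 2 * s) {δ : ℝ → ℝ} (hδ : Tendsto δ atTop (𝓝 0))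
    (hδL : Tendsto (fun T : ℝ => δ T * Real.log T) atTop atTop) {E E' : ℝ → Set ℝ} (hE : ∀ T, MeasurableSet (E T) ∧ E T ⊆ Set.Icc 0 T)
    (hE' : ∀ T, MeasurableSet (E' T) ∧ E' T ⊆ E T)
    (a : ℝ) (hV : ∀ᶠ T in atTop, ∀ t ∈ E T \ E' T, za (δ T) a t ≤ (δ T) ^ (-(2 + κ)))
    (h4 : Tendsto (fun T : ℝ => (2 * δ T) ^ ((2:ℝ) ^ 2) / T * ∫ t in E T, za (δ T) a t ^ (2 * (2:ℝ))) atTop (𝓝 0))
    (hone : Tendsto (fun T : ℝ => (2 * δ T) ^ (s ^ 2) / T * ∫ t in Set.Icc 0 T \ E T, za (δ T) a t ^ (2 * s)) atTop (𝓝 (aF s))) :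
    Tendsto (fun T : ℝ => (2 * δ T) ^ (s ^ 2) / T * ∫ t in E T \ E' T, za (δ T) a t ^ (2 * s)) atTop (𝓝 0) := by
  have hsq : ∀ r : ℝ, 0 < r → Tendsto (fun T : ℝ => (2 * δ T) ^ (r ^ 2) / T * ∫ t in E T, za (δ T) a t ^ (2 * r)) atTop (𝓝 0) →
      Tendsto (fun T : ℝ => (2 * δ T) ^ (r ^ 2) / T * ∫ t in E T \ E' T, za (δ T) a t ^ (2 * r)) atTop (𝓝 0) := by
    intro r hr hlim
    refine squeeze_zero' ?_ ?_ hlim
    · filter_upwards [pos_path hδL, eventually_gt_atTop 0] with T h1 h3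
      exact mul_nonneg (by positivity) (setIntegral_nonneg ((hE T).1.diff (hE' T).1) fun t _ => Real.rpow_nonneg (za_nonneg _ _ _) _)
    · filter_upwards [pos_path hδL, eventually_gt_atTop 0, hδ.eventually (gt_mem_nhds (show (0:ℝ) < 1 / 2 by norm_num))]
        with T h1 h3 h5
      refine mul_le_mul_of_nonneg_left ?_ (by positivity)
      refine setIntegral_mono_set ?_ (Eventually.of_forall fun t => Real.rpow_nonneg (za_nonneg _ _ _) _)
        (Set.sdiff_subset).eventuallyLE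
      exact (((za_cont h5 a).rpow_const fun t => Or.inr (by positivity)).continuousOn.integrableOn_compact isCompact_Icc).mono_set (hE T).2
  rcases hs with h | h
  · exact hsq s hs0 (small_E hs0 h hδ hδL hE a hone)
  · exact mid_E hκ h hδ hδL (fun T => ⟨(hE T).1.diff (hE' T).1, Set.sdiff_subset.trans (hE T).2⟩) a hV (hsq 2 (by norm_num) h4)

/-- one point, every order: the law off a small set of large values -/
theorem tilt_small {δ : ℝ → ℝ} (hδ : Tendsto δ atTop (𝓝 0)) (hδL : Tendsto (fun T => δ T * Real.log T) atTop atTop)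
    {κ : ℝ} (hκ : 0 ≤ κ) :
    ∃ E : ℝ → Set ℝ, (∀ T, MeasurableSet (E T) ∧ E T ⊆ Set.Icc 0 T ∧ ∀ t ∈ E T, (δ T) ^ (-(2 + κ)) < za (δ T) 0 t) ∧
      Tendsto (fun T => (volume (E T)).toReal / (T * (δ T) ^ (4 + 4 * κ))) atTop (𝓝 0) ∧
      ∀ α0 : ℝ, 0 < α0 → (α0 ≤ 2 ∨ 4 + 4 * κ ≤ 2 * α0) → ∀ h k : ℕ, h ≠ 0 → k ≠ 0 → h.Coprime k →
        ∀ F : BoundedContinuousFunction ℝ ℝ,
        Tendsto (fun T => (((2 * δ T) ^ (α0 ^ 2) / T : ℝ) : ℂ) * ∫ t in Set.Icc 0 T \ E T, ((zn (1 / 2 + δ T) t ^ (2 * α0) *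
          F ((Real.log (zn (1 / 2 + δ T) t) - α0 * ell (δ T)) / sg (δ T)) : ℝ) : ℂ) * tw h k t) atTop
          (𝓝 ((aF α0 * (Nu α0 h k * ∫ x, F x ∂(ProbabilityTheory.gaussianReal 0 1)) : ℝ) : ℂ)) := by
  obtain ⟨U, N, hN, hUm, hU⟩ := path_U hδ hδL
  obtain ⟨E, hEd⟩ : ∃ E : ℝ → Set ℝ, ∀ T, E T = Set.Icc 0 T \ U T := ⟨_, fun _ => rfl⟩
  have hE : ∀ T, MeasurableSet (E T) ∧ E T ⊆ Set.Icc 0 T := fun T => by
    rw [hEd]; exact ⟨measurableSet_Icc.diff (hUm T), Set.sdiff_subset⟩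
  have hEU : ∀ᶠ T in atTop, Set.Icc 0 T \ E T = U T := by
    filter_upwards [hU] with T hT
    rw [hEd, Set.sdiff_sdiff_cancel_left hT.1.2.1]
  have hone : ∀ s : ℝ, 0 < s → Tendsto (fun T : ℝ => (2 * δ T) ^ (s ^ 2) / T * ∫ t in Set.Icc 0 T \ E T, za (δ T) 0 t ^ (2 * s))
      atTop (𝓝 (aF s)) := by
    intro s hs
    refine (mass_U hδ hδL hN hU hs).congr' ?_
    filter_upwards [hEU] with T hT
    rw [hT]
    simp_rw [zn_za]
    ring
  have h4 := small_E (by norm_num) le_rfl hδ hδL hE 0 (hone 2 (by norm_num))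
  obtain ⟨E', hE', hvol, hV⟩ := shrink (κ := κ) hδ hδL hE (a := fun _ => 0) fun _ => h4
  refine ⟨E', fun T => ⟨(hE' T).1, (hE' T).2.1.trans (hE T).2, fun t ht => ((hE' T).2.2 t ht).choose_spec⟩, hvol, ?_⟩
  intro α0 h0 hα h k hh hk hc F
  have main := tilt_mass hδ hδL hN hU h0 hh hk hc F
  have hd := diff_E hκ h0 hα hδ hδL hE (fun T => ⟨(hE' T).1, (hE' T).2.1⟩) 0 (hV 0) h4 (hone _ h0)
  have hd' : Tendsto (fun T => (2 * δ T) ^ (α0 ^ 2) / T * ∫ t in E T \ E' T, ‖F‖ * za (δ T) 0 t ^ (2 * α0)) atTop (𝓝 0) := by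
    have h1 := hd.const_mul ‖F‖
    rw [mul_zero] at h1
    refine h1.congr fun T => ?_
    rw [integral_const_mul]
    ring
  have hδ2 := hδ.eventually (gt_mem_nhds (show (0:ℝ) < 1 / 2 by norm_num))
  have h5 := transfer (c := fun T => (2 * δ T) ^ (α0 ^ 2) / T) (f := fun T t => ((zn (1 / 2 + δ T) t ^ (2 * α0) *
          F ((Real.log (zn (1 / 2 + δ T) t) - α0 * ell (δ T)) / sg (δ T)) : ℝ) : ℂ) * tw h k t)
    (g := fun T t => ‖F‖ * za (δ T) 0 t ^ (2 * α0)) (E := E) (E' := E')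
    (L := ((aF α0 * (Nu α0 h k * ∫ x, F x ∂(ProbabilityTheory.gaussianReal 0 1)) : ℝ) : ℂ)) ?_ hE
    (fun T => ⟨(hE' T).1, (hE' T).2.1⟩) ?_ ?_ ?_ ?_ hd'
  · refine h5.congr fun T => ?_
    rw [Complex.real_smul]
  · filter_upwards [pos_path hδL, eventually_gt_atTop 0] with T t1 t2
    positivity
  · filter_upwards [hδ2] with T hT
    have h1 := FY_U (δ := δ T) (α0 := α0) (l := ell (δ T)) (σ := sg (δ T)) (T := T) subset_rfl (by linarith) h0.le F
    refine (h1.ofReal (𝕜 := ℂ)).mul_bdd (c := 1) (tw_cont h k).aestronglyMeasurable (Eventually.of_forall fun t => ?_)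
    rw [tw_norm]
  · filter_upwards [hδ2] with T hT
    exact (((za_cont hT 0).rpow_const fun t => Or.inr (by positivity)).continuousOn.integrableOn_compact isCompact_Icc).const_mul _
  · refine Eventually.of_forall fun T t => ?_
    rw [norm_mul, tw_norm, mul_one, Complex.norm_real, norm_mul, Real.norm_of_nonneg (Real.rpow_nonneg (zn_nonneg _ _) _), zn_za, mul_comm]
    exact mul_le_mul_of_nonneg_right (F.norm_coe_le_norm _) (Real.rpow_nonneg (za_nonneg _ _ _) _)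
  · refine main.congr' ?_
    filter_upwards [hEU] with T hT
    rw [hT, Complex.real_smul]

end Pool.Agent.Y753.SHR
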