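import Pool.Agent.Y753.SHR.R1

set_option autoImplicit false

/-! Real powers on the good set. -/

namespace Pool.Agent.Y753.SHR

open Finset Filter MeasureTheory MonoidAlgebra Topology
open Pool.Agent.Y755
open Pool.Agent.W184.NZ
open Pool.Agent.Y753.NL
open Pool.Agent.Y753.SH
open Pool.Agent.H306R2 (lc lc_zero lc_nonneg lc_conv lc_summable dv dv_nonneg dv_one)

lemma loc_unif_r {κ : ℝ} (hα : 0 < κ) {r : ℝ} (hr : 0 < r) (hr1 : r < 1) {η : ℝ} (hη : 0 < η) :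
    ∃ K0 : ℕ, ∀ K : ℕ, K0 ≤ K → ∀ x : ℂ, ‖x‖ ≤ r →
      ‖(1 - x) ^ (κ : ℂ) * ∑ j ∈ range (K + 1), (lc κ j : ℂ) * x ^ j - 1‖ ≤ η := by
  have hs := lc_summable hα hr hr1
  have ht := hs.hasSum.tendsto_sum_nat
  have h2 : (0:ℝ) < η / 2 ^ κ := by positivity
  have h3 := ht.eventually (lt_mem_nhds (sub_lt_self _ h2))
  obtain ⟨K0, hK0⟩ := eventually_atTop.mp h3
  refine ⟨K0, fun K hK x hx => ?_⟩
  have hx1 : ‖x‖ < 1 := lt_of_le_of_lt hx hr1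
  have hsum := lc_hasSum κ hx1
  have hK := hK0 (K + 1) (by omega)
  have h4 := tail_close (f := fun j => lc κ j * r ^ j) (g := fun j => (lc κ j : ℂ) * x ^ j) hs (fun j => by
    rw [norm_mul, norm_pow, Complex.norm_real, Real.norm_of_nonneg (lc_nonneg hα.le j)]
    exact mul_le_mul_of_nonneg_left (pow_le_pow_left₀ (norm_nonneg _) hx j) (lc_nonneg hα.le j))
    (F := range (K + 1)) (e := η / 2 ^ κ) (by linarith)
  rw [hsum.tsum_eq] at h4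
  have hne : (1:ℂ) - x ≠ 0 := by
    intro h
    have : x = 1 := by linear_combination -h
    rw [this, norm_one] at hx1
    exact lt_irrefl _ hx1
  set S := ∑ j ∈ range (K + 1), (lc κ j : ℂ) * x ^ j with hS
  have hle : ‖1 - x‖ ≤ 2 := by
    refine (norm_sub_le _ _).trans ?_
    rw [norm_one]; linarith
  have hc : (1 - x) ^ (κ : ℂ) ≠ 0 := by
    rw [Complex.cpow_def_of_ne_zero hne]; exact Complex.exp_ne_zero _
  have h7 : (1 - x) ^ (κ : ℂ) * S - 1 = (1 - x) ^ (κ : ℂ) * (S - 1 / (1 - x) ^ (κ : ℂ)) := by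
    field_simp
  have hn : ‖(1 - x) ^ (κ : ℂ)‖ = ‖1 - x‖ ^ κ := by
    rw [Complex.norm_cpow_of_ne_zero hne, Complex.ofReal_re, Complex.ofReal_im, mul_zero, Real.exp_zero, div_one]
  rw [h7, norm_mul, hn, norm_sub_rev S]
  calc ‖1 - x‖ ^ κ * ‖1 / (1 - x) ^ (κ : ℂ) - S‖ ≤ 2 ^ κ * (η / 2 ^ κ) :=
        mul_le_mul (Real.rpow_le_rpow (norm_nonneg _) hle hα.le) h4 (norm_nonneg _) (by positivity)
    _ = η := by field_simp

/-- the logarithm of the small Euler factors -/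
noncomputable def Lz (z : ℕ) (s : ℂ) : ℂ := ∑ p ∈ S0 z, Complex.log (1 - (p:ℂ) ^ (-s))

lemma one_sub_ne {p : ℕ} (hp : p.Prime) {s : ℂ} (hs : 1 / 2 ≤ s.re) : (1:ℂ) - (p:ℂ) ^ (-s) ≠ 0 := by
  intro h
  have h1 : (p:ℂ) ^ (-s) = 1 := by linear_combination -h
  have h2 := norm_p_le hp.two_le hs
  rw [h1, norm_one] at h2
  have h3 : (p:ℝ) ^ (-(1 / 2 : ℝ)) < 1 := Real.rpow_lt_one_of_one_lt_of_neg (by exact_mod_cast hp.one_lt) (by norm_num)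
  linarith

lemma exp_Lz {z : ℕ} {s : ℂ} (hs : 1 / 2 ≤ s.re) : Complex.exp (Lz z s) = es s (Pz z) := by
  unfold Lz
  rw [Complex.exp_sum, es_Pz]
  refine prod_congr rfl fun p hp => ?_
  rw [Complex.exp_log (one_sub_ne (mem_S0.mp hp).2 hs)]

/-- the small primes -/
theorem Az_close_r {κ : ℝ} (hκ : 0 < κ) {ε : ℝ} (z : ℕ) (hε : 0 < ε) : ∃ K0 : ℕ, ∀ K : ℕ, K0 ≤ K → ∀ s : ℂ, 1 / 2 ≤ s.re →
    ‖Complex.exp (κ * Lz z s) * es s (Az κ K z) - 1‖ ≤ ε := by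
  obtain ⟨e, he, hp⟩ := prod_close_c (S0 z) hε
  have hr0 : (0:ℝ) < (2:ℝ) ^ (-(1 / 2 : ℝ)) := by positivity
  have hr1 : (2:ℝ) ^ (-(1 / 2 : ℝ)) < 1 := Real.rpow_lt_one_of_one_lt_of_neg (by norm_num) (by norm_num)
  obtain ⟨K0, hK0⟩ := loc_unif_r hκ hr0 hr1 he
  refine ⟨K0, fun K hK s hs => ?_⟩
  have h1 := hp (fun p => (1 - (p:ℂ) ^ (-s)) ^ (κ:ℂ) * ∑ j ∈ range (K + 1), (lc κ j : ℂ) * ((p:ℂ) ^ (-s)) ^ j)
    (fun p hpp => by
      have hpr := (mem_S0.mp hpp).2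
      refine hK0 K hK _ ((norm_p_le hpr.two_le hs).trans ?_)
      exact Real.rpow_le_rpow_of_nonpos (by norm_num) (by exact_mod_cast hpr.two_le) (by norm_num))
  refine le_trans (le_of_eq ?_) h1
  congr 2
  rw [prod_mul_distrib]
  congr 1
  · unfold Lz
    rw [mul_sum, Complex.exp_sum]
    refine prod_congr rfl fun p hpp => ?_
    rw [Complex.cpow_def_of_ne_zero (one_sub_ne (mem_S0.mp hpp).2 hs), mul_comm]
  · unfold Az
    rw [map_prod]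
    exact prod_congr rfl fun p hpp => by rw [es_Lp s (mem_S0.mp hpp).2]

/-- closeness on the good set, real powers -/
lemma on_good_r {J Rs : ℕ} {K : ℕ → ℕ} {κ : ℝ} {M : ℕ} {e1 ε : ℝ} (hM : 1 ≤ M) (hκ : 0 ≤ κ) (hκM : κ ≤ M)
    (he1 : 0 < e1) (hε : 0 < ε) (hε1 : ε ≤ 1 / 10)
    (h1 : (1 + e1) ^ (2 * (M:ℝ)) ≤ 1 + ε) (hcl : ∀ i, Cl (K i) κ (RR Rs i))
    (h4 : 4 * Real.exp (-(2 * (Rs:ℝ))) ≤ ε / 4) (v LP A : ℂ) (X : ℕ → ℂ) (hG : Gd J Rs e1 v X)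
    (hPA : ‖Complex.exp (κ * LP) * A - 1‖ ≤ ε) :
    ‖Complex.exp (κ * (Complex.log (v * Complex.exp (-∑ i ∈ range J, X i)) - LP + ∑ i ∈ range J, X i)) -
      A * ∏ i ∈ range J, NK (K i) κ (X i)‖ ≤ 5 * ε * ‖A * ∏ i ∈ range J, NK (K i) κ (X i)‖ := by
  obtain ⟨hX, hv⟩ := hG
  obtain ⟨θ, hθ, hθe⟩ := prod_Cl hcl hX (h4.trans (by linarith))
  rw [hθe]
  have hθ4 := hθ.trans h4
  obtain ⟨S, hS⟩ : ∃ S, S = ∑ i ∈ range J, X i := ⟨_, rfl⟩
  rw [← hS] at hv ⊢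
  obtain ⟨φ, hφ⟩ : ∃ φ, φ = Complex.exp (κ * LP) * A - 1 := ⟨_, rfl⟩
  rw [← hφ] at hPA
  obtain ⟨u, hu⟩ : ∃ u, u = v * Complex.exp (-S) - 1 := ⟨_, rfl⟩
  rw [← hu] at hv
  have hu' : v * Complex.exp (-S) = 1 + u := by rw [hu]; ring
  rw [hu']
  have hM1 : (1:ℝ) ≤ M := by exact_mod_cast hM
  have he1' : e1 ≤ 1 / 2 := by
    by_contra hcon
    push Not at hcon
    have h2 : (1 + e1) ^ (1:ℝ) ≤ (1 + e1) ^ (2 * (M:ℝ)) := Real.rpow_le_rpow_of_exponent_le (by linarith) (by linarith)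
    rw [Real.rpow_one] at h2
    linarith
  -- the power of `1 + u`
  obtain ⟨w, hw⟩ : ∃ w, w = Complex.exp (κ * Complex.log (1 + u)) - 1 := ⟨_, rfl⟩
  have hw1 : ‖w‖ ≤ ε := by
    have h2 : ‖Complex.log (1 + u)‖ ≤ 3 / 2 * e1 :=
      (Complex.norm_log_one_add_half_le_self (hv.trans he1')).trans (mul_le_mul_of_nonneg_left hv (by norm_num))
    have h3 : ‖(κ:ℂ) * Complex.log (1 + u)‖ ≤ 2 * M * Real.log (1 + e1) := by
      rw [norm_mul, Complex.norm_real, Real.norm_of_nonneg hκ]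
      have h5 : 3 / 4 * e1 ≤ Real.log (1 + e1) := by
        refine le_trans ?_ (Real.le_log_one_add_of_nonneg he1.le)
        rw [le_div_iff₀ (by linarith)]
        nlinarith
      calc κ * ‖Complex.log (1 + u)‖ ≤ M * (3 / 2 * e1) := mul_le_mul hκM h2 (norm_nonneg _) (by linarith)
        _ = 2 * M * (3 / 4 * e1) := by ring
        _ ≤ 2 * M * Real.log (1 + e1) := mul_le_mul_of_nonneg_left h5 (by linarith)
    have h6 : ‖Complex.exp ((κ:ℂ) * Complex.log (1 + u)) - 1‖ ≤ Real.exp ‖(κ:ℂ) * Complex.log (1 + u)‖ - 1 := by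
      have := Complex.norm_exp_sub_sum_le_exp_norm_sub_sum ((κ:ℂ) * Complex.log (1 + u)) 1
      simpa using this
    rw [hw]
    refine h6.trans ?_
    have h7 : Real.exp ‖(κ:ℂ) * Complex.log (1 + u)‖ ≤ (1 + e1) ^ (2 * (M:ℝ)) := by
      rw [Real.rpow_def_of_pos (by linarith)]
      exact Real.exp_le_exp.mpr (h3.trans (le_of_eq (by ring)))
    linarith
  have hP0 : Complex.exp (κ * LP) ≠ 0 := Complex.exp_ne_zero _
  have hA : A = (1 + φ) / Complex.exp (κ * LP) := by rw [hφ]; field_simp; ring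
  obtain ⟨E, hE⟩ : ∃ E, E = Complex.exp (κ * S) / Complex.exp (κ * LP) := ⟨_, rfl⟩
  have e2 : Complex.exp (κ * (Complex.log (1 + u) - LP + S)) = E * (1 + w) := by
    rw [hE, hw, ← Complex.exp_sub]
    have e3 : (1:ℂ) + (Complex.exp (κ * Complex.log (1 + u)) - 1) = Complex.exp (κ * Complex.log (1 + u)) := by ring
    rw [e3, ← Complex.exp_add]
    congr 1; ring
  have e4 : A * (Complex.exp (κ * S) * (1 + θ)) = E * ((1 + φ) * (1 + θ)) := by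
    rw [hE, hA]; field_simp
  have e3 : E * (1 + w) - E * ((1 + φ) * (1 + θ)) = E * (w - (φ + θ + φ * θ)) := by ring
  rw [e2, e4, e3, norm_mul, norm_mul, norm_mul]
  have a1 : 1 - ε ≤ ‖1 + φ‖ := by
    have := norm_sub_norm_le (1:ℂ) (-φ)
    rw [norm_one, norm_neg, sub_neg_eq_add] at this
    linarith
  have a2 : 1 - ε / 4 ≤ ‖1 + θ‖ := by
    have := norm_sub_norm_le (1:ℂ) (-θ)
    rw [norm_one, norm_neg, sub_neg_eq_add] at this
    linarith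
  have a3 : ‖w - (φ + θ + φ * θ)‖ ≤ ε + (ε + ε / 4 + ε * (ε / 4)) := by
    refine (norm_sub_le _ _).trans (add_le_add hw1 ?_)
    refine (norm_add_le _ _).trans (add_le_add ((norm_add_le _ _).trans (add_le_add hPA hθ4)) ?_)
    rw [norm_mul]
    exact mul_le_mul hPA hθ4 (norm_nonneg _) hε.le
  have a4 : (1 - ε) * (1 - ε / 4) ≤ ‖1 + φ‖ * ‖1 + θ‖ := mul_le_mul a1 a2 (by linarith) (norm_nonneg _)
  have hE0 := norm_nonneg E
  have a5 : ε + (ε + ε / 4 + ε * (ε / 4)) ≤ 5 * ε * ((1 - ε) * (1 - ε / 4)) := by nlinarith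
  calc ‖E‖ * ‖w - (φ + θ + φ * θ)‖ ≤ ‖E‖ * (5 * ε * ((1 - ε) * (1 - ε / 4))) :=
        mul_le_mul_of_nonneg_left (a3.trans a5) hE0
    _ ≤ ‖E‖ * (5 * ε * (‖1 + φ‖ * ‖1 + θ‖)) := by gcongr
    _ = _ := by ring

/-- the ratio of a product of shifts and a power -/
lemma ratio_r {J Rs k : ℕ} {K K' : ℕ → ℕ} {ε s : ℝ} {κ : Fin k → ℝ} (hκ : ∀ j, 0 < κ j) (hs : 0 < s) (hsum : ∑ j, κ j = s)
    (hε : 0 < ε) (hε1 : ε ≤ 1 / 10)
    (hc1 : ∀ j i, Cl (K i) (κ j) (RR Rs i)) (hck : ∀ i, Cl (K i) s (RR Rs i)) (hc4 : ∀ i, Cl (K' i) (4 * s) (RR Rs i))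
    (h4 : 4 * Real.exp (-(2 * (Rs:ℝ))) ≤ ε / 4) {X : Fin k → ℕ → ℂ} {X' : ℕ → ℂ}
    (hX : ∀ j, ∀ i ∈ range J, ‖X j i‖ ≤ (RR Rs i : ℝ)) (hX' : ∀ i ∈ range J, ‖X' i‖ ≤ (RR Rs i : ℝ))
    {P A : Fin k → ℂ} {P' A' : ℂ} (hPA : ∀ j, ‖P j‖ ^ κ j * ‖A j‖ ≤ 11 / 10) (hPA' : 9 / 10 ≤ ‖P'‖ ^ s * ‖A'‖)
    (hP' : 0 < ‖P'‖) (hPP : ∀ j, ‖P'‖ ≤ 2 * ‖P j‖) :
    ‖∏ j, (A j * ∏ i ∈ range J, NK (K i) (κ j) (X j i))‖ ≤
      2 * 2 ^ k * (2:ℝ) ^ s * ‖A' * ∏ i ∈ range J, NK (K i) s (X' i)‖ *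
        Real.exp (∑ i ∈ range J, ∑ j, κ j • (X j i - X' i)).re ∧
    Real.exp (∑ i ∈ range J, ∑ j, κ j • (X j i - X' i)).re ^ 2 ≤
      2 * ‖∏ i ∈ range J, NK (K' i) (4 * s) ((1 / (2 * s)) • ∑ j, κ j • (X j i - X' i))‖ := by
  have hθs : 4 * Real.exp (-(2 * (Rs:ℝ))) ≤ 1 / 40 := by linarith
  have hn : ∀ θ : ℂ, ‖θ‖ ≤ 1 / 40 → ‖1 + θ‖ ≤ 41 / 40 ∧ 39 / 40 ≤ ‖1 + θ‖ := by
    intro θ hθ
    constructor
    · refine (norm_add_le _ _).trans ?_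
      rw [norm_one]; linarith
    · have := norm_sub_norm_le (1:ℂ) (-θ)
      rw [norm_neg, norm_one, sub_neg_eq_add] at this
      linarith
  have hre : ∀ w : ℂ, ‖Complex.exp w‖ = Real.exp w.re := fun w => Complex.norm_exp w
  obtain ⟨θ', hθ', he'⟩ := prod_Cl hck hX' (by linarith)
  obtain ⟨S', hS'⟩ : ∃ S', S' = ∑ i ∈ range J, X' i := ⟨_, rfl⟩
  rw [← hS'] at he'
  have hEsum : (∑ i ∈ range J, ∑ j, κ j • (X j i - X' i)).re = ∑ j, κ j * (∑ i ∈ range J, X j i).re - s * S'.re := by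
    rw [sum_comm, Complex.re_sum]
    have h1 : ∀ j, (∑ i ∈ range J, κ j • (X j i - X' i)).re = κ j * (∑ i ∈ range J, X j i).re - κ j * S'.re := by
      intro j
      rw [← smul_sum, Complex.smul_re, sum_sub_distrib, Complex.sub_re, ← hS', smul_eq_mul]; ring
    rw [sum_congr rfl fun j _ => h1 j, sum_sub_distrib, ← sum_mul, hsum]
  constructor
  · rw [norm_prod, hEsum]
    have hf : ∀ j : Fin k, ‖A j * ∏ i ∈ range J, NK (K i) (κ j) (X j i)‖ ≤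
        ‖A j‖ * (Real.exp (κ j * (∑ i ∈ range J, X j i).re) * (41 / 40)) := by
      intro j
      obtain ⟨θ, hθ, he⟩ := prod_Cl (hc1 j) (hX j) (by linarith)
      rw [he, norm_mul, norm_mul, hre, Complex.re_ofReal_mul]
      have h1 := (hn θ (hθ.trans hθs)).1
      gcongr
    have h1 : ∏ j : Fin k, ‖A j * ∏ i ∈ range J, NK (K i) (κ j) (X j i)‖ ≤
        ∏ j : Fin k, (‖A j‖ * (Real.exp (κ j * (∑ i ∈ range J, X j i).re) * (41 / 40))) :=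
      prod_le_prod (fun _ _ => norm_nonneg _) fun j _ => hf j
    refine h1.trans ?_
    rw [prod_mul_distrib, prod_mul_distrib, prod_const, card_univ, Fintype.card_fin, ← Real.exp_sum]
    rw [he', norm_mul, norm_mul, hre, Complex.re_ofReal_mul, Real.exp_sub]
    have h39 := (hn θ' (hθ'.trans hθs)).2
    have hx := Real.exp_pos (s * S'.re)
    have hy := Real.exp_pos (∑ j : Fin k, κ j * (∑ i ∈ range J, X j i).re)
    set x := Real.exp (s * S'.re)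
    set Y := Real.exp (∑ j : Fin k, κ j * (∑ i ∈ range J, X j i).re)
    have e7 : 2 * 2 ^ k * (2:ℝ) ^ s * (‖A'‖ * (x * ‖1 + θ'‖)) * (Y / x) = (2 * 2 ^ k * (2:ℝ) ^ s * ‖A'‖ * ‖1 + θ'‖) * Y := by field_simp
    have e8 : (∏ j : Fin k, ‖A j‖) * (Y * (41 / 40) ^ k) = ((∏ j : Fin k, ‖A j‖) * (41 / 40) ^ k) * Y := by ring
    rw [e7, e8]
    refine mul_le_mul_of_nonneg_right ?_ hy.le
    have hp : 0 < ‖P'‖ ^ s := by positivity
    have h5 : (∏ j : Fin k, ‖A j‖) * ‖P'‖ ^ s ≤ (11 / 10) ^ k * 2 ^ s := by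
      have h6 : ‖P'‖ ^ s = ∏ j, ‖P'‖ ^ κ j := by rw [← hsum, Real.rpow_sum_of_pos hP']
      have h7 : (2:ℝ) ^ s = ∏ j, (2:ℝ) ^ κ j := by rw [← hsum, Real.rpow_sum_of_pos two_pos]
      have h8 : ((11:ℝ) / 10) ^ k = ∏ _j : Fin k, (11 / 10 : ℝ) := by rw [prod_const, card_univ, Fintype.card_fin]
      rw [h6, h7, h8, ← prod_mul_distrib, ← prod_mul_distrib]
      refine prod_le_prod (fun j _ => by positivity) fun j _ => ?_
      have h9 : ‖P'‖ ^ κ j ≤ 2 ^ κ j * ‖P j‖ ^ κ j := by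
        rw [← Real.mul_rpow (by norm_num) (norm_nonneg _)]
        exact Real.rpow_le_rpow hP'.le (hPP j) (hκ j).le
      have h10 := mul_le_mul_of_nonneg_left h9 (norm_nonneg (A j))
      have h11 := mul_le_mul_of_nonneg_left (hPA j) (by positivity : (0:ℝ) ≤ 2 ^ κ j)
      linarith
    have h12 : (∏ j : Fin k, ‖A j‖) * (41 / 40) ^ k * ‖P'‖ ^ s ≤ 2 * 2 ^ k * 2 ^ s * ‖A'‖ * ‖1 + θ'‖ * ‖P'‖ ^ s := by
      have h13 : ((11:ℝ) / 10) ^ k * (41 / 40) ^ k ≤ 2 ^ k := by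
        rw [← mul_pow]; exact pow_le_pow_left₀ (by norm_num) (by norm_num) k
      have h2k : (0:ℝ) < 2 ^ k := by positivity
      have h2s : (0:ℝ) < 2 ^ s := by positivity
      calc (∏ j : Fin k, ‖A j‖) * (41 / 40) ^ k * ‖P'‖ ^ s = (∏ j : Fin k, ‖A j‖) * ‖P'‖ ^ s * (41 / 40) ^ k := by ring
        _ ≤ (11 / 10) ^ k * 2 ^ s * (41 / 40) ^ k := mul_le_mul_of_nonneg_right h5 (by positivity)
        _ = ((11 / 10) ^ k * (41 / 40) ^ k) * 2 ^ s := by ring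
        _ ≤ 2 ^ k * 2 ^ s := mul_le_mul_of_nonneg_right h13 h2s.le
        _ ≤ 2 * 2 ^ k * 2 ^ s * ((9 / 10) * (39 / 40)) := by nlinarith [mul_pos h2k h2s]
        _ ≤ 2 * 2 ^ k * 2 ^ s * ((‖P'‖ ^ s * ‖A'‖) * ‖1 + θ'‖) := by gcongr
        _ = _ := by ring
    exact le_of_mul_le_mul_right h12 hp
  · have hq : ∀ i ∈ range J, ‖(1 / (2 * s)) • ∑ j, κ j • (X j i - X' i)‖ ≤ (RR Rs i : ℝ) := by
      intro i hi
      rw [norm_smul, Real.norm_of_nonneg (by positivity)]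
      have h1 : ‖∑ j : Fin k, κ j • (X j i - X' i)‖ ≤ s * (2 * (RR Rs i : ℝ)) := by
        refine (norm_sum_le _ _).trans ?_
        have h2 : ∀ j ∈ (univ : Finset (Fin k)), ‖κ j • (X j i - X' i)‖ ≤ κ j * (2 * (RR Rs i : ℝ)) := fun j _ => by
          rw [norm_smul, Real.norm_of_nonneg (hκ j).le]
          refine mul_le_mul_of_nonneg_left ?_ (hκ j).le
          have := norm_sub_le (X j i) (X' i)
          have := hX j i hi
          have := hX' i hi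
          linarith
        refine (sum_le_sum h2).trans ?_
        rw [← sum_mul, hsum]
      calc 1 / (2 * s) * ‖∑ j : Fin k, κ j • (X j i - X' i)‖ ≤ 1 / (2 * s) * (s * (2 * (RR Rs i : ℝ))) := by gcongr
        _ = _ := by field_simp
    obtain ⟨θ, hθ, he⟩ := prod_Cl hc4 hq (by linarith)
    have h39 := (hn θ (hθ.trans hθs)).2
    have e1 : (((4 * s : ℝ)) : ℂ) * ∑ i ∈ range J, (1 / (2 * s)) • ∑ j, κ j • (X j i - X' i) =
        2 * ∑ i ∈ range J, ∑ j, κ j • (X j i - X' i) := by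
      rw [← smul_sum, Complex.real_smul]
      have : (s:ℂ) ≠ 0 := by exact_mod_cast hs.ne'
      push_cast
      field_simp
      ring
    rw [he, norm_mul, e1, hre]
    have e2 : (2 * ∑ i ∈ range J, ∑ j, κ j • (X j i - X' i)).re = 2 * (∑ i ∈ range J, ∑ j, κ j • (X j i - X' i)).re := by
      rw [Complex.mul_re]; simp
    rw [e2]
    have e3 : Real.exp (∑ i ∈ range J, ∑ j, κ j • (X j i - X' i)).re ^ 2 = Real.exp (2 * (∑ i ∈ range J, ∑ j, κ j • (X j i - X' i)).re) := by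
      rw [← Real.exp_nat_mul]; push_cast; rfl
    rw [e3]
    have := Real.exp_pos (2 * (∑ i ∈ range J, ∑ j, κ j • (X j i - X' i)).re)
    nlinarith

end Pool.Agent.Y753.SHR
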