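import Pool.Agent.Y753.SHR.R19

set_option autoImplicit false

/-! Mixed moments off small sets of large values. -/

namespace Pool.Agent.Y753.SHR

open Finset Filter MeasureTheory MonoidAlgebra Topology
open Pool.Agent.Y755
open Pool.Agent.W184.NZ
open Pool.Agent.Y753.NL
open Pool.Agent.Y753.SH
open Pool.Agent.H306R2 (dv dv_nonneg dv_one aF aF_pos)

/-- transfer of a limit, almost everywhere version -/
lemma transfer_ae {V : Type*} [NormedAddCommGroup V] [NormedSpace ℝ V] {c : ℝ → ℝ} {f : ℝ → ℝ → V} {g : ℝ → ℝ → ℝ}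
    {E E' : ℝ → Set ℝ} {L : V} (hc : ∀ᶠ T in atTop, 0 ≤ c T)
    (hE : ∀ T, MeasurableSet (E T) ∧ E T ⊆ Set.Icc 0 T) (hE' : ∀ T, MeasurableSet (E' T) ∧ E' T ⊆ E T)
    (hf : ∀ᶠ T in atTop, IntegrableOn (f T) (Set.Icc 0 T)) (hg : ∀ᶠ T in atTop, IntegrableOn (g T) (Set.Icc 0 T))
    (hfg : ∀ᶠ T in atTop, ∀ᵐ t : ℝ, ‖f T t‖ ≤ g T t)
    (h1 : Tendsto (fun T => c T • ∫ t in Set.Icc 0 T \ E T, f T t) atTop (𝓝 L))
    (h2 : Tendsto (fun T => c T * ∫ t in E T \ E' T, g T t) atTop (𝓝 0)) :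
    Tendsto (fun T => c T • ∫ t in Set.Icc 0 T \ E' T, f T t) atTop (𝓝 L) := by
  have h3 : Tendsto (fun T => c T • ∫ t in E T \ E' T, f T t) atTop (𝓝 0) := by
    rw [tendsto_zero_iff_norm_tendsto_zero]
    refine squeeze_zero' (Eventually.of_forall fun T => norm_nonneg _) ?_ h2
    filter_upwards [hc, hf, hg, hfg] with T t1 t2 t3 t4
    rw [norm_smul, Real.norm_of_nonneg t1]
    refine mul_le_mul_of_nonneg_left ?_ t1
    exact norm_integral_le_of_norm_le (t3.mono_set (Set.sdiff_subset.trans (hE T).2)) (ae_restrict_of_ae t4)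
  have h4 := h1.add h3
  rw [add_zero] at h4
  refine h4.congr' ?_
  filter_upwards [hf] with T t2
  rw [← smul_add]
  congr 1
  have hu : Set.Icc 0 T \ E' T = (Set.Icc 0 T \ E T) ∪ (E T \ E' T) := by
    ext t
    have ha : t ∈ E T → t ∈ Set.Icc 0 T := fun h => (hE T).2 h
    have hb : t ∈ E' T → t ∈ E T := fun h => (hE' T).2 h
    simp only [Set.mem_sdiff, Set.mem_union]
    tauto
  rw [hu, setIntegral_union ?_ ((hE T).1.diff (hE' T).1) (t2.mono_set Set.sdiff_subset) (t2.mono_set (Set.sdiff_subset.trans (hE T).2))]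
  refine Set.disjoint_left.mpr fun t h h' => h.2 h'.1

lemma zeros_ae (x c : ℝ) : ∀ᵐ t : ℝ, riemannZeta (1 / 2 + x + ((t + c : ℝ) : ℂ) * Complex.I) ≠ 0 := by
  have hzc : riemannZetaZeros.Countable := by
    have h2 : riemannZetaZeros = ⋃ m : ℕ, (Metric.closedBall (0:ℂ) m ∩ riemannZetaZeros) := by
      ext x
      simp only [Set.mem_iUnion, Set.mem_inter_iff, Metric.mem_closedBall, dist_zero_right]
      constructor
      · intro hx
        obtain ⟨m, hm⟩ := exists_nat_ge ‖x‖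
        exact ⟨m, hm, hx⟩
      · rintro ⟨m, -, hx⟩
        exact hx
    rw [h2]
    exact Set.countable_iUnion fun m => ((isCompact_closedBall (0:ℂ) m).inter_riemannZetaZeros_finite).countable
  have h3 : {t : ℝ | riemannZeta (1 / 2 + x + ((t + c : ℝ) : ℂ) * Complex.I) = 0} ⊆
      (fun t : ℝ => (1 / 2 + x + ((t + c : ℝ) : ℂ) * Complex.I : ℂ)) ⁻¹' riemannZetaZeros := fun t ht => ht
  have h1 : {t : ℝ | riemannZeta (1 / 2 + x + ((t + c : ℝ) : ℂ) * Complex.I) = 0}.Countable := by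
    refine Set.Countable.mono h3 (hzc.preimage_of_injOn fun t _ u _ htu => ?_)
    have h4 := congrArg Complex.im htu
    simp at h4
    linarith
  filter_upwards [measure_eq_zero_iff_ae_notMem.mp (h1.measure_zero volume)] with t ht
  exact ht

lemma zr_norm {k : ℕ} {w : ℝ → ℂ} {δ : ℝ} {κ a : Fin k → ℝ} {t : ℝ}
    (hw : ∀ j, Complex.exp (w (t + a j * δ)) = riemannZeta (1 / 2 + δ + ((t + a j * δ : ℝ) : ℂ) * Complex.I)) :
    ‖zr w δ κ a t‖ ^ 2 = ∏ j, za δ (a j) t ^ (2 * κ j) := by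
  have h1 := zr_sq (κ := κ) hw
  rw [Complex.mul_conj, Complex.normSq_eq_norm_sq] at h1
  exact_mod_cast h1

/-- the mixed moments, off a small set of large values -/
theorem mixed_small (hDG : S_DIAGR) (hST : S_STARR) {δ : ℝ → ℝ} (hδ : Tendsto δ atTop (𝓝 0))
    (hδL : Tendsto (fun T : ℝ => δ T * Real.log T) atTop atTop) {c : ℝ} (hc : 0 ≤ c)
    {S R : Set ℝ} (hS : S.Countable) (hR : R.Countable) (hR0 : ∀ r ∈ R, 0 < r) :
    ∃ (E : ℝ → Set ℝ) (w : ℝ → ℝ → ℂ), (∀ T, MeasurableSet (E T) ∧ E T ⊆ Set.Icc 0 T ∧ Measurable (w T) ∧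
        ∀ t ∈ E T, ∃ a ∈ S, (δ T) ^ (-(2 + c)) < za (δ T) a t) ∧
      Tendsto (fun T => (volume (E T)).toReal / (T * (δ T) ^ (4 + 4 * c))) atTop (𝓝 0) ∧
      (∀ᶠ T in atTop, ∀ u : ℝ, riemannZeta (1 / 2 + δ T + (u : ℂ) * Complex.I) ≠ 0 →
        Complex.exp (w T u) = riemannZeta (1 / 2 + δ T + (u : ℂ) * Complex.I)) ∧
      ∀ (k l : ℕ) (κ a : Fin k → ℝ) (τ b : Fin l → ℝ) (s : ℝ), 1 ≤ k → 1 ≤ l → ∑ j, κ j = s → ∑ i, τ i = s →
        (∀ j, κ j ∈ R) → (∀ j, a j ∈ S) → (∀ i, τ i ∈ R) → (∀ i, b i ∈ S) →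
        ((s ≤ 2 ∨ 4 + 4 * c ≤ 2 * s) → Tendsto (fun T : ℝ => (((2 * δ T) ^ (s ^ 2) / T : ℝ) : ℂ) *
          ∫ t in Set.Icc 0 T \ E T, zr (w T) (δ T) κ a t * (starRingEnd ℂ) (zr (w T) (δ T) τ b t)) atTop
          (𝓝 ((aF s : ℂ) * ∏ j, ∏ i, (1 + Complex.I * ((a j - b i : ℝ) : ℂ) / 2) ^ (-((κ j * τ i : ℝ) : ℂ))))) ∧
        (s ≤ 2 → Tendsto (fun T : ℝ => (((2 * δ T) ^ (s ^ 2) / T : ℝ) : ℂ) *
          ∫ t in Set.Icc 0 T, zr (w T) (δ T) κ a t * (starRingEnd ℂ) (zr (w T) (δ T) τ b t)) atTop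
          (𝓝 ((aF s : ℂ) * ∏ j, ∏ i, (1 + Complex.I * ((a j - b i : ℝ) : ℂ) / 2) ^ (-((κ j * τ i : ℝ) : ℂ))))) := by
  classical
  rcases S.eq_empty_or_nonempty with hSe | hSn
  · have hlt : ∀ᶠ T in atTop, δ T < 1 / 2 := hδ.eventually (gt_mem_nhds (by norm_num))
    refine ⟨fun _ => ∅, fun T => if δ T < 1 / 2 then fun u => Complex.log (riemannZeta (1 / 2 + δ T + (u : ℂ) * Complex.I)) else 0,
      fun T => ⟨MeasurableSet.empty, Set.empty_subset _, ?_, fun t ht => ht.elim⟩, by simp, ?_, ?_⟩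
    · dsimp only
      split_ifs with h
      · have h1 : Continuous fun t : ℝ => riemannZeta (1 / 2 + δ T + t * Complex.I) := zl_cont h
        exact Complex.measurable_log.comp h1.measurable
      · exact measurable_zero
    · filter_upwards [hlt] with T hT u hu
      rw [if_pos hT]
      exact Complex.exp_log hu
    · intro k l κ a τ b s hk _ _ _ _ ha
      have := ha ⟨0, by omega⟩
      rw [hSe] at this
      exact this.elim
  obtain ⟨f, hf⟩ := hS.exists_eq_range hSn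
  obtain ⟨Q, hQ⟩ : ∃ Q : Set ℝ, Q = {s : ℝ | 0 < s ∧ ∃ (n : ℕ) (κ : Fin n → ℝ), (∀ j, κ j ∈ R) ∧ s = ∑ j, κ j} := ⟨_, rfl⟩
  have hQc : Q.Countable := by rw [hQ]; exact sums_countable hR
  have hRQ : ∀ r ∈ R, r ∈ insert 2 Q := fun r hr => by
    refine Set.mem_insert_of_mem _ ?_
    rw [hQ]
    exact ⟨hR0 r hr, 1, fun _ => r, fun _ => hr, by simp⟩
  have hQ0 : ∀ r ∈ insert 2 Q, 0 < r := by
    intro r hr
    rcases Set.mem_insert_iff.mp hr with h | h
    · rw [h]; norm_num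
    · rw [hQ] at h; exact h.1
  obtain ⟨E, w, hE, hvol, hw, hm⟩ := main_R hDG hST hδ hδL hS (hQc.insert 2) hQ0
  have hpos := pos_path hδL
  have hlt : ∀ᶠ T in atTop, δ T < 1 / 2 := hδ.eventually (gt_mem_nhds (by norm_num))
  -- the new determination
  obtain ⟨z, hz⟩ : ∃ z : ℝ → ℝ → ℂ, ∀ T u, z T u = riemannZeta (1 / 2 + δ T + (u : ℂ) * Complex.I) := ⟨_, fun _ _ => rfl⟩
  have hzm : ∀ T, δ T < 1 / 2 → Measurable (z T) := by
    intro T hT
    have h1 : Continuous fun t : ℝ => riemannZeta (1 / 2 + δ T + t * Complex.I) := zl_cont hT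
    have e : z T = fun t : ℝ => riemannZeta (1 / 2 + δ T + t * Complex.I) := funext (hz T)
    rw [e]; exact h1.measurable
  obtain ⟨w', hw'⟩ : ∃ w' : ℝ → ℝ → ℂ, ∀ T u, w' T u = if δ T < 1 / 2 ∧ Complex.exp (w T u) ≠ z T u then Complex.log (z T u) else w T u :=
    ⟨_, fun _ _ => rfl⟩
  have hwm : ∀ T, Measurable (w' T) := by
    intro T
    by_cases hT : δ T < 1 / 2
    · have e : w' T = fun u => if Complex.exp (w T u) ≠ z T u then Complex.log (z T u) else w T u := by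
        funext u
        rw [hw']
        by_cases h : Complex.exp (w T u) ≠ z T u
        · rw [if_pos ⟨hT, h⟩, if_pos h]
        · rw [if_neg (fun h1 => h h1.2), if_neg h]
      rw [e]
      refine Measurable.ite ?_ (Complex.measurable_log.comp (hzm T hT)) (hE T).2.2
      exact (measurableSet_eq_fun (Complex.measurable_exp.comp (hE T).2.2) (hzm T hT)).compl
    · have e : w' T = w T := by
        funext u
        rw [hw', if_neg (fun h1 => hT h1.1)]
      rw [e]; exact (hE T).2.2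
  have hexp : ∀ᶠ T in atTop, ∀ u : ℝ, z T u ≠ 0 → Complex.exp (w' T u) = z T u := by
    filter_upwards [hlt] with T hT u hu
    rw [hw']
    split_ifs with h
    · exact Complex.exp_log hu
    · rw [not_and_or, not_ne_iff] at h
      rcases h with h | h
      · exact absurd hT h
      · exact h
  have hsame : ∀ T u, Complex.exp (w T u) = z T u → w' T u = w T u := by
    intro T u h
    rw [hw', if_neg]
    exact fun h1 => h1.2 h
  have hE1 : ∀ T, MeasurableSet (E T) ∧ E T ⊆ Set.Icc 0 T := fun T => ⟨(hE T).1, (hE T).2.1⟩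
  have hone : ∀ a ∈ S, ∀ s ∈ insert 2 Q, Tendsto (fun T : ℝ => (2 * δ T) ^ (s ^ 2) / T *
      ∫ t in Set.Icc 0 T \ E T, za (δ T) a t ^ (2 * s)) atTop (𝓝 (aF s)) := by
    intro a ha s hs
    obtain ⟨-, h2⟩ := hm 1 1 (fun _ => s) (fun _ => a) (fun _ => s) (fun _ => a) s le_rfl le_rfl (by simp) (by simp)
      (fun _ => hs) (fun _ => ha) (fun _ => hs) (fun _ => ha)
    have h3 := h2.norm
    rw [norm_mul, lim_norm, Complex.norm_real, Real.norm_of_nonneg (aF_pos (hQ0 s hs)).le] at h3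
    simp only [univ_unique, Fin.default_eq_zero, Fin.isValue, prod_singleton, sub_self, zero_div] at h3
    have e1 : (1 + (0:ℝ) ^ 2) ^ (-(s * s / 2)) = 1 := by norm_num
    rw [e1, mul_one] at h3
    refine h3.congr' ?_
    filter_upwards [hw a ha, hpos, eventually_gt_atTop 0] with T h4 h5 hT0
    have hmeas : MeasurableSet (Set.Icc 0 T \ E T) := measurableSet_Icc.diff (hE T).1
    have e2 : ∫ t in Set.Icc 0 T \ E T, zr (w T) (δ T) (fun _ : Fin 1 => s) (fun _ => a) t *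
        (starRingEnd ℂ) (zr (w T) (δ T) (fun _ : Fin 1 => s) (fun _ => a) t) =
        ((∫ t in Set.Icc 0 T \ E T, za (δ T) a t ^ (2 * s) : ℝ) : ℂ) := by
      rw [← integral_complex_ofReal]
      refine setIntegral_congr_fun hmeas fun t ht => ?_
      have h6 := zr_sq (k := 1) (w := w T) (δ := δ T) (κ := fun _ => s) (a := fun _ => a) (t := t) fun _ => h4 t ht
      rw [Fin.prod_univ_one] at h6
      exact h6
    rw [e2, norm_mul, Complex.norm_real, Complex.norm_real, Real.norm_of_nonneg (by positivity), Real.norm_of_nonneg]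
    exact setIntegral_nonneg hmeas fun t _ => Real.rpow_nonneg (za_nonneg _ _ _) _
  have hfS : ∀ j, f j ∈ S := fun j => by rw [hf]; exact Set.mem_range_self j
  have h4 : ∀ x ∈ S, Tendsto (fun T : ℝ => (2 * δ T) ^ ((2:ℝ) ^ 2) / T * ∫ t in E T, za (δ T) x t ^ (2 * (2:ℝ))) atTop (𝓝 0) :=
    fun x hx => small_E (by norm_num) le_rfl hδ hδL hE1 x (hone _ hx 2 (Set.mem_insert _ _))
  obtain ⟨E', hE', hvol', hV⟩ := shrink (κ := c) hδ hδL hE1 (a := f) fun j => h4 _ (hfS j)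
  refine ⟨E', w', fun T => ⟨(hE' T).1, (hE' T).2.1.trans (hE T).2.1, hwm T, fun t ht => ?_⟩, hvol', ?_, ?_⟩
  · obtain ⟨j, hj⟩ := (hE' T).2.2 t ht
    exact ⟨f j, hfS j, hj⟩
  · filter_upwards [hexp] with T hT u hu
    rw [← hz] at hu ⊢
    exact hT u hu
  intro k l κ a τ b s hk hl hκs hτs hκ ha hτ hb
  have hκ0 : ∀ j, 0 < κ j := fun j => hR0 _ (hκ j)
  have hτ0 : ∀ i, 0 < τ i := fun i => hR0 _ (hτ i)
  have hs0 : 0 < s := by rw [← hκs]; exact sum_pos (fun j _ => hκ0 j) ⟨⟨0, by omega⟩, mem_univ _⟩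
  have hsQ : s ∈ insert 2 Q := by
    refine Set.mem_insert_of_mem _ ?_
    rw [hQ]
    exact ⟨hs0, k, κ, hκ, hκs.symm⟩
  obtain ⟨F, hF⟩ : ∃ F : ℝ → ℝ → ℂ, ∀ T t, F T t = zr (w' T) (δ T) κ a t * (starRingEnd ℂ) (zr (w' T) (δ T) τ b t) := ⟨_, fun _ _ => rfl⟩
  obtain ⟨G, hG⟩ : ∃ G : ℝ → ℝ → ℝ, ∀ T t, G T t = 1 / 2 * (∑ j, κ j / s * za (δ T) (a j) t ^ (2 * s)) +
      1 / 2 * (∑ i, τ i / s * za (δ T) (b i) t ^ (2 * s)) := ⟨_, fun _ _ => rfl⟩
  simp_rw [← hF]
  -- the limit off the first set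
  have hgood : ∀ {n : ℕ} (x : Fin n → ℝ), (∀ j, x j ∈ S) → ∀ᶠ T in atTop, ∀ t ∈ Set.Icc 0 T \ E T, ∀ j,
      w' T (t + x j * δ T) = w T (t + x j * δ T) := by
    intro n x hx
    have h1 : ∀ᶠ T in atTop, ∀ j, ∀ t ∈ Set.Icc 0 T \ E T, Complex.exp (w T (t + x j * δ T)) =
        riemannZeta (1 / 2 + δ T + ((t + x j * δ T : ℝ) : ℂ) * Complex.I) := eventually_all.mpr fun j => hw _ (hx j)
    filter_upwards [h1] with T hT t ht j
    refine hsame T _ ?_
    rw [hz]
    exact hT j t ht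
  have hoff : Tendsto (fun T : ℝ => ((2 * δ T) ^ (s ^ 2) / T) • ∫ t in Set.Icc 0 T \ E T, F T t) atTop
          (𝓝 ((aF s : ℂ) * ∏ j, ∏ i, (1 + Complex.I * ((a j - b i : ℝ) : ℂ) / 2) ^ (-((κ j * τ i : ℝ) : ℂ)))) := by
    refine (hm k l κ a τ b s hk hl hκs hτs (fun j => hRQ _ (hκ j)) ha (fun i => hRQ _ (hτ i)) hb).2.congr' ?_
    filter_upwards [hgood a ha, hgood b hb] with T h1 h2
    rw [Complex.real_smul]
    congr 1
    refine setIntegral_congr_fun (measurableSet_Icc.diff (hE T).1) fun t ht => ?_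
    simp only [hF]
    unfold zr
    have h3 := h1 t ht
    have h4 := h2 t ht
    simp_rw [h3, h4]
  -- the norm
  have hnorm : ∀ᶠ T in atTop, ∀ᵐ t : ℝ, ‖F T t‖ ≤ G T t := by
    filter_upwards [hexp] with T hT
    have ha' : ∀ᵐ t : ℝ, ∀ j, z T (t + a j * δ T) ≠ 0 := ae_all_iff.mpr fun j => by
      filter_upwards [zeros_ae (δ T) (a j * δ T)] with t ht
      rw [hz]; exact ht
    have hb' : ∀ᵐ t : ℝ, ∀ i, z T (t + b i * δ T) ≠ 0 := ae_all_iff.mpr fun i => by
      filter_upwards [zeros_ae (δ T) (b i * δ T)] with t ht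
      rw [hz]; exact ht
    filter_upwards [ha', hb'] with t h1 h2
    have n1 : ‖zr (w' T) (δ T) κ a t‖ ^ 2 = ∏ j, za (δ T) (a j) t ^ (2 * κ j) := zr_norm fun j => by
      rw [hT _ (h1 j), hz]
    have n2 : ‖zr (w' T) (δ T) τ b t‖ ^ 2 = ∏ j, za (δ T) (b j) t ^ (2 * τ j) := zr_norm fun j => by
      rw [hT _ (h2 j), hz]
    have n3 := prod_le (a := a) hκ0 hs0 hκs.symm (δ T) t
    have n4 := prod_le (a := b) hτ0 hs0 hτs.symm (δ T) t
    rw [hF, hG, norm_mul, RCLike.norm_conj]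
    rw [← n1] at n3
    rw [← n2] at n4
    nlinarith [sq_nonneg (‖zr (w' T) (δ T) κ a t‖ - ‖zr (w' T) (δ T) τ b t‖)]
  have hGi : ∀ᶠ T in atTop, IntegrableOn (G T) (Set.Icc 0 T) := by
    filter_upwards [hlt] with T hT
    have e : G T = fun t => 1 / 2 * (∑ j, κ j / s * za (δ T) (a j) t ^ (2 * s)) +
      1 / 2 * (∑ i, τ i / s * za (δ T) (b i) t ^ (2 * s)) := funext (hG T)
    rw [e]
    exact ((integrable_finsetSum _ fun j _ => (ic hT (a j) (by positivity)).const_mul _).const_mul _).add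
      ((integrable_finsetSum _ fun i _ => (ic hT (b i) (by positivity)).const_mul _).const_mul _)
  have hFm : ∀ T, Measurable (F T) := by
    intro T
    have e : F T = fun t => zr (w' T) (δ T) κ a t * (starRingEnd ℂ) (zr (w' T) (δ T) τ b t) := funext (hF T)
    rw [e]
    have hzr : ∀ {n : ℕ} (x y : Fin n → ℝ), Measurable (zr (w' T) (δ T) x y) := fun x y => by
      unfold zr
      exact Finset.measurable_prod _ fun j _ => Complex.measurable_exp.comp
        (((hwm T).comp (measurable_id.add_const _)).const_mul _)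
    exact (hzr κ a).mul (Complex.continuous_conj.measurable.comp (hzr τ b))
  have hFi : ∀ᶠ T in atTop, IntegrableOn (F T) (Set.Icc 0 T) := by
    filter_upwards [hGi, hnorm] with T h1 h2
    exact Integrable.mono' h1 (hFm T).aestronglyMeasurable (ae_restrict_of_ae h2)
  have hc0 : ∀ᶠ T in atTop, 0 ≤ (2 * δ T) ^ (s ^ 2) / T := by
    filter_upwards [hpos, eventually_gt_atTop 0] with T t1 t2
    positivity
  -- the sum
  have hsum : ∀ {D : ℝ → Set ℝ}, (∀ T, D T ⊆ Set.Icc 0 T) →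
      (∀ x ∈ S, Tendsto (fun T : ℝ => (2 * δ T) ^ (s ^ 2) / T * ∫ t in D T, za (δ T) x t ^ (2 * s)) atTop (𝓝 0)) →
      Tendsto (fun T : ℝ => (2 * δ T) ^ (s ^ 2) / T * ∫ t in D T, G T t) atTop (𝓝 0) := by
    intro D hD hx
    have h1 := tendsto_finsetSum (univ : Finset (Fin k)) fun j _ => (hx _ (ha j)).const_mul (κ j / s)
    have h2 := tendsto_finsetSum (univ : Finset (Fin l)) fun i _ => (hx _ (hb i)).const_mul (τ i / s)
    simp only [mul_zero, sum_const_zero] at h1 h2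
    have h3 := (h1.const_mul (1 / 2)).add (h2.const_mul (1 / 2))
    simp only [mul_zero, add_zero] at h3
    refine h3.congr' ?_
    filter_upwards [hlt] with T hT
    have e : G T = fun t => 1 / 2 * (∑ j, κ j / s * za (δ T) (a j) t ^ (2 * s)) +
      1 / 2 * (∑ i, τ i / s * za (δ T) (b i) t ^ (2 * s)) := funext (hG T)
    have i1 : ∀ j, IntegrableOn (fun t => κ j / s * za (δ T) (a j) t ^ (2 * s)) (D T) := fun j =>
      ((ic hT (a j) (by positivity)).mono_set (hD T)).const_mul _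
    have i2 : ∀ i, IntegrableOn (fun t => τ i / s * za (δ T) (b i) t ^ (2 * s)) (D T) := fun i =>
      ((ic hT (b i) (by positivity)).mono_set (hD T)).const_mul _
    rw [e, integral_add ((integrable_finsetSum _ fun j _ => i1 j).const_mul _) ((integrable_finsetSum _ fun i _ => i2 i).const_mul _),
      integral_const_mul, integral_const_mul, integral_finsetSum _ fun j _ => i1 j, integral_finsetSum _ fun i _ => i2 i]
    simp_rw [integral_const_mul]
    have e5 : ∀ (A : ℝ) (n : ℕ) (u v : Fin n → ℝ), ∑ j, u j * (A * v j) = A * ∑ j, u j * v j := by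
      intro A n u v
      rw [mul_sum]
      exact sum_congr rfl fun j _ => by ring
    rw [e5, e5]
    ring
  refine ⟨fun hcase => ?_, fun hs2 => ?_⟩
  · have hE'' : ∀ T, MeasurableSet (E' T) ∧ E' T ⊆ E T := fun T => ⟨(hE' T).1, (hE' T).2.1⟩
    have h5 := transfer_ae (V := ℂ) (f := F) (g := G) hc0 hE1 hE'' hFi hGi hnorm hoff
      (hsum (fun T => Set.sdiff_subset.trans (hE1 T).2) fun x hx => by
        obtain ⟨i, hi⟩ : ∃ i, f i = x := by
          rw [hf] at hx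
          exact hx
        refine diff_E hc hs0 hcase hδ hδL hE1 hE'' x ?_ (h4 x hx) (hone _ hx s hsQ)
        rw [← hi]
        exact hV i)
    refine h5.congr fun T => ?_
    rw [Complex.real_smul]
  · have h5 := transfer_ae (V := ℂ) (f := F) (g := G) (E' := fun _ => ∅) hc0 hE1 (fun T => ⟨MeasurableSet.empty, Set.empty_subset _⟩)
      hFi hGi hnorm hoff
      (hsum (fun T => Set.sdiff_subset.trans (hE1 T).2) fun x hx => by
        simp only [Set.sdiff_empty]
        exact small_E hs0 hs2 hδ hδL hE1 x (hone _ hx s hsQ))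
    refine h5.congr fun T => ?_
    rw [Complex.real_smul, Set.sdiff_empty]

end Pool.Agent.Y753.SHR
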