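import Pool.Agent.Y753.SHR.R18
import Pool.Agent.Y753.NL.Pw6

set_option autoImplicit false

/-! Powers of zeta and their Dirichlet polynomials, off a small set of large values. -/

namespace Pool.Agent.Y753.SHR

open Finset Filter MeasureTheory MonoidAlgebra Topology
open Pool.Agent.Y755
open Pool.Agent.W184.NZ
open Pool.Agent.W184 (zn zn_nonneg zn_cont zn_le')
open Pool.Agent.Y753.NL
open Pool.Agent.Y753.SH
open Pool.Agent.H306R2 (dv dv_nonneg dv_one aF aF_pos)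

/-- the mass -/
theorem mass_V {δ : ℝ → ℝ} (hδ0 : Tendsto δ atTop (𝓝 0)) (hδL : Tendsto (fun T => δ T * Real.log T) atTop atTop)
    {U : ℝ → Set ℝ} {N : ℝ → ℕ} (hN : Tendsto N atTop atTop) (hU : ∀ᶠ T in atTop, Stg2 (N T) T (δ T) (U T)) {α : ℝ} (hα : 0 < α) :
    Tendsto (fun T => (2 * δ T) ^ (α ^ 2) * ((∫ t in U T, zn (1 / 2 + δ T) t ^ (2 * α)) / T)) atTop (𝓝 (aF α)) := by
  have hpos := pos_path hδL
  have hD := DD_asym hα hpos hδ0
  set I : ℝ → ℝ := fun T => (∫ t in U T, zn (1 / 2 + δ T) t ^ (2 * α)) / T with hI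
  have hr : Tendsto (fun T => I T / DD α (δ T)) atTop (nhds 1) := by
    rw [tendsto_iff_norm_sub_tendsto_zero]
    refine squeeze_zero' (Eventually.of_forall fun T => norm_nonneg _) ?_ (inv_N hN)
    obtain ⟨k, hk⟩ := exists_nat_ge α
    filter_upwards [hU, hpos, hN.eventually_ge_atTop k, eventually_gt_atTop 0] with T hT hT0 hNk hTp
    have hNk' : (k:ℝ) ≤ N T := by exact_mod_cast hNk
    have g1 := hT.2.1 α hα (by linarith)
    have hD1 := DD_ge_one hα hT0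
    have hD0 : 0 < DD α (δ T) := by linarith
    rw [Real.norm_eq_abs]
    have e1 : I T / DD α (δ T) - 1 = ((∫ t in U T, zn (1 / 2 + δ T) t ^ (2 * α)) - T * DD α (δ T)) / (T * DD α (δ T)) := by
      rw [hI]; field_simp
    rw [e1, abs_div, abs_of_pos (by positivity : 0 < T * DD α (δ T)), div_le_iff₀ (by positivity)]
    exact g1
  have h3 := hD.mul hr
  rw [mul_one] at h3
  refine h3.congr' ?_
  filter_upwards [hpos] with T hT
  have hD1 := DD_ge_one hα hT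
  have : DD α (δ T) ≠ 0 := by linarith
  show _ = (2 * δ T) ^ (α ^ 2) * I T
  field_simp

/-- the complete mean square of the short Dirichlet polynomial -/
theorem short_up {δ : ℝ → ℝ} (hδ0 : Tendsto δ atTop (𝓝 0)) (hδL : Tendsto (fun T => δ T * Real.log T) atTop atTop)
    {k : ℕ} (hk : 1 ≤ k) {c : ℝ} (hc : aF k < c) :
    ∀ᶠ T : ℝ in atTop, (2 * δ T) ^ ((k:ℝ) ^ 2) / T *
      ∫ t in Set.Icc 0 T, ‖es (1 / 2 + δ T + t * Complex.I) (DN k ⌊(2 * T) ^ ((1:ℝ)/10)⌋₊)‖ ^ 2 ≤ c := by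
  have hk0 : (0:ℝ) < k := by exact_mod_cast hk
  have hpos := pos_path hδL
  have hD := DD_asym hk0 hpos hδ0
  have hw : Tendsto (fun T : ℝ => 1 + 2 * (2 * T) ^ ((4:ℝ)/10) / T) atTop (𝓝 (1 + 0)) := by
    refine tendsto_const_nhds.add ?_
    have h1 : Tendsto (fun T : ℝ => 2 * (2:ℝ) ^ ((4:ℝ)/10) * T ^ (-((6:ℝ)/10))) atTop (𝓝 (2 * (2:ℝ) ^ ((4:ℝ)/10) * 0)) :=
      (tendsto_rpow_neg_atTop (by norm_num)).const_mul _
    rw [mul_zero] at h1
    refine h1.congr' ?_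
    filter_upwards [eventually_gt_atTop 0] with T hT
    rw [Real.mul_rpow (by norm_num) hT.le]
    have e1 : T ^ (-((6:ℝ)/10)) = T ^ ((4:ℝ)/10) / T := by
      have : (-((6:ℝ)/10)) = (4:ℝ)/10 - 1 := by norm_num
      rw [this, Real.rpow_sub hT, Real.rpow_one]
    rw [e1]
    ring
  rw [add_zero] at hw
  have hlim := hD.mul hw
  rw [mul_one] at hlim
  filter_upwards [hlim.eventually (gt_mem_nhds hc), hpos, eventually_ge_atTop 1,
    hδ0.eventually (gt_mem_nhds (show (0:ℝ) < 1 / 2 by norm_num))] with T h1 h2 h3 h4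
  have hT0 : 0 < T := by linarith
  obtain ⟨M, hM⟩ : ∃ M, M = ⌊(2 * T) ^ ((1:ℝ)/10)⌋₊ := ⟨_, rfl⟩
  rw [← hM]
  have hM1 : (M:ℝ) ≤ (2 * T) ^ ((1:ℝ)/10) := by rw [hM]; exact Nat.floor_le (by positivity)
  have h5 := Pool.Agent.Y755.mvt h2.le (DN_Bd (k:ℝ) M) T
  have h6 := DN_l1 (a := (k:ℝ)) hk0 h2 h4.le M
  have h7 := ip_DN_le (a := (k:ℝ)) hk0 h2 M
  have hD0 : 0 ≤ DD k (δ T) := by have := DD_ge_one hk0 h2; linarith
  have h8 := (abs_le.mp h5).2
  have h9 : (M:ℝ) ^ 4 ≤ (2 * T) ^ ((4:ℝ)/10) := by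
    calc (M:ℝ) ^ 4 ≤ ((2 * T) ^ ((1:ℝ)/10)) ^ 4 := pow_le_pow_left₀ (Nat.cast_nonneg _) hM1 4
      _ = _ := by rw [← Real.rpow_natCast, ← Real.rpow_mul (by positivity)]; norm_num
  have h10 : ∫ t in (0:ℝ)..T, ‖es (1 / 2 + δ T + t * Complex.I) (DN k M)‖ ^ 2 ≤ T * DD k (δ T) * (1 + 2 * (2 * T) ^ ((4:ℝ)/10) / T) := by
    have h11 : 2 * (M:ℝ) * l1' (DN k M) ^ 2 ≤ 2 * (2 * T) ^ ((4:ℝ)/10) * DD k (δ T) := by
      calc 2 * (M:ℝ) * l1' (DN k M) ^ 2 ≤ 2 * (M:ℝ) * (DD k (δ T) * (M:ℝ) ^ 3) := mul_le_mul_of_nonneg_left h6 (by positivity)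
        _ = 2 * (M:ℝ) ^ 4 * DD k (δ T) := by ring
        _ ≤ _ := by
          refine mul_le_mul_of_nonneg_right ?_ hD0
          linarith
    have h12 : T * ip (δ T) (DN k M) (DN k M) ≤ T * DD k (δ T) := mul_le_mul_of_nonneg_left h7 hT0.le
    have e2 : T * DD k (δ T) * (1 + 2 * (2 * T) ^ ((4:ℝ)/10) / T) = T * DD k (δ T) + 2 * (2 * T) ^ ((4:ℝ)/10) * DD k (δ T) := by
      field_simp
    rw [e2]
    linarith
  rw [integral_Icc_eq_integral_Ioc, ← intervalIntegral.integral_of_le hT0.le]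
  refine le_trans ?_ h1.le
  refine (mul_le_mul_of_nonneg_left h10 (by positivity)).trans (le_of_eq ?_)
  field_simp

lemma es_ic {δ T : ℝ} (k : ℝ) (M : ℕ) :
    IntegrableOn (fun t : ℝ => ‖es (1 / 2 + δ + t * Complex.I) (DN k M)‖ ^ 2) (Set.Icc 0 T) :=
  ((es_lc δ (DN_Bd k M)).norm.pow 2).continuousOn.integrableOn_compact isCompact_Icc

/-- the exceptional set carries little of the mean square of the Dirichlet polynomials -/
theorem es_E {δ : ℝ → ℝ} (hδ0 : Tendsto δ atTop (𝓝 0)) (hδL : Tendsto (fun T => δ T * Real.log T) atTop atTop)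
    {U : ℝ → Set ℝ} {S : ℝ → ℕ} (hS : Tendsto S atTop atTop) (hU : ∀ᶠ T in atTop, Stg2 (S T) T (δ T) (U T))
    {E : ℝ → Set ℝ} (hE : ∀ T, MeasurableSet (E T) ∧ E T ⊆ Set.Icc 0 T) (hEU : ∀ᶠ T in atTop, Set.Icc 0 T \ E T = U T)
    {k : ℕ} (hk : 1 ≤ k) {N : ℝ → ℕ} (hN : ∀ᶠ T in atTop, (N T : ℝ) ≤ T)
    (hN' : Tendsto (fun T => δ T * Real.log (N T)) atTop atTop) :
    Tendsto (fun T => (2 * δ T) ^ ((k:ℝ) ^ 2) / T * ∫ t in E T, ‖es (1 / 2 + δ T + t * Complex.I) (DN k (N T))‖ ^ 2)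
      atTop (𝓝 0) := by
  have hk0 : (0:ℝ) < k := by exact_mod_cast hk
  have hpos := pos_path hδL
  have hlt : ∀ᶠ T in atTop, δ T < 1 / 2 := hδ0.eventually (gt_mem_nhds (by norm_num))
  have ha := aF_pos hk0
  obtain ⟨M, hM⟩ : ∃ M : ℝ → ℕ, ∀ T, M T = ⌊(2 * T) ^ ((1:ℝ)/10)⌋₊ := ⟨_, fun _ => rfl⟩
  have hM1 : ∀ᶠ T in atTop, (M T : ℝ) ≤ T := by simp_rw [hM]; exact N0_le
  have hM2 : Tendsto (fun T => δ T * Real.log (M T)) atTop atTop := by simp_rw [hM]; exact N0_log hpos hδL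
  have happ := appr hδ0 hδL hS hU hk hM1 hM2
  have hmass := mass_V hδ0 hδL hS hU hk0
  -- the short one
  have hshort : Tendsto (fun T => (2 * δ T) ^ ((k:ℝ) ^ 2) / T * ∫ t in E T, ‖es (1 / 2 + δ T + t * Complex.I) (DN k (M T))‖ ^ 2)
      atTop (𝓝 0) := by
    rw [Metric.tendsto_nhds]
    intro ε hε
    obtain ⟨η, hη, hη2⟩ : ∃ η : ℝ, 0 < η ∧ aF k * (1 + η) < aF k + ε / 4 := by
      refine ⟨ε / (8 * aF k), by positivity, ?_⟩
      have : aF k * (1 + ε / (8 * aF k)) = aF k + ε / 8 := by field_simp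
      rw [this]; linarith
    have hup := short_up hδ0 hδL hk (show aF k < aF k + ε / 4 by linarith)
    simp_rw [← hM] at hup
    have hlow : Tendsto (fun T => ((2 * δ T) ^ ((k:ℝ) ^ 2) * ((∫ t in U T, zn (1 / 2 + δ T) t ^ (2 * (k:ℝ))) / T) -
        (1 + 1 / η) * ((2 * δ T) ^ ((k:ℝ) ^ 2) * ((∫ t in U T, ‖riemannZeta (1 / 2 + δ T + t * Complex.I) ^ k -
      es (1 / 2 + δ T + t * Complex.I) (DN k (M T))‖ ^ 2) / T))) / (1 + η)) atTop (𝓝 (aF k / (1 + η))) := by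
      have h1 := (hmass.sub (happ.const_mul (1 + 1 / η))).div_const (1 + η)
      rw [mul_zero, sub_zero] at h1
      exact h1
    have hη3 : aF k - ε / 4 < aF k / (1 + η) := by
      rw [lt_div_iff₀ (by positivity)]
      nlinarith
    filter_upwards [hup, hlow.eventually (lt_mem_nhds hη3), hpos, hlt, eventually_gt_atTop 0, hEU, hU] with T h1 h2 h3 h4 h5 h6 h7
    have hUm : MeasurableSet (U T) := by rw [← h6]; exact measurableSet_Icc.diff (hE T).1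
    have hUs : U T ⊆ Set.Icc 0 T := by rw [← h6]; exact Set.sdiff_subset
    obtain ⟨p, hp⟩ : ∃ p, p = (2 * δ T) ^ ((k:ℝ) ^ 2) := ⟨_, rfl⟩
    rw [← hp] at h1 h2 ⊢
    have hp0 : 0 < p := by rw [hp]; positivity
    have hzc : Continuous fun t : ℝ => riemannZeta (1 / 2 + δ T + t * Complex.I) ^ k := (zl_cont h4).pow k
    have hcc : Continuous fun t : ℝ => es (1 / 2 + δ T + t * Complex.I) (DN k (M T)) := es_lc _ (DN_Bd _ _)
    have i1 : IntegrableOn (fun t : ℝ => ‖es (1 / 2 + δ T + t * Complex.I) (DN k (M T))‖ ^ 2) (Set.Icc 0 T) := es_ic _ _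
    have i2 : IntegrableOn (fun t : ℝ => ‖riemannZeta (1 / 2 + δ T + t * Complex.I) ^ k -
      es (1 / 2 + δ T + t * Complex.I) (DN k (M T))‖ ^ 2) (Set.Icc 0 T) :=
      ((hzc.sub hcc).norm.pow 2).continuousOn.integrableOn_compact isCompact_Icc
    have i3 : IntegrableOn (fun t : ℝ => zn (1 / 2 + δ T) t ^ (2 * (k:ℝ))) (Set.Icc 0 T) := by
      simp_rw [zn_za]
      exact ((za_cont h4 0).rpow_const fun t => Or.inr (by positivity)).continuousOn.integrableOn_compact isCompact_Icc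
    have j1 : ∫ t in U T, zn (1 / 2 + δ T) t ^ (2 * (k:ℝ)) ≤ (1 + η) * (∫ t in U T, ‖es (1 / 2 + δ T + t * Complex.I) (DN k (M T))‖ ^ 2) +
        (1 + 1 / η) * ∫ t in U T, ‖riemannZeta (1 / 2 + δ T + t * Complex.I) ^ k -
      es (1 / 2 + δ T + t * Complex.I) (DN k (M T))‖ ^ 2 := by
      rw [← integral_const_mul, ← integral_const_mul, ← integral_add ((i1.mono_set hUs).const_mul _) ((i2.mono_set hUs).const_mul _)]
      refine setIntegral_mono_on (i3.mono_set hUs) (((i1.mono_set hUs).const_mul _).add ((i2.mono_set hUs).const_mul _)) hUm fun t _ => ?_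
      have e1 : zn (1 / 2 + δ T) t ^ (2 * (k:ℝ)) = ‖riemannZeta (1 / 2 + δ T + t * Complex.I) ^ k‖ ^ 2 := by
        unfold zn
        have : (2 * (k:ℝ)) = ((k * 2 : ℕ) : ℝ) := by push_cast; ring
        rw [this, Real.rpow_natCast, norm_pow, ← pow_mul]
        push_cast
        rfl
      rw [e1]
      obtain ⟨x, hx⟩ : ∃ x, x = riemannZeta (1 / 2 + δ T + t * Complex.I) ^ k := ⟨_, rfl⟩
      obtain ⟨y, hy⟩ : ∃ y, y = es (1 / 2 + δ T + t * Complex.I) (DN k (M T)) := ⟨_, rfl⟩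
      rw [← hx, ← hy]
      have h8 : ‖x‖ ≤ ‖y‖ + ‖x - y‖ := by
        have := norm_add_le y (x - y)
        rwa [add_sub_cancel] at this
      have h9 : ‖x‖ ^ 2 ≤ (‖y‖ + ‖x - y‖) ^ 2 := pow_le_pow_left₀ (norm_nonneg _) h8 2
      have h10 : 0 ≤ (η * ‖y‖ - ‖x - y‖) ^ 2 / η := by positivity
      have h11 : (η * ‖y‖ - ‖x - y‖) ^ 2 / η = η * ‖y‖ ^ 2 - 2 * ‖y‖ * ‖x - y‖ + 1 / η * ‖x - y‖ ^ 2 := by
        field_simp
        ring
      nlinarith
    have j2 : ∫ t in E T, ‖es (1 / 2 + δ T + t * Complex.I) (DN k (M T))‖ ^ 2 =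
        (∫ t in Set.Icc 0 T, ‖es (1 / 2 + δ T + t * Complex.I) (DN k (M T))‖ ^ 2) -
        ∫ t in U T, ‖es (1 / 2 + δ T + t * Complex.I) (DN k (M T))‖ ^ 2 := by
      have e1 := setIntegral_sdiff (μ := volume) (hE T).1 i1 (hE T).2
      rw [h6] at e1
      linarith
    have j3 : 0 ≤ ∫ t in E T, ‖es (1 / 2 + δ T + t * Complex.I) (DN k (M T))‖ ^ 2 := integral_nonneg fun t => by positivity
    rw [Real.dist_eq, sub_zero, abs_of_nonneg (by positivity)]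
    obtain ⟨A, hA⟩ : ∃ A, A = ∫ t in U T, ‖es (1 / 2 + δ T + t * Complex.I) (DN k (M T))‖ ^ 2 := ⟨_, rfl⟩
    obtain ⟨B, hB⟩ : ∃ B, B = ∫ t in U T, ‖riemannZeta (1 / 2 + δ T + t * Complex.I) ^ k -
      es (1 / 2 + δ T + t * Complex.I) (DN k (M T))‖ ^ 2 := ⟨_, rfl⟩
    obtain ⟨C, hC⟩ : ∃ C, C = ∫ t in U T, zn (1 / 2 + δ T) t ^ (2 * (k:ℝ)) := ⟨_, rfl⟩
    rw [← hA, ← hB, ← hC] at j1
    rw [← hB, ← hC] at h2
    rw [j2, ← hA, mul_sub]
    have h12 : (p * (C / T) - (1 + 1 / η) * (p * (B / T))) / (1 + η) ≤ p / T * A := by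
      rw [div_le_iff₀ (by positivity)]
      have e2 : p * (C / T) - (1 + 1 / η) * (p * (B / T)) = p / T * (C - (1 + 1 / η) * B) := by ring
      have e3 : p / T * A * (1 + η) = p / T * ((1 + η) * A) := by ring
      rw [e2, e3]
      exact mul_le_mul_of_nonneg_left (by linarith) (by positivity)
    linarith
  -- the length
  have hlen := len_path hδ0 hpos hk0 hM1 hN hM2 hN'
  have hub := (hshort.const_mul 2).add (hlen.const_mul 2)
  simp only [mul_zero, add_zero] at hub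
  refine squeeze_zero' ?_ ?_ hub
  · filter_upwards [hpos, eventually_gt_atTop 0] with T h1 h2
    have : 0 ≤ ∫ t in E T, ‖es (1 / 2 + δ T + t * Complex.I) (DN k (N T))‖ ^ 2 := integral_nonneg fun t => by positivity
    positivity
  · filter_upwards [hpos, eventually_gt_atTop 0] with T h1 h2
    have i1 : IntegrableOn (fun t : ℝ => ‖es (1 / 2 + δ T + t * Complex.I) (DN k (M T))‖ ^ 2) (E T) := (es_ic _ _).mono_set (hE T).2
    have i2 : IntegrableOn (fun t : ℝ => ‖es (1 / 2 + δ T + t * Complex.I) (DN k (N T))‖ ^ 2) (E T) := (es_ic _ _).mono_set (hE T).2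
    have hcd : Continuous fun t : ℝ => ‖es (1 / 2 + δ T + t * Complex.I) (DN k (M T)) - es (1 / 2 + δ T + t * Complex.I) (DN k (N T))‖ ^ 2 :=
      ((es_lc _ (DN_Bd _ _)).sub (es_lc _ (DN_Bd _ _))).norm.pow 2
    have i3 : IntegrableOn (fun t : ℝ => ‖es (1 / 2 + δ T + t * Complex.I) (DN k (M T)) - es (1 / 2 + δ T + t * Complex.I) (DN k (N T))‖ ^ 2)
      (Set.Icc 0 (2 * T)) := hcd.continuousOn.integrableOn_compact isCompact_Icc
    have hs2 : E T ⊆ Set.Icc 0 (2 * T) := fun t ht => ⟨((hE T).2 ht).1, ((hE T).2 ht).2.trans (by linarith)⟩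
    have j1 : ∫ t in E T, ‖es (1 / 2 + δ T + t * Complex.I) (DN k (N T))‖ ^ 2 ≤
        2 * (∫ t in E T, ‖es (1 / 2 + δ T + t * Complex.I) (DN k (M T))‖ ^ 2) +
        2 * ∫ t in E T, ‖es (1 / 2 + δ T + t * Complex.I) (DN k (M T)) - es (1 / 2 + δ T + t * Complex.I) (DN k (N T))‖ ^ 2 := by
      rw [← integral_const_mul, ← integral_const_mul, ← integral_add (i1.const_mul _) ((i3.mono_set hs2).const_mul _)]
      refine setIntegral_mono_on i2 ((i1.const_mul _).add ((i3.mono_set hs2).const_mul _)) (hE T).1 fun t _ => ?_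
      have e1 : es (1 / 2 + δ T + t * Complex.I) (DN k (N T)) = es (1 / 2 + δ T + t * Complex.I) (DN k (M T)) +
          -(es (1 / 2 + δ T + t * Complex.I) (DN k (M T)) - es (1 / 2 + δ T + t * Complex.I) (DN k (N T))) := by ring
      have e2 := sq_two (es (1 / 2 + δ T + t * Complex.I) (DN k (M T)))
        (-(es (1 / 2 + δ T + t * Complex.I) (DN k (M T)) - es (1 / 2 + δ T + t * Complex.I) (DN k (N T))))
      rw [← e1, norm_neg] at e2
      exact e2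
    have j2 : ∫ t in E T, ‖es (1 / 2 + δ T + t * Complex.I) (DN k (M T)) - es (1 / 2 + δ T + t * Complex.I) (DN k (N T))‖ ^ 2 ≤
        ∫ t in (0:ℝ)..(2 * T), ‖es (1 / 2 + δ T + t * Complex.I) (DN k (M T)) - es (1 / 2 + δ T + t * Complex.I) (DN k (N T))‖ ^ 2 := by
      rw [intervalIntegral.integral_of_le (by linarith), ← integral_Icc_eq_integral_Ioc]
      exact setIntegral_mono_set i3 (Eventually.of_forall fun t => by positivity) hs2.eventuallyLE
    have hp : 0 ≤ (2 * δ T) ^ ((k:ℝ) ^ 2) / T := by positivity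
    refine (mul_le_mul_of_nonneg_left (j1.trans (add_le_add_right (mul_le_mul_of_nonneg_left j2 zero_le_two) _)) hp).trans (le_of_eq ?_)
    ring

end Pool.Agent.Y753.SHR
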