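import Pool.Agent.Y753.SHR.R21

set_option autoImplicit false

/-! Powers of zeta and their Dirichlet polynomials, off a small set of large values: the theorem. -/

namespace Pool.Agent.Y753.SHR

open Finset Filter MeasureTheory MonoidAlgebra Topology
open Pool.Agent.Y755
open Pool.Agent.W184.NZ
open Pool.Agent.W184 (zn zn_nonneg zn_cont zn_le')
open Pool.Agent.Y753.NL
open Pool.Agent.Y753.SH
open Pool.Agent.H306R2 (dv dv_nonneg dv_one aF aF_pos)

/-- the approximation, off a small set of large values -/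
theorem pow_small {δ : ℝ → ℝ} (hδ : Tendsto δ atTop (𝓝 0)) (hδL : Tendsto (fun T => δ T * Real.log T) atTop atTop)
    {c : ℝ} (hc : 0 ≤ c) :
    ∃ E : ℝ → Set ℝ, (∀ T, MeasurableSet (E T) ∧ E T ⊆ Set.Icc 0 T ∧ ∀ t ∈ E T, (δ T) ^ (-(2 + c)) < za (δ T) 0 t) ∧
      Tendsto (fun T => (volume (E T)).toReal / (T * (δ T) ^ (4 + 4 * c))) atTop (𝓝 0) ∧
      ∀ k : ℕ, 1 ≤ k → ∀ N : ℝ → ℕ, (∀ᶠ T in atTop, (N T : ℝ) ≤ T) → Tendsto (fun T => δ T * Real.log (N T)) atTop atTop →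
        (((k:ℝ) ≤ 2 ∨ 4 + 4 * c ≤ 2 * k) → Tendsto (fun T => (2 * δ T) ^ ((k:ℝ) ^ 2) / T * ∫ t in Set.Icc 0 T \ E T,
          ‖riemannZeta (1 / 2 + δ T + t * Complex.I) ^ k - es (1 / 2 + δ T + t * Complex.I) (DN k (N T))‖ ^ 2) atTop (𝓝 0)) ∧
        ((k:ℝ) ≤ 2 → Tendsto (fun T => (2 * δ T) ^ ((k:ℝ) ^ 2) / T * ∫ t in Set.Icc 0 T,
          ‖riemannZeta (1 / 2 + δ T + t * Complex.I) ^ k - es (1 / 2 + δ T + t * Complex.I) (DN k (N T))‖ ^ 2) atTop (𝓝 0)) := by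
  obtain ⟨U, S, hS, hUm, hU⟩ := path_V hδ hδL
  obtain ⟨E, hEd⟩ : ∃ E : ℝ → Set ℝ, ∀ T, E T = Set.Icc 0 T \ U T := ⟨_, fun _ => rfl⟩
  have hE : ∀ T, MeasurableSet (E T) ∧ E T ⊆ Set.Icc 0 T := fun T => by
    rw [hEd]; exact ⟨measurableSet_Icc.diff (hUm T), Set.sdiff_subset⟩
  have hEU : ∀ᶠ T in atTop, Set.Icc 0 T \ E T = U T := by
    filter_upwards [hU] with T hT
    rw [hEd, Set.sdiff_sdiff_cancel_left hT.1.2.1]
  have hone : ∀ s : ℝ, 0 < s → Tendsto (fun T : ℝ => (2 * δ T) ^ (s ^ 2) / T * ∫ t in Set.Icc 0 T \ E T, za (δ T) 0 t ^ (2 * s))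
      atTop (𝓝 (aF s)) := by
    intro s hs
    refine (mass_V hδ hδL hS hU hs).congr' ?_
    filter_upwards [hEU] with T hT
    rw [hT]
    simp_rw [zn_za]
    ring
  have h4 := small_E (by norm_num) le_rfl hδ hδL hE 0 (hone 2 (by norm_num))
  obtain ⟨E', hE', hvol, hV⟩ := shrink (κ := c) hδ hδL hE (a := fun _ => 0) fun _ => h4
  refine ⟨E', fun T => ⟨(hE' T).1, (hE' T).2.1.trans (hE T).2, fun t ht => ((hE' T).2.2 t ht).choose_spec⟩, hvol, ?_⟩
  intro k hk N hN hN'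
  have hk0 : (0:ℝ) < k := by exact_mod_cast hk
  have hlt : ∀ᶠ T in atTop, δ T < 1 / 2 := hδ.eventually (gt_mem_nhds (by norm_num))
  obtain ⟨f, hf⟩ : ∃ f : ℝ → ℝ → ℝ, ∀ T t, f T t = ‖riemannZeta (1 / 2 + δ T + t * Complex.I) ^ k -
    es (1 / 2 + δ T + t * Complex.I) (DN k (N T))‖ ^ 2 := ⟨_, fun _ _ => rfl⟩
  obtain ⟨g, hg⟩ : ∃ g : ℝ → ℝ → ℝ, ∀ T t, g T t = 2 * za (δ T) 0 t ^ (2 * (k:ℝ)) +
    2 * ‖es (1 / 2 + δ T + t * Complex.I) (DN k (N T))‖ ^ 2 := ⟨_, fun _ _ => rfl⟩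
  simp_rw [← hf]
  have hoff : Tendsto (fun T => ((2 * δ T) ^ ((k:ℝ) ^ 2) / T) • ∫ t in Set.Icc 0 T \ E T, f T t) atTop (𝓝 0) := by
    refine (appr hδ hδL hS hU hk hN hN').congr' ?_
    filter_upwards [hEU] with T hT
    rw [hT, smul_eq_mul]
    simp_rw [hf]
    ring
  have hes := es_E hδ hδL hS hU hE hEU hk hN hN'
  have hc0 : ∀ᶠ T in atTop, 0 ≤ (2 * δ T) ^ ((k:ℝ) ^ 2) / T := by
    filter_upwards [pos_path hδL, eventually_gt_atTop 0] with T t1 t2
    positivity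
  have hfi : ∀ᶠ T in atTop, IntegrableOn (f T) (Set.Icc 0 T) := by
    filter_upwards [hlt] with T hT
    have e : f T = fun t : ℝ => ‖riemannZeta (1 / 2 + δ T + t * Complex.I) ^ k -
      es (1 / 2 + δ T + t * Complex.I) (DN k (N T))‖ ^ 2 := funext (hf T)
    rw [e]
    exact ((((zl_cont hT).pow k).sub (es_lc _ (DN_Bd _ _))).norm.pow 2).continuousOn.integrableOn_compact isCompact_Icc
  have hgi : ∀ᶠ T in atTop, IntegrableOn (g T) (Set.Icc 0 T) := by
    filter_upwards [hlt] with T hT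
    have e : g T = fun t : ℝ => 2 * za (δ T) 0 t ^ (2 * (k:ℝ)) +
      2 * ‖es (1 / 2 + δ T + t * Complex.I) (DN k (N T))‖ ^ 2 := funext (hg T)
    rw [e]
    exact ((((za_cont hT 0).rpow_const fun t => Or.inr (by positivity)).continuousOn.integrableOn_compact isCompact_Icc).const_mul _).add
      ((es_ic _ _).const_mul _)
  have hfg : ∀ᶠ T : ℝ in atTop, ∀ t, ‖f T t‖ ≤ g T t := by
    refine Eventually.of_forall fun T t => ?_
    have e1 : za (δ T) 0 t ^ (2 * (k:ℝ)) = ‖riemannZeta (1 / 2 + δ T + t * Complex.I) ^ k‖ ^ 2 := by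
      have e0 : za (δ T) 0 t = ‖riemannZeta (1 / 2 + δ T + t * Complex.I)‖ := by
        unfold za
        congr 2
        push_cast
        ring
      have : (2 * (k:ℝ)) = ((k * 2 : ℕ) : ℝ) := by push_cast; ring
      rw [this, Real.rpow_natCast, e0, norm_pow, ← pow_mul]
    rw [hf, hg, Real.norm_of_nonneg (by positivity), e1]
    have e2 := sq_two (riemannZeta (1 / 2 + δ T + t * Complex.I) ^ k) (-(es (1 / 2 + δ T + t * Complex.I) (DN k (N T))))
    rw [← sub_eq_add_neg, norm_neg] at e2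
    exact e2
  have hsum : ∀ {D : ℝ → Set ℝ}, (∀ T, MeasurableSet (D T) ∧ D T ⊆ E T) →
      Tendsto (fun T : ℝ => (2 * δ T) ^ ((k:ℝ) ^ 2) / T * ∫ t in D T, za (δ T) 0 t ^ (2 * (k:ℝ))) atTop (𝓝 0) →
      Tendsto (fun T : ℝ => (2 * δ T) ^ ((k:ℝ) ^ 2) / T * ∫ t in D T, g T t) atTop (𝓝 0) := by
    intro D hD hz
    have h1 := (hz.const_mul 2).add (hes.const_mul 2)
    simp only [mul_zero, add_zero] at h1
    refine squeeze_zero' ?_ ?_ h1
    · filter_upwards [hc0] with T t1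
      refine mul_nonneg t1 (setIntegral_nonneg (hD T).1 fun t _ => ?_)
      rw [hg]
      have := za_nonneg (δ T) 0 t
      positivity
    · filter_upwards [hc0, hlt] with T t1 hT
      have i1 : IntegrableOn (fun t => za (δ T) 0 t ^ (2 * (k:ℝ))) (D T) :=
        ((((za_cont hT 0).rpow_const fun t => Or.inr (by positivity)).continuousOn.integrableOn_compact isCompact_Icc).mono_set
          ((hD T).2.trans (hE T).2))
      have i2 : IntegrableOn (fun t : ℝ => ‖es (1 / 2 + δ T + t * Complex.I) (DN k (N T))‖ ^ 2) (E T) := (es_ic _ _).mono_set (hE T).2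
      have e : g T = fun t : ℝ => 2 * za (δ T) 0 t ^ (2 * (k:ℝ)) +
        2 * ‖es (1 / 2 + δ T + t * Complex.I) (DN k (N T))‖ ^ 2 := funext (hg T)
      rw [e, integral_add (i1.const_mul _) ((i2.mono_set (hD T).2).const_mul _), integral_const_mul, integral_const_mul]
      have h5 : ∫ t in D T, ‖es (1 / 2 + δ T + t * Complex.I) (DN k (N T))‖ ^ 2 ≤
          ∫ t in E T, ‖es (1 / 2 + δ T + t * Complex.I) (DN k (N T))‖ ^ 2 :=
        setIntegral_mono_set i2 (Eventually.of_forall fun t => by positivity) (hD T).2.eventuallyLE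
      have h6 := mul_le_mul_of_nonneg_left h5 t1
      nlinarith
  refine ⟨fun hcase => ?_, fun hk2 => ?_⟩
  · have hE'' : ∀ T, MeasurableSet (E' T) ∧ E' T ⊆ E T := fun T => ⟨(hE' T).1, (hE' T).2.1⟩
    exact transfer (V := ℝ) hc0 hE hE'' hfi hgi hfg hoff
      (hsum (D := fun T => E T \ E' T) (fun T => ⟨(hE T).1.diff (hE' T).1, Set.sdiff_subset⟩)
        (diff_E hc hk0 hcase hδ hδL hE hE'' 0 (hV 0) h4 (hone _ hk0)))
  · have h5 := transfer (V := ℝ) (E' := fun _ => ∅) hc0 hE (fun T => ⟨MeasurableSet.empty, Set.empty_subset _⟩) hfi hgi hfg hoff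
      (by
        simp only [Set.sdiff_empty]
        exact hsum (fun T => ⟨(hE T).1, subset_rfl⟩) (small_E hk0 hk2 hδ hδL hE 0 (hone _ hk0)))
    simp only [Set.sdiff_empty] at h5
    exact h5

end Pool.Agent.Y753.SHR
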