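import Pool.Agent.Y753.SHR.R18

set_option autoImplicit false

/-! The law under the complete moment measure, orders at most four. -/

namespace Pool.Agent.Y753.SHR

open Finset Filter MeasureTheory MonoidAlgebra Topology ProbabilityTheory
open Pool.Agent.Y755
open Pool.Agent.W184.NZ
open Pool.Agent.W184 (zn zn_nonneg zn_cont zn_le')
open Pool.Agent.Y753.NL
open Pool.Agent.Y753.SH
open Pool.Agent.H306R2 (dv dv_nonneg dv_one aF aF_pos)

/-- the complete tilted law, with the mass -/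
theorem tilt_compl {δ : ℝ → ℝ} (hδ : Tendsto δ atTop (𝓝 0)) (hδL : Tendsto (fun T => δ T * Real.log T) atTop atTop)
    {α0 : ℝ} (h0 : 0 < α0) (h2 : α0 ≤ 2) {h k : ℕ} (hh : h ≠ 0) (hk : k ≠ 0) (hc : h.Coprime k)
    (F : BoundedContinuousFunction ℝ ℝ) :
    Tendsto (fun T => (((2 * δ T) ^ (α0 ^ 2) / T : ℝ) : ℂ) * ∫ t in (0:ℝ)..T, ((zn (1 / 2 + δ T) t ^ (2 * α0) *
          F ((Real.log (zn (1 / 2 + δ T) t) - α0 * ell (δ T)) / sg (δ T)) : ℝ) : ℂ) * tw h k t) atTop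
          (𝓝 ((aF α0 * (Nu α0 h k * ∫ x, F x ∂(gaussianReal 0 1)) : ℝ) : ℂ)) := by
  obtain ⟨U, N, hN, hUm, hU⟩ := path_U hδ hδL
  obtain ⟨E, hEd⟩ : ∃ E : ℝ → Set ℝ, ∀ T, E T = Set.Icc 0 T \ U T := ⟨_, fun _ => rfl⟩
  have hE : ∀ T, MeasurableSet (E T) ∧ E T ⊆ Set.Icc 0 T := fun T => by
    rw [hEd]; exact ⟨measurableSet_Icc.diff (hUm T), Set.sdiff_subset⟩
  have hEU : ∀ᶠ T in atTop, Set.Icc 0 T \ E T = U T := by
    filter_upwards [hU] with T hT
    rw [hEd, Set.sdiff_sdiff_cancel_left hT.1.2.1]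
  have hone : Tendsto (fun T : ℝ => (2 * δ T) ^ (α0 ^ 2) / T * ∫ t in Set.Icc 0 T \ E T, za (δ T) 0 t ^ (2 * α0))
      atTop (𝓝 (aF α0)) := by
    refine (mass_U hδ hδL hN hU h0).congr' ?_
    filter_upwards [hEU] with T hT
    rw [hT]
    simp_rw [zn_za]
    ring
  have main := tilt_mass hδ hδL hN hU h0 hh hk hc F
  have hd := small_E h0 h2 hδ hδL hE 0 hone
  have hd' : Tendsto (fun T => (2 * δ T) ^ (α0 ^ 2) / T * ∫ t in E T \ ∅, ‖F‖ * za (δ T) 0 t ^ (2 * α0)) atTop (𝓝 0) := by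
    have h1 := hd.const_mul ‖F‖
    rw [mul_zero] at h1
    refine h1.congr fun T => ?_
    rw [integral_const_mul, Set.sdiff_empty]
    ring
  have hδ2 := hδ.eventually (gt_mem_nhds (show (0:ℝ) < 1 / 2 by norm_num))
  have h5 := transfer (c := fun T => (2 * δ T) ^ (α0 ^ 2) / T) (f := fun T t => ((zn (1 / 2 + δ T) t ^ (2 * α0) *
          F ((Real.log (zn (1 / 2 + δ T) t) - α0 * ell (δ T)) / sg (δ T)) : ℝ) : ℂ) * tw h k t)
    (g := fun T t => ‖F‖ * za (δ T) 0 t ^ (2 * α0)) (E := E) (E' := fun _ => ∅)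
    (L := ((aF α0 * (Nu α0 h k * ∫ x, F x ∂(gaussianReal 0 1)) : ℝ) : ℂ)) ?_ hE
    (fun T => ⟨MeasurableSet.empty, Set.empty_subset _⟩) ?_ ?_ ?_ ?_ hd'
  · refine h5.congr' ?_
    filter_upwards [eventually_gt_atTop 0] with T hT
    rw [Complex.real_smul, Set.sdiff_empty, integral_Icc_eq_integral_Ioc, ← intervalIntegral.integral_of_le hT.le]
  · filter_upwards [pos_path hδL, eventually_gt_atTop 0] with T t1 t2
    positivity
  · filter_upwards [hδ2] with T hT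
    have h1 := FY_U (δ := δ T) (α0 := α0) (l := ell (δ T)) (σ := sg (δ T)) (T := T) subset_rfl (by linarith) h0.le F
    refine (h1.ofReal (𝕜 := ℂ)).mul_bdd (c := 1) (tw_cont h k).aestronglyMeasurable (Eventually.of_forall fun t => ?_)
    rw [tw_norm]
  · filter_upwards [hδ2] with T hT
    exact (((za_cont hT 0).rpow_const fun t => Or.inr (by positivity)).continuousOn.integrableOn_compact isCompact_Icc).const_mul _
  · refine Eventually.of_forall fun T t => ?_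
    rw [norm_mul, tw_norm, mul_one, Complex.norm_real, norm_mul, Real.norm_of_nonneg (Real.rpow_nonneg (zn_nonneg _ _) _), zn_za, mul_comm]
    exact mul_le_mul_of_nonneg_right (F.norm_coe_le_norm _) (Real.rpow_nonneg (za_nonneg _ _ _) _)
  · refine main.congr' ?_
    filter_upwards [hEU] with T hT
    rw [hT, Complex.real_smul]

/-- the ratio -/
theorem tilt_ratio {δ : ℝ → ℝ} (hδ : Tendsto δ atTop (𝓝 0)) (hδL : Tendsto (fun T => δ T * Real.log T) atTop atTop)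
    {α0 : ℝ} (h0 : 0 < α0) (h2 : α0 ≤ 2) {h k : ℕ} (hh : h ≠ 0) (hk : k ≠ 0) (hc : h.Coprime k)
    (F : BoundedContinuousFunction ℝ ℝ) :
    Tendsto (fun T => (∫ t in (0:ℝ)..T, ((zn (1 / 2 + δ T) t ^ (2 * α0) *
          F ((Real.log (zn (1 / 2 + δ T) t) - α0 * ell (δ T)) / sg (δ T)) : ℝ) : ℂ) * tw h k t) /
        ((∫ t in (0:ℝ)..T, zn (1 / 2 + δ T) t ^ (2 * α0) : ℝ) : ℂ)) atTop
          (𝓝 ((Nu α0 h k * ∫ x, F x ∂(gaussianReal 0 1) : ℝ) : ℂ)) := by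
  have hm : Tendsto (fun T : ℝ => (2 * δ T) ^ (α0 ^ 2) / T * ∫ t in (0:ℝ)..T, zn (1 / 2 + δ T) t ^ (2 * α0)) atTop (𝓝 (aF α0)) := by
    obtain ⟨U, N, hN, hUm, hU⟩ := path_U hδ hδL
    obtain ⟨E, hEd⟩ : ∃ E : ℝ → Set ℝ, ∀ T, E T = Set.Icc 0 T \ U T := ⟨_, fun _ => rfl⟩
    have hE : ∀ T, MeasurableSet (E T) ∧ E T ⊆ Set.Icc 0 T := fun T => by
      rw [hEd]; exact ⟨measurableSet_Icc.diff (hUm T), Set.sdiff_subset⟩
    have hone : Tendsto (fun T : ℝ => (2 * δ T) ^ (α0 ^ 2) / T * ∫ t in Set.Icc 0 T \ E T, za (δ T) 0 t ^ (2 * α0))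
        atTop (𝓝 (aF α0)) := by
      refine (mass_U hδ hδL hN hU h0).congr' ?_
      filter_upwards [hU] with T hT
      rw [hEd, Set.sdiff_sdiff_cancel_left hT.1.2.1]
      simp_rw [zn_za]
      ring
    have h3 := hone.add (small_E h0 h2 hδ hδL hE 0 hone)
    rw [add_zero] at h3
    refine h3.congr' ?_
    filter_upwards [eventually_gt_atTop 0, hδ.eventually (gt_mem_nhds (show (0:ℝ) < 1 / 2 by norm_num))] with T hT hT2
    have hint : IntegrableOn (fun t => za (δ T) 0 t ^ (2 * α0)) (Set.Icc 0 T) :=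
      ((za_cont hT2 0).rpow_const fun t => Or.inr (by positivity)).continuousOn.integrableOn_compact isCompact_Icc
    have e1 := setIntegral_sdiff (μ := volume) (hE T).1 hint (hE T).2
    rw [e1, ← mul_add, sub_add_cancel, integral_Icc_eq_integral_Ioc, ← intervalIntegral.integral_of_le hT.le]
    simp_rw [zn_za]
  have hmc := (Complex.continuous_ofReal.tendsto _).comp hm
  have hne : ((aF α0 : ℝ) : ℂ) ≠ 0 := by exact_mod_cast (aF_pos h0).ne'
  have h4 := (tilt_compl hδ hδL h0 h2 hh hk hc F).div hmc hne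
  have e2 : ((aF α0 * (Nu α0 h k * ∫ x, F x ∂(gaussianReal 0 1)) : ℝ) : ℂ) / ((aF α0 : ℝ) : ℂ) =
      ((Nu α0 h k * ∫ x, F x ∂(gaussianReal 0 1) : ℝ) : ℂ) := by
    rw [Complex.ofReal_mul, mul_div_cancel_left₀ _ hne]
  rw [e2] at h4
  refine h4.congr' ?_
  filter_upwards [pos_path hδL, eventually_gt_atTop 0] with T t1 t2
  have hp : (((2 * δ T) ^ (α0 ^ 2) / T : ℝ) : ℂ) ≠ 0 := by
    have : (2 * δ T) ^ (α0 ^ 2) / T ≠ 0 := by positivity
    exact_mod_cast this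
  simp only [Function.comp, Pi.div_apply, Complex.ofReal_mul]
  rw [mul_div_mul_left _ _ hp]

end Pool.Agent.Y753.SHR
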