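import Pool.Agent.Y753.SHR.R2

set_option autoImplicit false

/-! The window for real exponents: closeness. -/

namespace Pool.Agent.Y753.SHR

open Finset Filter MeasureTheory MonoidAlgebra Topology
open Pool.Agent.Y755
open Pool.Agent.W184.NZ
open Pool.Agent.Y753.NL
open Pool.Agent.Y753.SH
open Pool.Agent.H306R2 (dv dv_nonneg dv_one)

/-- the change of weight in a block -/
noncomputable def Yr {k : ℕ} (s : ℝ) (κ h : Fin k → ℝ) (h' : ℝ) (I : Finset ℕ) : PC :=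
  (1 / (2 * s)) • ∑ j, κ j • (sh (h j) (x1 I) - sh h' (x1 I))

lemma Yr_Do {k : ℕ} {s : ℝ} {κ : Fin k → ℝ} (hκ : ∀ j, 0 < κ j) (hs : 0 < s) (hsum : ∑ j, κ j = s) {h : Fin k → ℝ} {h' H δ : ℝ}
    (hH : ∀ j, |h j - h'| ≤ 2 * H * δ) {I : Finset ℕ} (hI : ∀ p ∈ I, p ≠ 0) :
    Do (yb (fun p => min 1 (H * (δ * Real.log p))) I) (Yr s κ h h' I) := by
  intro n
  unfold Yr
  rw [coeff_smul, Finsupp.smul_apply, coeff_sum, Finsupp.finsetSum_apply, yb_coeff, norm_smul, Real.norm_of_nonneg (by positivity)]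
  have e1 : ∀ j, (κ j • (sh (h j) (x1 I) - sh h' (x1 I))).coeff n = κ j • ((if n ∈ I then 1 else 0) *
      ((n:ℂ) ^ (-((h j : ℂ) * Complex.I)) - (n:ℂ) ^ (-((h' : ℂ) * Complex.I)))) := by
    intro j
    rw [coeff_smul, Finsupp.smul_apply, coeff_sub, Finsupp.sub_apply, sh_coeff, sh_coeff, x1_coeff]
    congr 1
    split_ifs <;> push_cast <;> ring
  simp_rw [e1]
  split_ifs with hn
  · have hn0 := hI n hn
    simp only [one_mul]
    have h2 : ‖∑ j : Fin k, κ j • ((n:ℂ) ^ (-((h j : ℂ) * Complex.I)) - (n:ℂ) ^ (-((h' : ℂ) * Complex.I)))‖ ≤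
        s * (2 * min 1 (H * (δ * Real.log n))) := by
      refine (norm_sum_le _ _).trans ?_
      have h3 : ∀ j ∈ (univ : Finset (Fin k)), ‖κ j • ((n:ℂ) ^ (-((h j : ℂ) * Complex.I)) - (n:ℂ) ^ (-((h' : ℂ) * Complex.I)))‖ ≤
          κ j * (2 * min 1 (H * (δ * Real.log n))) := by
        intro j _
        rw [norm_smul, Real.norm_of_nonneg (hκ j).le]
        refine mul_le_mul_of_nonneg_left ?_ (hκ j).le
        rw [mul_min_of_nonneg _ _ (by norm_num : (0:ℝ) ≤ 2)]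
        refine le_min ?_ ?_
        · refine (norm_sub_le _ _).trans ?_
          rw [norm_ncpow hn0, norm_ncpow hn0]; norm_num
        · refine (ncpow_lip hn0 _ _).trans ?_
          have := mul_le_mul_of_nonneg_right (hH j) (Real.log_natCast_nonneg n)
          linarith
      refine (sum_le_sum h3).trans ?_
      rw [← sum_mul, hsum]
    calc 1 / (2 * s) * _ ≤ 1 / (2 * s) * (s * (2 * min 1 (H * (δ * Real.log n)))) :=
          mul_le_mul_of_nonneg_left h2 (by positivity)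
      _ = _ := by field_simp
  · simp

/-- the damped polynomial -/
noncomputable def Hr {k : ℕ} (κ h : Fin k → ℝ) (s : ℝ) (f : P1) : PC :=
  ∑ n ∈ f.coeff.support, single n (dr κ h n * ((f.coeff n / dv s n : ℝ) : ℂ))

lemma Hr_coeff {k : ℕ} (κ h : Fin k → ℝ) (s : ℝ) (f : P1) (n : ℕ) :
    (Hr κ h s f).coeff n = if n ∈ f.coeff.support then dr κ h n * ((f.coeff n / dv s n : ℝ) : ℂ) else 0 := by
  classical
  unfold Hr
  rw [coeff_sum, Finsupp.finsetSum_apply]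
  simp_rw [coeff_single, Finsupp.single_apply]
  rw [sum_ite_eq' f.coeff.support n (fun m => dr κ h m * ((f.coeff m / dv s m : ℝ) : ℂ))]

lemma Hr_Do {k : ℕ} {κ : Fin k → ℝ} (hκ : ∀ j, 0 ≤ κ j) {s : ℝ} (hsum : ∑ j, κ j = s) (h : Fin k → ℝ) {f : P1}
    (hf : ∀ n, 0 ≤ f.coeff n ∧ f.coeff n ≤ dv s n) {N : ℝ} (hN : Bd1 N f) : Do f (Hr κ h s f) := by
  intro n
  rw [Hr_coeff]
  split_ifs with h1
  · have hn0 := (hN n h1).1
    have hd := hf n
    have hd0 : 0 ≤ dv s n := hd.1.trans hd.2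
    rw [norm_mul, Complex.norm_real, Real.norm_of_nonneg (div_nonneg hd.1 hd0)]
    have h2 := dr_le hκ h hn0
    rw [hsum] at h2
    rcases hd0.eq_or_lt with h3 | h3
    · rw [← h3, div_zero, mul_zero]; exact hd.1
    · calc ‖dr κ h n‖ * (f.coeff n / dv s n) ≤ dv s n * (f.coeff n / dv s n) :=
            mul_le_mul_of_nonneg_right h2 (div_nonneg hd.1 hd0)
        _ = f.coeff n := by field_simp
  · rw [norm_zero]; exact (hf n).1

lemma Hr_diff {k N : ℕ} {κ : Fin k → ℝ} (hκ : ∀ j, 0 ≤ κ j) {s : ℝ} (hsum : ∑ j, κ j = s) (h : Fin k → ℝ) {f : P1}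
    (hf : ∀ n, 0 ≤ f.coeff n ∧ f.coeff n ≤ dv s n) (hN : Bd1 N f) :
    Do (DN s N - f) (Dr κ h N - Hr κ h s f) := by
  intro n
  rw [coeff_sub, coeff_sub, Finsupp.sub_apply, Finsupp.sub_apply, Dr_coeff, DN_coeff, Hr_coeff]
  by_cases h1 : n ∈ Icc 1 N
  · rw [if_pos h1, if_pos h1]
    rw [mem_Icc] at h1
    have h2 := dr_le hκ h (n := n) (by omega)
    rw [hsum] at h2
    have hd := hf n
    split_ifs with h3
    · rcases (hd.1.trans hd.2).eq_or_lt with h4 | h4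
      · have h5 : f.coeff n = 0 := le_antisymm (hd.2.trans (le_of_eq h4.symm)) hd.1
        exact absurd h5 (Finsupp.mem_support_iff.mp h3)
      · have e1 : dr κ h n - dr κ h n * ((f.coeff n / dv s n : ℝ) : ℂ) = dr κ h n * ((1 - f.coeff n / dv s n : ℝ) : ℂ) := by
          push_cast; ring
        have h5 : f.coeff n / dv s n ≤ 1 := by rw [div_le_one h4]; exact hd.2
        rw [e1, norm_mul, Complex.norm_real, Real.norm_of_nonneg (by linarith)]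
        calc ‖dr κ h n‖ * (1 - f.coeff n / dv s n) ≤ dv s n * (1 - f.coeff n / dv s n) :=
              mul_le_mul_of_nonneg_right h2 (by linarith)
          _ = dv s n - f.coeff n := by field_simp
    · rw [sub_zero, Finsupp.notMem_support_iff.mp h3, sub_zero]
      exact h2
  · rw [if_neg h1, if_neg h1]
    have h2 : n ∉ f.coeff.support := by
      intro h3
      have := hN n h3
      apply h1
      rw [mem_Icc]
      exact ⟨Nat.pos_of_ne_zero this.1, by exact_mod_cast this.2⟩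
    rw [if_neg h2, Finsupp.notMem_support_iff.mp h2]
    simp

/-- the star polynomial -/
noncomputable def gsr (s : ℝ) (Mm M z K0 : ℕ) (H δ y : ℝ) (J Rs : ℕ) : P1 :=
  Az s K0 z * ∏ i ∈ range J, (NK (20 * (Mm * RR Rs i)) s (x1 (IZ z y i)) *
        NK (20 * (M * RR Rs i)) (4 * s) (yb (fun p => min 1 (H * (δ * Real.log p))) (IZ z y i)))

/-- the data of a window -/
structure Cr (k : ℕ) (s : ℝ) (κ : Fin k → ℝ) (Mm M z Rs J K0 N Ns Ks : ℕ) (ε e1 c y δ T CM CS H : ℝ) : Prop where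
  κ0 : ∀ j, 0 < κ j
  s0 : 0 < s
  hs : ∑ j, κ j = s
  Mm1 : 1 ≤ Mm
  MmM : Mm ≤ M
  sMm : s ≤ Mm
  sM : 2 * s ≤ M
  e0 : 0 < ε
  e01 : ε ≤ 1 / 10
  e10 : 0 < e1
  p1 : (1 + e1) ^ (2 * (M:ℝ)) ≤ 1 + ε
  h4a : 4 * Real.exp (-(2 * (Rs:ℝ))) ≤ ε / 4
  sy : Sy c z y J Rs Ns Ks
  δ0 : 0 < δ
  δ1 : δ ≤ 1 / 16
  T1 : 1 ≤ T
  zcj : ∀ j, ∀ w : ℂ, 1 / 2 ≤ w.re → ‖Complex.exp (κ j * Lz z w) * es w (Az (κ j) K0 z) - 1‖ ≤ ε
  zcs : ∀ w : ℂ, 1 / 2 ≤ w.re → ‖Complex.exp (s * Lz z w) * es w (Az s K0 z) - 1‖ ≤ ε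
  pr : ∀ t h : ℝ, |h| ≤ 2 * H * δ → ‖es (1 / 2 + δ + t * Complex.I) (Pz z)‖ ≤ 2 * ‖es (1 / 2 + δ + (t + h : ℝ) * Complex.I) (Pz z)‖
  cj : ∀ j n, 0 ≤ (fr (κ j) Mm z K0 y J Rs).coeff n ∧ (fr (κ j) Mm z K0 y J Rs).coeff n ≤ dv (κ j) n
  cs : ∀ n, 0 ≤ (fr s Mm z K0 y J Rs).coeff n ∧ (fr s Mm z K0 y J Rs).coeff n ≤ dv s n
  b1 : Bd1 N (∏ j, fr (κ j) Mm z K0 y J Rs)
  bk : Bd1 N (fr s Mm z K0 y J Rs)
  NT : (N:ℝ) ≤ T / 2
  low : (1 - 3 * ε) * DD s δ ≤ ip δ (fr s Mm z K0 y J Rs) (fr s Mm z K0 y J Rs)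
  Q : ∑ i ∈ range J, ip δ (fr s Mm z K0 y J Rs * Qe (RR Rs i) (IZ z y i)) (fr s Mm z K0 y J Rs * Qe (RR Rs i) (IZ z y i)) ≤
    ε * DD s δ
  bQ : ∀ i < J, Bd1 (T / 2) (fr s Mm z K0 y J Rs * Qe (RR Rs i) (IZ z y i))
  st : ip δ (gsr s Mm M z K0 H δ y J Rs) (gsr s Mm M z K0 H δ y J Rs) ≤ CS * DD s δ
  bS : Bd1 (T / 2) (gsr s Mm M z K0 H δ y J Rs)
  off : ∫ t in Set.Ioc (T ^ ((4:ℝ)/5)) (T / 2) \ Gh z y J Rs e1 δ,
        ‖es (1 / 2 + δ + t * Complex.I) (fr s Mm z K0 y J Rs)‖ ^ 2 ≤ ε * (T * DD s δ)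
  mv : ∀ (g : P1) (A : PC), Do g A → Bd1 (T / 2) g →
    ∫ t in (0:ℝ)..T, ‖ec (1 / 2 + δ + t * Complex.I) A‖ ^ 2 ≤ CM * (T * ip δ g g)
  CM0 : 0 ≤ CM
  CS0 : 0 ≤ CS
  H0 : 0 ≤ H

/-- a determination of the logarithm of zeta -/
noncomputable def wt (z : ℕ) (y : ℝ) (J : ℕ) (δ t : ℝ) : ℂ :=
  Complex.log (riemannZeta (1 / 2 + δ + t * Complex.I) * es (1 / 2 + δ + t * Complex.I) (Pz z) *
    Complex.exp (-∑ i ∈ range J, PI (IZ z y i) (1 / 2 + δ + t * Complex.I))) - Lz z (1 / 2 + δ + t * Complex.I) +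
    ∑ i ∈ range J, PI (IZ z y i) (1 / 2 + δ + t * Complex.I)

/-- the product of the shifted powers -/
noncomputable def zr {k : ℕ} (w : ℝ → ℂ) (δ : ℝ) (κ a : Fin k → ℝ) (t : ℝ) : ℂ := ∏ j, Complex.exp (κ j * w (t + a j * δ))

lemma wt_exp {z Rs J : ℕ} {y e1 δ t : ℝ} (hδ : 0 ≤ δ) (he : e1 < 1) (ht : t ∈ Gh z y J Rs e1 δ) :
    Complex.exp (wt z y J δ t) = riemannZeta (1 / 2 + δ + t * Complex.I) := by
  have hs : 1 / 2 ≤ (1 / 2 + (δ:ℂ) + t * Complex.I).re := by rw [half_re]; linarith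
  have h1 := ht.2
  unfold wt
  set s : ℂ := 1 / 2 + (δ:ℂ) + t * Complex.I with hsd
  obtain ⟨S, hS⟩ : ∃ S, S = ∑ i ∈ range J, PI (IZ z y i) s := ⟨_, rfl⟩
  rw [← hS] at h1 ⊢
  have hne : riemannZeta s * es s (Pz z) * Complex.exp (-S) ≠ 0 := by
    intro h2
    rw [h2, zero_sub, norm_neg, norm_one] at h1
    linarith
  have hP : es s (Pz z) ≠ 0 := by rw [← exp_Lz hs]; exact Complex.exp_ne_zero _
  rw [Complex.exp_add, Complex.exp_sub, Complex.exp_log hne, exp_Lz hs, Complex.exp_neg]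
  have := Complex.exp_ne_zero S
  field_simp

lemma wt_meas (z J : ℕ) (y : ℝ) {δ : ℝ} (hδ : δ ≤ 1 / 16) : Measurable (wt z y J δ) := by
  have c1 : Continuous fun t : ℝ => riemannZeta (1 / 2 + δ + t * Complex.I) := zl_cont (by linarith)
  have c2 : Continuous fun t : ℝ => es (1 / 2 + δ + t * Complex.I) (Pz z) := by
    obtain ⟨m, hm⟩ := Bd1_of (f := Pz z) (fun x hx => (Pz_mem z x hx).1)
    exact es_lc δ hm
  have c3 : ∀ i, Continuous fun t : ℝ => PI (IZ z y i) (1 / 2 + δ + t * Complex.I) := by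
    intro i
    unfold PI
    refine continuous_finsetSum _ fun p hp => ?_
    have hp0 : (p:ℂ) ≠ 0 := by exact_mod_cast (IZ_prime i p hp).ne_zero
    refine Continuous.const_cpow (by fun_prop) (Or.inl hp0)
  have c4 : Continuous fun t : ℝ => ∑ i ∈ range J, PI (IZ z y i) (1 / 2 + δ + t * Complex.I) :=
    continuous_finsetSum _ fun i _ => c3 i
  have m5 : Measurable fun t : ℝ => Lz z (1 / 2 + δ + t * Complex.I) := by
    unfold Lz
    refine Finset.measurable_fun_sum _ fun p hp => ?_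
    have hp0 : (p:ℂ) ≠ 0 := by exact_mod_cast ((mem_S0.mp hp).2).ne_zero
    refine Complex.measurable_log.comp (Continuous.measurable ?_)
    exact continuous_const.sub (Continuous.const_cpow (by fun_prop) (Or.inl hp0))
  unfold wt
  exact ((Complex.measurable_log.comp ((c1.mul c2).mul (Complex.continuous_exp.comp c4.neg)).measurable).sub m5).add c4.measurable

lemma zr_meas {k : ℕ} {w : ℝ → ℂ} (hw : Measurable w) (δ : ℝ) (κ a : Fin k → ℝ) : Measurable (zr w δ κ a) := by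
  unfold zr
  refine Finset.measurable_fun_prod _ fun j _ => ?_
  exact Complex.measurable_exp.comp ((hw.comp (measurable_id.add_const _)).const_mul _)

end Pool.Agent.Y753.SHR
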