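import Pool.Agent.Y753.SHR.R3

set_option autoImplicit false

/-! The window for real exponents: closeness and mass. -/

namespace Pool.Agent.Y753.SHR

open Finset Filter MeasureTheory MonoidAlgebra Topology
open Pool.Agent.Y755
open Pool.Agent.W184.NZ
open Pool.Agent.Y753.NL
open Pool.Agent.Y753.SH
open Pool.Agent.H306R2 (dv dv_nonneg dv_one)

namespace Cr

variable {k Mm M z Rs J K0 N Ns Ks : ℕ} {κ : Fin k → ℝ} {s ε e1 c y δ T CM CS H : ℝ}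

lemma hre (_X : Cr k s κ Mm M z Rs J K0 N Ns Ks ε e1 c y δ T CM CS H) (t : ℝ) : 1 / 2 ≤ (1 / 2 + (δ:ℂ) + t * Complex.I).re := by
  rw [half_re]; have := _X.δ0; linarith

lemma hre' (X : Cr k s κ Mm M z Rs J K0 N Ns Ks ε e1 c y δ T CM CS H) (t : ℝ) : 0 < (1 / 2 + (δ:ℂ) + t * Complex.I).re := by
  have := X.hre t; linarith

lemma D1 (X : Cr k s κ Mm M z Rs J K0 N Ns Ks ε e1 c y δ T CM CS H) : 1 ≤ DD s δ := DD_ge_one X.s0 X.δ0

lemma κn (X : Cr k s κ Mm M z Rs J K0 N Ns Ks ε e1 c y δ T CM CS H) : ∀ j, 0 ≤ κ j := fun j => (X.κ0 j).le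

lemma κs (X : Cr k s κ Mm M z Rs J K0 N Ns Ks ε e1 c y δ T CM CS H) (j : Fin k) : κ j ≤ s := by
  rw [← X.hs]
  exact single_le_sum (f := κ) (fun i _ => X.κn i) (mem_univ j)

/-- evaluation of a product of shifts -/
lemma ec_Fr (X : Cr k s κ Mm M z Rs J K0 N Ns Ks ε e1 c y δ T CM CS H) (a : Fin k → ℝ) (f : Fin k → P1) (t : ℝ) :
    ec (1 / 2 + δ + t * Complex.I) (Fr (fun j => a j * δ) f) = ∏ j, es (1 / 2 + δ + ((t + a j * δ : ℝ) : ℂ) * Complex.I) (f j) := by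
  unfold Fr
  rw [map_prod]
  refine prod_congr rfl fun j _ => ?_
  rw [ec_sh (X.hre' t)]
  congr 1
  push_cast; ring

lemma f1nn (X : Cr k s κ Mm M z Rs J K0 N Ns Ks ε e1 c y δ T CM CS H) (j : Fin k) :
    Le (fr (κ j) Mm z K0 y J Rs) (fr (κ j) Mm z K0 y J Rs) :=
  fun n => ⟨(X.cj j n).1, le_rfl⟩

lemma fknn (X : Cr k s κ Mm M z Rs J K0 N Ns Ks ε e1 c y δ T CM CS H) : Le (fr s Mm z K0 y J Rs) (fr s Mm z K0 y J Rs) :=
  fun n => ⟨(X.cs n).1, le_rfl⟩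

lemma f1k (X : Cr k s κ Mm M z Rs J K0 N Ns Ks ε e1 c y δ T CM CS H) (n : ℕ) :
    0 ≤ (∏ j, fr (κ j) Mm z K0 y J Rs).coeff n ∧ (∏ j, fr (κ j) Mm z K0 y J Rs).coeff n ≤ dv s n := by
  have h0 : Le (∏ j, fr (κ j) Mm z K0 y J Rs) (∏ j, fr (κ j) Mm z K0 y J Rs) := Le.prod fun j _ => X.f1nn j
  refine ⟨(h0 n).1, ?_⟩
  rcases eq_or_ne n 0 with h0 | h0
  · subst h0
    have : (∏ j, fr (κ j) Mm z K0 y J Rs).coeff 0 = 0 := by
      by_contra h1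
      exact (X.b1 0 (Finsupp.mem_support_iff.mpr h1)).1 rfl
    rw [this]
    exact dv_nonneg X.s0.le 0
  · have h1 := (dr_diff X.κn X.cj (fun _ : Fin k => 0) n h0).1
    rw [X.hs] at h1
    have := (norm_nonneg _).trans h1
    linarith

lemma ipf1 (X : Cr k s κ Mm M z Rs J K0 N Ns Ks ε e1 c y δ T CM CS H) :
    (1 - 3 * ε) * DD s δ ≤ ip δ (∏ j, fr (κ j) Mm z K0 y J Rs) (∏ j, fr (κ j) Mm z K0 y J Rs) ∧
      ip δ (∏ j, fr (κ j) Mm z K0 y J Rs) (∏ j, fr (κ j) Mm z K0 y J Rs) ≤ DD s δ := by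
  constructor
  · refine X.low.trans (Le.ip ?_ δ)
    have h := fr_sum_le X.κn Mm z K0 y J Rs
    rw [X.hs] at h
    exact h
  · have h1 := diff_ip X.s0 X.δ0 X.b1 X.f1k
    have h2 := ip_self_nonneg δ (DN s N - ∏ j, fr (κ j) Mm z K0 y J Rs)
    linarith

lemma mvF (X : Cr k s κ Mm M z Rs J K0 N Ns Ks ε e1 c y δ T CM CS H) (h : Fin k → ℝ) :
    ∫ t in (0:ℝ)..T, ‖ec (1 / 2 + δ + t * Complex.I) (Fr h (fun j => fr (κ j) Mm z K0 y J Rs))‖ ^ 2 ≤ CM * (T * DD s δ) := by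
  refine (X.mv _ _ (Fr_Do h X.f1nn) (X.b1.mono X.NT)).trans ?_
  have := X.ipf1.2
  have := X.CM0
  have := X.T1
  gcongr

lemma mvDF (X : Cr k s κ Mm M z Rs J K0 N Ns Ks ε e1 c y δ T CM CS H) (h : Fin k → ℝ) :
    ∫ t in (0:ℝ)..T, ‖ec (1 / 2 + δ + t * Complex.I) (Dr κ h N - Fr h (fun j => fr (κ j) Mm z K0 y J Rs))‖ ^ 2 ≤
      CM * (T * (3 * ε * DD s δ)) := by
  have hb : Bd1 (T / 2) (DN s N - ∏ j, fr (κ j) Mm z K0 y J Rs) := ((DN_Bd s N).sub X.b1).mono X.NT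
  have hd := Dr_diff X.κn X.cj X.b1 h
  rw [X.hs] at hd
  refine (X.mv _ _ hd hb).trans ?_
  have h1 := diff_ip X.s0 X.δ0 X.b1 X.f1k
  have h2 := X.ipf1.1
  have := X.CM0
  have := X.T1
  have h3 : ip δ (DN s N - ∏ j, fr (κ j) Mm z K0 y J Rs) (DN s N - ∏ j, fr (κ j) Mm z K0 y J Rs) ≤ 3 * ε * DD s δ := by linarith
  gcongr

lemma mvDH (X : Cr k s κ Mm M z Rs J K0 N Ns Ks ε e1 c y δ T CM CS H) (h : Fin k → ℝ) :
    ∫ t in (0:ℝ)..T, ‖ec (1 / 2 + δ + t * Complex.I) (Dr κ h N - Hr κ h s (fr s Mm z K0 y J Rs))‖ ^ 2 ≤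
      CM * (T * (3 * ε * DD s δ)) := by
  have hb : Bd1 (T / 2) (DN s N - fr s Mm z K0 y J Rs) := ((DN_Bd s N).sub X.bk).mono X.NT
  refine (X.mv _ _ (Hr_diff X.κn X.hs h X.cs X.bk) hb).trans ?_
  have h1 := diff_ip X.s0 X.δ0 X.bk X.cs
  have h2 := X.low
  have := X.CM0
  have := X.T1
  have h3 : ip δ (DN s N - fr s Mm z K0 y J Rs) (DN s N - fr s Mm z K0 y J Rs) ≤ 3 * ε * DD s δ := by linarith
  gcongr

lemma ccF (X : Cr k s κ Mm M z Rs J K0 N Ns Ks ε e1 c y δ T CM CS H) (h : Fin k → ℝ) :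
    Continuous fun t : ℝ => ec (1 / 2 + δ + t * Complex.I) (Fr h (fun j => fr (κ j) Mm z K0 y J Rs)) :=
  (Fr_Do h X.f1nn).cont X.b1 δ

lemma ccD (hκ : ∀ j, 0 ≤ κ j) (h : Fin k → ℝ) : Continuous fun t : ℝ => ec (1 / 2 + δ + t * Complex.I) (Dr κ h N) :=
  (Dr_Do hκ h N).cont (DN_Bd _ N) δ

lemma ccDF (X : Cr k s κ Mm M z Rs J K0 N Ns Ks ε e1 c y δ T CM CS H) (h : Fin k → ℝ) :
    Continuous fun t : ℝ => ec (1 / 2 + δ + t * Complex.I) (Dr κ h N - Fr h (fun j => fr (κ j) Mm z K0 y J Rs)) := by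
  have h1 : (fun t : ℝ => ec (1 / 2 + δ + t * Complex.I) (Dr κ h N - Fr h (fun j => fr (κ j) Mm z K0 y J Rs))) =
      fun t : ℝ => ec (1 / 2 + δ + t * Complex.I) (Dr κ h N) -
        ec (1 / 2 + δ + t * Complex.I) (Fr h (fun j => fr (κ j) Mm z K0 y J Rs)) := by
    funext t; rw [map_sub]
  rw [h1]
  exact (ccD (δ := δ) (N := N) X.κn h).sub (X.ccF h)

lemma ccDH (X : Cr k s κ Mm M z Rs J K0 N Ns Ks ε e1 c y δ T CM CS H) (h : Fin k → ℝ) :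
    Continuous fun t : ℝ => ec (1 / 2 + δ + t * Complex.I) (Dr κ h N - Hr κ h s (fr s Mm z K0 y J Rs)) :=
  (Hr_diff X.κn X.hs h X.cs X.bk).cont ((DN_Bd s N).sub X.bk) δ

/-- closeness on the good set -/
lemma close_pt (X : Cr k s κ Mm M z Rs J K0 N Ns Ks ε e1 c y δ T CM CS H) (a : Fin k → ℝ) {t : ℝ}
    (ht : ∀ j, t + a j * δ ∈ Gh z y J Rs e1 δ) :
    ‖zr (wt z y J δ) δ κ a t - ec (1 / 2 + δ + t * Complex.I) (Fr (fun j => a j * δ) (fun j => fr (κ j) Mm z K0 y J Rs))‖ ≤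
      10 ^ k * ε * ‖ec (1 / 2 + δ + t * Complex.I) (Fr (fun j => a j * δ) (fun j => fr (κ j) Mm z K0 y J Rs))‖ := by
  rw [X.ec_Fr]
  unfold zr
  refine prod_near X.e0.le X.e01 fun j => ?_
  have hM1' : (1:ℝ) ≤ Mm := by exact_mod_cast X.Mm1
  have hκM : κ j ≤ M := by have := X.κs j; have := X.sM; have := X.s0; linarith
  have h1 := on_good_r (J := J) (Rs := Rs) (K := fun i => 20 * (Mm * RR Rs i)) (X.Mm1.trans X.MmM) (X.κn j) hκM X.e10 X.e0 X.e01 X.p1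
    (fun i => cl_M X.Mm1 (hRR X.sy i) (by rw [abs_of_pos (X.κ0 j)]; have := X.κs j; have := X.sMm; linarith)) X.h4a _
    (Lz z (1 / 2 + δ + ((t + a j * δ : ℝ) : ℂ) * Complex.I)) (es (1 / 2 + δ + ((t + a j * δ : ℝ) : ℂ) * Complex.I) (Az (κ j) K0 z))
    (fun i => PI (IZ z y i) (1 / 2 + δ + ((t + a j * δ : ℝ) : ℂ) * Complex.I)) (ht j) (X.zcj j _ (X.hre (t + a j * δ)))
  rw [← es_Bm, ← map_mul] at h1
  exact h1

/-- closeness in mean square -/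
theorem clS (X : Cr k s κ Mm M z Rs J K0 N Ns Ks ε e1 c y δ T CM CS H) (a : Fin k → ℝ) {U : Set ℝ} (hU : MeasurableSet U)
    (hUT : U ⊆ Set.Icc 0 T) (hG : ∀ t ∈ U, ∀ j, t + a j * δ ∈ Gh z y J Rs e1 δ) :
    IntegrableOn (fun t => ‖zr (wt z y J δ) δ κ a t - ec (1 / 2 + δ + t * Complex.I) (Dr κ (fun j => a j * δ) N)‖ ^ 2) U ∧
    ∫ t in U, ‖zr (wt z y J δ) δ κ a t - ec (1 / 2 + δ + t * Complex.I) (Dr κ (fun j => a j * δ) N)‖ ^ 2 ≤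
      (2 * 100 ^ k + 6) * CM * ε * (T * DD s δ) := by
  set F := Fr (fun j => a j * δ) (fun j => fr (κ j) Mm z K0 y J Rs) with hF
  set D := Dr κ (fun j => a j * δ) N with hD
  have hT0 : 0 ≤ T := by have := X.T1; linarith
  have c1 : Continuous fun t : ℝ => 2 * 100 ^ k * ε ^ 2 * ‖ec (1 / 2 + δ + t * Complex.I) F‖ ^ 2 := ((X.ccF _).norm.pow 2).const_mul _
  have c2 : Continuous fun t : ℝ => 2 * ‖ec (1 / 2 + δ + t * Complex.I) (D - F)‖ ^ 2 := ((X.ccDF _).norm.pow 2).const_mul _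
  have m3 : Measurable fun t : ℝ => ‖zr (wt z y J δ) δ κ a t - ec (1 / 2 + δ + t * Complex.I) D‖ ^ 2 :=
    (((zr_meas (wt_meas z J y X.δ1) δ κ a).sub (ccD X.κn _).measurable).norm).pow_const 2
  have hint : ∀ g : ℝ → ℝ, Continuous g → IntegrableOn g (Set.Icc 0 T) := fun g hg =>
    hg.continuousOn.integrableOn_compact isCompact_Icc
  have hpt : ∀ t ∈ U, ‖zr (wt z y J δ) δ κ a t - ec (1 / 2 + δ + t * Complex.I) D‖ ^ 2 ≤
      2 * 100 ^ k * ε ^ 2 * ‖ec (1 / 2 + δ + t * Complex.I) F‖ ^ 2 + 2 * ‖ec (1 / 2 + δ + t * Complex.I) (D - F)‖ ^ 2 := by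
    intro t ht
    have h1 := X.close_pt a (hG t ht)
    rw [← hF] at h1
    have e1 : zr (wt z y J δ) δ κ a t - ec (1 / 2 + δ + t * Complex.I) D = (zr (wt z y J δ) δ κ a t - ec (1 / 2 + δ + t * Complex.I) F) +
        -ec (1 / 2 + δ + t * Complex.I) (D - F) := by rw [map_sub]; ring
    rw [e1]
    refine (sq_two _ _).trans ?_
    rw [norm_neg]
    refine add_le_add ?_ le_rfl
    have h2 := pow_le_pow_left₀ (norm_nonneg _) h1 2
    have e2 : (10 ^ k * ε * ‖ec (1 / 2 + δ + t * Complex.I) F‖) ^ 2 = 100 ^ k * ε ^ 2 * ‖ec (1 / 2 + δ + t * Complex.I) F‖ ^ 2 := by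
      rw [mul_pow, mul_pow, ← pow_mul, mul_comm k 2, pow_mul]; norm_num
    rw [e2] at h2
    linarith
  have c12 : Continuous fun t : ℝ => 2 * 100 ^ k * ε ^ 2 * ‖ec (1 / 2 + δ + t * Complex.I) F‖ ^ 2 +
      2 * ‖ec (1 / 2 + δ + t * Complex.I) (D - F)‖ ^ 2 := c1.add c2
  have hI : IntegrableOn (fun t => ‖zr (wt z y J δ) δ κ a t - ec (1 / 2 + δ + t * Complex.I) D‖ ^ 2) U := by
    refine Integrable.mono' ((hint _ c12).mono_set hUT) m3.aestronglyMeasurable ?_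
    refine ae_restrict_of_forall_mem hU fun t ht => ?_
    rw [Real.norm_of_nonneg (sq_nonneg _)]
    exact hpt t ht
  refine ⟨hI, ?_⟩
  have h1 : ∫ t in U, ‖zr (wt z y J δ) δ κ a t - ec (1 / 2 + δ + t * Complex.I) D‖ ^ 2 ≤
      ∫ t in U, (2 * 100 ^ k * ε ^ 2 * ‖ec (1 / 2 + δ + t * Complex.I) F‖ ^ 2 + 2 * ‖ec (1 / 2 + δ + t * Complex.I) (D - F)‖ ^ 2) :=
    setIntegral_mono_on hI ((hint _ c12).mono_set hUT) hU hpt
  have h2 : ∫ t in U, (2 * 100 ^ k * ε ^ 2 * ‖ec (1 / 2 + δ + t * Complex.I) F‖ ^ 2 + 2 * ‖ec (1 / 2 + δ + t * Complex.I) (D - F)‖ ^ 2) ≤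
      ∫ t in Set.Icc 0 T, (2 * 100 ^ k * ε ^ 2 * ‖ec (1 / 2 + δ + t * Complex.I) F‖ ^ 2 + 2 * ‖ec (1 / 2 + δ + t * Complex.I) (D - F)‖ ^ 2) := by
    refine setIntegral_mono_set (hint _ c12) (Eventually.of_forall fun t => ?_) (Eventually.of_forall fun t ht => hUT ht)
    have := X.e0
    positivity
  rw [integral_add (hint _ c1) (hint _ c2), integral_const_mul, integral_const_mul, integral_Icc_eq_integral_Ioc,
    integral_Icc_eq_integral_Ioc, ← intervalIntegral.integral_of_le hT0, ← intervalIntegral.integral_of_le hT0] at h2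
  have m1 := X.mvF (fun j => a j * δ)
  have m2 := X.mvDF (fun j => a j * δ)
  rw [← hF] at m1
  rw [← hF, ← hD] at m2
  have hε := X.e0
  have hε1 := X.e01
  have m1' := mul_le_mul_of_nonneg_left m1 (by positivity : (0:ℝ) ≤ 2 * 100 ^ k * ε ^ 2)
  have hA : 0 ≤ CM * (T * DD s δ) := by
    have := X.CM0
    have := X.D1
    positivity
  have h5 : 2 * 100 ^ k * ε ^ 2 * (CM * (T * DD s δ)) ≤ 2 * 100 ^ k * ε * (CM * (T * DD s δ)) := by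
    refine mul_le_mul_of_nonneg_right ?_ hA
    refine mul_le_mul_of_nonneg_left ?_ (by positivity)
    nlinarith
  calc _ ≤ 2 * 100 ^ k * ε * (CM * (T * DD s δ)) + 2 * (CM * (T * (3 * ε * DD s δ))) := by linarith
    _ = _ := by ring

/-! ### the mass -/

/-- the change of weight polynomial -/
noncomputable def GG (k : ℕ) (s : ℝ) (κ : Fin k → ℝ) (Mm M z Rs J K0 : ℕ) (y δ : ℝ) (a : Fin k → ℝ) (a' : ℝ) : PC :=
  sh (a' * δ) (fr s Mm z K0 y J Rs) * ∏ i ∈ range J, NK (20 * (M * RR Rs i)) (4 * s) (Yr s κ (fun j => a j * δ) (a' * δ) (IZ z y i))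

lemma ec_smul_r (w : ℂ) (r : ℝ) (A : PC) : ec w (r • A) = r • ec w A := map_smul ((ec w).restrictScalars ℝ) r A

lemma ec_Yr (X : Cr k s κ Mm M z Rs J K0 N Ns Ks ε e1 c y δ T CM CS H) (a : Fin k → ℝ) (a' : ℝ) (I : Finset ℕ) (t : ℝ) :
    ec (1 / 2 + δ + t * Complex.I) (Yr s κ (fun j => a j * δ) (a' * δ) I) = (1 / (2 * s)) •
      ∑ j, κ j • (PI I (1 / 2 + δ + ((t + a j * δ : ℝ) : ℂ) * Complex.I) - PI I (1 / 2 + δ + ((t + a' * δ : ℝ) : ℂ) * Complex.I)) := by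
  unfold Yr
  rw [ec_smul_r, map_sum]
  congr 1
  refine sum_congr rfl fun j _ => ?_
  rw [ec_smul_r, map_sub, ec_sh (X.hre' t), ec_sh (X.hre' t), es_x1, es_x1]
  congr 3 <;> (push_cast; ring)

lemma ec_GG (X : Cr k s κ Mm M z Rs J K0 N Ns Ks ε e1 c y δ T CM CS H) (a : Fin k → ℝ) (a' : ℝ) (t : ℝ) :
    ec (1 / 2 + δ + t * Complex.I) (GG k s κ Mm M z Rs J K0 y δ a a') =
      es (1 / 2 + δ + ((t + a' * δ : ℝ) : ℂ) * Complex.I) (fr s Mm z K0 y J Rs) *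
      ∏ i ∈ range J, NK (20 * (M * RR Rs i)) (4 * s) ((1 / (2 * s)) •
        ∑ j, κ j • (PI (IZ z y i) (1 / 2 + δ + ((t + a j * δ : ℝ) : ℂ) * Complex.I) -
          PI (IZ z y i) (1 / 2 + δ + ((t + a' * δ : ℝ) : ℂ) * Complex.I))) := by
  unfold GG
  rw [map_mul, map_prod, ec_sh (X.hre' t)]
  congr 1
  · congr 1
    push_cast; ring
  · refine prod_congr rfl fun i _ => ?_
    rw [Cx.ec_NK, X.ec_Yr]

lemma GG_Do (X : Cr k s κ Mm M z Rs J K0 N Ns Ks ε e1 c y δ T CM CS H) {a : Fin k → ℝ} {a' : ℝ} (ha : ∀ j, |a j| ≤ H)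
    (ha' : |a'| ≤ H) : Do (gsr s Mm M z K0 H δ y J Rs) (GG k s κ Mm M z Rs J K0 y δ a a') := by
  have e1 : gsr s Mm M z K0 H δ y J Rs = fr s Mm z K0 y J Rs *
      ∏ i ∈ range J, NK (20 * (M * RR Rs i)) (4 * s) (yb (fun p => min 1 (H * (δ * Real.log p))) (IZ z y i)) := by
    unfold gsr fr Bm
    rw [prod_mul_distrib, mul_assoc]
  rw [e1]
  unfold GG
  refine (Do.sh X.fknn _).mul (Do.prod fun i _ => Do.NK ?_ _ (by have := X.s0; positivity))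
  refine Yr_Do X.κ0 X.s0 X.hs (fun j => ?_) fun p hp => (IZ_prime i p hp).ne_zero
  rw [← sub_mul, abs_mul, abs_of_pos X.δ0]
  refine mul_le_mul_of_nonneg_right ?_ X.δ0.le
  have h1 := abs_sub (a j) a'
  have := ha j
  linarith

lemma norm_expLz {x : ℝ} {w : ℂ} (hw : 1 / 2 ≤ w.re) : ‖Complex.exp (x * Lz z w)‖ = ‖es w (Pz z)‖ ^ x := by
  rw [← exp_Lz hw, Complex.norm_exp, Complex.norm_exp, Complex.re_ofReal_mul, ← Real.exp_mul, mul_comm]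

/-- the pointwise majorant -/
lemma maj_pt (X : Cr k s κ Mm M z Rs J K0 N Ns Ks ε e1 c y δ T CM CS H) {a : Fin k → ℝ} {a' : ℝ} (ha : ∀ j, |a j| ≤ H)
    (ha' : |a'| ≤ H) {lam : ℝ} (hl : 0 < lam) (t : ℝ) :
    ‖ec (1 / 2 + δ + t * Complex.I) (Dr κ (fun j => a j * δ) N)‖ ^ 2 ≤
      ((2 * ‖ec (1 / 2 + δ + t * Complex.I) (Dr κ (fun j => a j * δ) N - Hr κ (fun j => a j * δ) s (fr s Mm z K0 y J Rs))‖ ^ 2 +
      2 * ∑ o : Option (Fin k), ∑ i ∈ range J, ‖ec (1 / 2 + δ + t * Complex.I) (Hr κ (fun j => a j * δ) s (fr s Mm z K0 y J Rs) *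
        sh ((o.elim a' a) * δ) (Qe (RR Rs i) (IZ z y i)))‖ ^ 2) +
      (2 * ‖ec (1 / 2 + δ + t * Complex.I) (Dr κ (fun j => a j * δ) N - Fr (fun j => a j * δ) (fun j => fr (κ j) Mm z K0 y J Rs))‖ ^ 2 +
      4 * (2 * 2 ^ k * (2:ℝ) ^ s) ^ 2 / lam * ‖ec (1 / 2 + δ + t * Complex.I) (GG k s κ Mm M z Rs J K0 y δ a a')‖ ^ 2)) +
      (2 * 2 ^ k * (2:ℝ) ^ s) ^ 2 * lam * ‖es (1 / 2 + δ + ((t + a' * δ : ℝ) : ℂ) * Complex.I) (fr s Mm z K0 y J Rs)‖ ^ 2 := by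
  set D := Dr κ (fun j => a j * δ) N with hD
  set F := Fr (fun j => a j * δ) (fun j => fr (κ j) Mm z K0 y J Rs) with hF
  set Hp := Hr κ (fun j => a j * δ) s (fr s Mm z K0 y J Rs) with hHp
  set w0 : ℂ := 1 / 2 + (δ:ℂ) + t * Complex.I with hs
  obtain ⟨c0, hc0⟩ : ∃ c0 : ℝ, c0 = 2 * 2 ^ k * (2:ℝ) ^ s := ⟨_, rfl⟩
  rw [← hc0]
  have hc00 : 0 < c0 := by rw [hc0]; positivity
  have hS0 : 0 ≤ ∑ o : Option (Fin k), ∑ i ∈ range J, ‖ec w0 (Hp * sh ((o.elim a' a) * δ) (Qe (RR Rs i) (IZ z y i)))‖ ^ 2 :=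
    sum_nonneg fun _ _ => sum_nonneg fun _ _ => sq_nonneg _
  by_cases hbad : ∃ o : Option (Fin k), ∃ i ∈ range J,
      (RR Rs i : ℝ) < ‖PI (IZ z y i) (1 / 2 + δ + ((t + (o.elim a' a) * δ : ℝ) : ℂ) * Complex.I)‖
  · obtain ⟨o, i, hi, hbig⟩ := hbad
    have hR : (0:ℝ) < (RR Rs i : ℝ) := by
      have := hRR X.sy i
      exact_mod_cast this
    have h1 : 1 ≤ ‖ec w0 (sh ((o.elim a' a) * δ) (Qe (RR Rs i) (IZ z y i)))‖ ^ 2 := by
      rw [hs, ec_sh (X.hre' t)]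
      have e1 : (1 / 2 + (δ:ℂ) + t * Complex.I) + (((o.elim a' a) * δ : ℝ) : ℂ) * Complex.I =
          1 / 2 + δ + ((t + (o.elim a' a) * δ : ℝ) : ℂ) * Complex.I := by push_cast; ring
      rw [e1, es_Qe_sq]
      refine one_le_pow₀ ?_
      rw [le_div_iff₀ hR, one_mul]
      exact hbig.le
    have h2 : ‖ec w0 Hp‖ ^ 2 ≤ ∑ o : Option (Fin k), ∑ i ∈ range J, ‖ec w0 (Hp * sh ((o.elim a' a) * δ) (Qe (RR Rs i) (IZ z y i)))‖ ^ 2 := by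
      have h3 : ‖ec w0 Hp‖ ^ 2 ≤ ‖ec w0 (Hp * sh ((o.elim a' a) * δ) (Qe (RR Rs i) (IZ z y i)))‖ ^ 2 := by
        rw [map_mul, norm_mul, mul_pow]
        exact le_mul_of_one_le_right (sq_nonneg _) h1
      refine h3.trans ?_
      refine le_trans ?_ (single_le_sum (f := fun o : Option (Fin k) => ∑ i ∈ range J, ‖ec w0 (Hp * sh ((o.elim a' a) * δ) (Qe (RR Rs i) (IZ z y i)))‖ ^ 2)
        (fun _ _ => sum_nonneg fun _ _ => sq_nonneg _) (mem_univ o))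
      exact single_le_sum (f := fun i => ‖ec w0 (Hp * sh ((o.elim a' a) * δ) (Qe (RR Rs i) (IZ z y i)))‖ ^ 2)
        (fun _ _ => sq_nonneg _) hi
    have e2 : ec w0 D = ec w0 (D - Hp) + ec w0 Hp := by rw [map_sub]; ring
    have h4 : ‖ec w0 D‖ ^ 2 ≤ 2 * ‖ec w0 (D - Hp)‖ ^ 2 + 2 * ‖ec w0 Hp‖ ^ 2 := by rw [e2]; exact sq_two _ _
    have h5 : 0 ≤ 2 * ‖ec w0 (D - F)‖ ^ 2 + 4 * c0 ^ 2 / lam * ‖ec w0 (GG k s κ Mm M z Rs J K0 y δ a a')‖ ^ 2 := by positivity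
    have h6 : 0 ≤ c0 ^ 2 * lam * ‖es (1 / 2 + δ + ((t + a' * δ : ℝ) : ℂ) * Complex.I) (fr s Mm z K0 y J Rs)‖ ^ 2 := by positivity
    linarith
  · push Not at hbad
    have hX : ∀ j, ∀ i ∈ range J, ‖PI (IZ z y i) (1 / 2 + δ + ((t + a j * δ : ℝ) : ℂ) * Complex.I)‖ ≤ (RR Rs i : ℝ) :=
      fun j i hi => hbad (some j) i hi
    have hX' : ∀ i ∈ range J, ‖PI (IZ z y i) (1 / 2 + δ + ((t + a' * δ : ℝ) : ℂ) * Complex.I)‖ ≤ (RR Rs i : ℝ) :=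
      fun i hi => hbad none i hi
    have hkM := X.sM
    have hs0 := X.s0
    have hM1' : (1:ℝ) ≤ Mm := by exact_mod_cast X.Mm1
    have hsm := X.sMm
    have hε := X.e0
    have hε1 := X.e01
    have h1 := ratio_r (J := J) (Rs := Rs) (K := fun i => 20 * (Mm * RR Rs i)) (K' := fun i => 20 * (M * RR Rs i)) X.κ0 X.s0 X.hs X.e0 X.e01
      (fun j i => cl_M X.Mm1 (hRR X.sy i) (by rw [abs_of_pos (X.κ0 j)]; have := X.κs j; linarith))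
      (fun i => cl_M X.Mm1 (hRR X.sy i) (by rw [abs_of_pos hs0]; linarith))
      (fun i => cl_M (X.Mm1.trans X.MmM) (hRR X.sy i) (by rw [abs_of_pos (by positivity)]; linarith)) X.h4a
      (X := fun j i => PI (IZ z y i) (1 / 2 + δ + ((t + a j * δ : ℝ) : ℂ) * Complex.I))
      (X' := fun i => PI (IZ z y i) (1 / 2 + δ + ((t + a' * δ : ℝ) : ℂ) * Complex.I)) hX hX'
      (P := fun j => es (1 / 2 + δ + ((t + a j * δ : ℝ) : ℂ) * Complex.I) (Pz z))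
      (A := fun j => es (1 / 2 + δ + ((t + a j * δ : ℝ) : ℂ) * Complex.I) (Az (κ j) K0 z))
      (P' := es (1 / 2 + δ + ((t + a' * δ : ℝ) : ℂ) * Complex.I) (Pz z))
      (A' := es (1 / 2 + δ + ((t + a' * δ : ℝ) : ℂ) * Complex.I) (Az s K0 z))
      (fun j => by
        have h2 := X.zcj j _ (X.hre (t + a j * δ))
        have h3 := norm_sub_norm_le (Complex.exp (κ j * Lz z (1 / 2 + δ + ((t + a j * δ : ℝ) : ℂ) * Complex.I)) *
          es (1 / 2 + δ + ((t + a j * δ : ℝ) : ℂ) * Complex.I) (Az (κ j) K0 z)) 1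
        rw [norm_mul, norm_expLz (X.hre (t + a j * δ)), norm_one] at h3
        linarith)
      (by
        have h2 := X.zcs _ (X.hre (t + a' * δ))
        have h3 := norm_sub_norm_le (1:ℂ) (Complex.exp (s * Lz z (1 / 2 + δ + ((t + a' * δ : ℝ) : ℂ) * Complex.I)) *
          es (1 / 2 + δ + ((t + a' * δ : ℝ) : ℂ) * Complex.I) (Az s K0 z))
        rw [norm_sub_rev, norm_mul, norm_expLz (X.hre (t + a' * δ)), norm_one] at h3
        linarith)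
      (by rw [← exp_Lz (X.hre (t + a' * δ)), Complex.norm_exp]; exact Real.exp_pos _)
      (fun j => by
        have h2 := X.pr (t + a' * δ) ((a j - a') * δ) (by
          rw [abs_mul, abs_of_pos X.δ0]
          refine mul_le_mul_of_nonneg_right ?_ X.δ0.le
          have h1 := abs_sub (a j) a'
          have := ha j
          linarith)
        have e1 : t + a' * δ + (a j - a') * δ = t + a j * δ := by ring
        rw [e1] at h2
        exact h2)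
    obtain ⟨r1, r2⟩ := h1
    rw [← hc0] at r1
    have eF : ec w0 F = ∏ j, (es (1 / 2 + δ + ((t + a j * δ : ℝ) : ℂ) * Complex.I) (Az (κ j) K0 z) *
        ∏ i ∈ range J, NK (20 * (Mm * RR Rs i)) (κ j) (PI (IZ z y i) (1 / 2 + δ + ((t + a j * δ : ℝ) : ℂ) * Complex.I))) := by
      rw [hF, hs, X.ec_Fr]
      refine prod_congr rfl fun j _ => ?_
      unfold fr
      rw [map_mul, es_Bm]
    have ef : es (1 / 2 + δ + ((t + a' * δ : ℝ) : ℂ) * Complex.I) (fr s Mm z K0 y J Rs) =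
        es (1 / 2 + δ + ((t + a' * δ : ℝ) : ℂ) * Complex.I) (Az s K0 z) *
          ∏ i ∈ range J, NK (20 * (Mm * RR Rs i)) s (PI (IZ z y i) (1 / 2 + δ + ((t + a' * δ : ℝ) : ℂ) * Complex.I)) := by
      unfold fr
      rw [map_mul, es_Bm]
    have eG := X.ec_GG a a' t
    rw [← hs] at eG
    rw [← eF, ← ef] at r1
    obtain ⟨w, hw⟩ : ∃ w, w = ‖es (1 / 2 + δ + ((t + a' * δ : ℝ) : ℂ) * Complex.I) (fr s Mm z K0 y J Rs)‖ := ⟨_, rfl⟩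
    obtain ⟨v, hv⟩ : ∃ v, v = ‖∏ i ∈ range J, NK (20 * (M * RR Rs i)) (4 * s) ((1 / (2 * s)) •
        ∑ j, κ j • (PI (IZ z y i) (1 / 2 + δ + ((t + a j * δ : ℝ) : ℂ) * Complex.I) -
          PI (IZ z y i) (1 / 2 + δ + ((t + a' * δ : ℝ) : ℂ) * Complex.I)))‖ := ⟨_, rfl⟩
    obtain ⟨E, hE⟩ : ∃ E, E = Real.exp (∑ i ∈ range J, ∑ j, κ j • (PI (IZ z y i) (1 / 2 + δ + ((t + a j * δ : ℝ) : ℂ) * Complex.I) -
          PI (IZ z y i) (1 / 2 + δ + ((t + a' * δ : ℝ) : ℂ) * Complex.I))).re := ⟨_, rfl⟩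
    have eGn : ‖ec w0 (GG k s κ Mm M z Rs J K0 y δ a a')‖ = w * v := by rw [eG, norm_mul, ← hw, ← hv]
    rw [← hw, ← hE] at r1
    rw [← hE, ← hv] at r2
    rw [← hw, eGn]
    have hw0 : 0 ≤ w := by rw [hw]; exact norm_nonneg _
    have hE0 : 0 < E := by rw [hE]; exact Real.exp_pos _
    have hv0 : 0 ≤ v := by rw [hv]; exact norm_nonneg _
    have e2 : ec w0 D = ec w0 (D - F) + ec w0 F := by rw [map_sub]; ring
    have h4 : ‖ec w0 D‖ ^ 2 ≤ 2 * ‖ec w0 (D - F)‖ ^ 2 + 2 * ‖ec w0 F‖ ^ 2 := by rw [e2]; exact sq_two _ _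
    have h5 : ‖ec w0 F‖ ^ 2 ≤ c0 ^ 2 * (w ^ 2 * E ^ 2) := by
      refine (pow_le_pow_left₀ (norm_nonneg _) r1 2).trans (le_of_eq ?_)
      ring
    have h6 : E ^ 2 ≤ lam / 2 + 2 * v ^ 2 / lam := by
      have h7 : (lam / 2 + 2 * v ^ 2 / lam) - 2 * v = (lam - 2 * v) ^ 2 / (2 * lam) := by field_simp; ring
      have h8 : 0 ≤ (lam - 2 * v) ^ 2 / (2 * lam) := by positivity
      linarith
    have h9 : w ^ 2 * E ^ 2 ≤ w ^ 2 * (lam / 2 + 2 * v ^ 2 / lam) := mul_le_mul_of_nonneg_left h6 (sq_nonneg _)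
    have h10 : c0 ^ 2 * (w ^ 2 * E ^ 2) ≤ c0 ^ 2 * (w ^ 2 * (lam / 2 + 2 * v ^ 2 / lam)) :=
      mul_le_mul_of_nonneg_left h9 (by positivity)
    have e11 : 2 * (c0 ^ 2 * (w ^ 2 * (lam / 2 + 2 * v ^ 2 / lam))) = 4 * c0 ^ 2 / lam * (w * v) ^ 2 + c0 ^ 2 * lam * w ^ 2 := by
      field_simp
      ring
    have h12 : 0 ≤ 2 * ‖ec w0 (D - Hp)‖ ^ 2 := by positivity
    linarith

end Cr

end Pool.Agent.Y753.SHR
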