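import Pool.Agent.Y753.SHR.R5

set_option autoImplicit false

/-! The window data exist, real exponents. -/

namespace Pool.Agent.Y753.SHR

open Finset Filter MeasureTheory MonoidAlgebra Topology
open Pool.Agent.Y755
open Pool.Agent.W184.NZ
open Pool.Agent.Y753.NL
open Pool.Agent.Y753.SH
open Pool.Agent.H306R2 (dv dv_nonneg dv_one)

lemma Bd1_fin {k : ℕ} {f : Fin k → P1} {B : ℝ} (h : ∀ j, Bd1 B (f j)) : Bd1 (B ^ k) (∏ j, f j) := by
  induction k with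
  | zero => rw [pow_zero, univ_eq_empty, prod_empty]; exact Bd1.one
  | succ k ih =>
    rw [Fin.prod_univ_succ, pow_succ']
    exact (h 0).mul (ih fun j => h j.succ)

lemma NK_mono_K {K K' : ℕ} (hK : K ≤ K') {a : ℝ} (ha : 0 ≤ a) {x : P1} (hx : Le x x) : Le (NK K a x) (NK K' a x) := by
  classical
  unfold NK
  have hsub : range (K + 1) ⊆ range (K' + 1) := range_subset_range.mpr (by omega)
  have hterm : ∀ j, Le ((a ^ j / (j.factorial : ℝ)) • x ^ j) ((a ^ j / (j.factorial : ℝ)) • x ^ j) := fun j =>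
    (hx.pow j).smul (by positivity)
  have h1 := (Le.zero (Le.sum (s := range (K' + 1) \ range (K + 1)) fun j _ => hterm j)).add
    (Le.sum (s := range (K + 1)) fun j _ => hterm j)
  rw [zero_add, sum_sdiff hsub] at h1
  exact h1

lemma yb_nn {b : ℕ → ℝ} (hb : ∀ p, 0 ≤ b p) (I : Finset ℕ) : Le (yb b I) (yb b I) := by
  unfold yb
  exact Le.sum fun p _ => Le.single (hb p) le_rfl

lemma gsr_le {s : ℝ} (hs : 0 ≤ s) {Mm M : ℕ} (hM : Mm ≤ M) (z K0 : ℕ) {H δ y : ℝ} (hH : 0 ≤ H) (hδ : 0 ≤ δ) (J Rs : ℕ) :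
    Le (gsr s Mm M z K0 H δ y J Rs) (gsr s M M z K0 H δ y J Rs) := by
  unfold gsr
  refine (Az_nn' hs K0 z).mul (Le.prod fun i _ => ?_)
  refine (NK_mono_K ?_ hs (x1_nn _)).mul (NK_nn _ (by positivity) (yb_nn (fun p => ?_) _))
  · exact Nat.mul_le_mul_left _ (Nat.mul_le_mul_right _ hM)
  · refine le_min zero_le_one (mul_nonneg hH (mul_nonneg hδ (Real.log_natCast_nonneg p)))

lemma gsr_Bd {s : ℝ} {Mm M z K0 J Rs N K : ℕ} {H δ c y m : ℝ} (h : Sy c z y J Rs N K) (hM : Mm ≤ M) (hA : Bd1 m (Az s K0 z))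
    (hm : 0 ≤ m) :
    Bd1 (m * Real.exp (Real.log y * (160 * (M * ((Rs:ℝ) + 1))))) (gsr s Mm M z K0 H δ y J Rs) := by
  unfold gsr
  refine hA.mul ?_
  have h1 := Bd1_prod J (f := fun i => NK (20 * (Mm * RR Rs i)) s (x1 (IZ z y i)) *
        NK (20 * (M * RR Rs i)) (4 * s) (yb (fun p => min 1 (H * (δ * Real.log p))) (IZ z y i)))
    (N := fun i => bb y i ^ (80 * M * (Rs + i))) fun i hi => by
      have hb : 1 ≤ bb y i := by have := h.rg.b10 i hi; linarith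
      have hyb : Bd1 (bb y i) (yb (fun p => min 1 (H * (δ * Real.log p))) (IZ z y i)) := by
        unfold yb
        exact Bd1.sum fun p hp => Bd1.single ⟨(rg_b h.rg i p hp).1.ne_zero, (rg_b h.rg i p hp).2⟩ _
      have h2 := (NK_Bd1 hb (x1_Bd (rg_b h.rg i)) (20 * (Mm * RR Rs i)) s).mul
        (NK_Bd1 hb hyb (20 * (M * RR Rs i)) (4 * s))
      rw [← pow_add] at h2
      refine h2.mono (pow_le_pow_right₀ hb ?_)
      have e : 80 * M * (Rs + i) = 20 * (M * RR Rs i) + 20 * (M * RR Rs i) := by unfold RR; ring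
      rw [e]
      exact Nat.add_le_add_right (Nat.mul_le_mul_left _ (Nat.mul_le_mul_right _ hM)) _
  refine h1.mono ((len h.y1 Rs J (80 * M)).trans (le_of_eq ?_))
  push_cast
  congr 1; ring

/-- the window data exist -/
theorem cr_ev (hST : S_STARR) {k : ℕ} {s : ℝ} {κ : Fin k → ℝ} (hκ : ∀ j, 0 < κ j) (hs : 0 < s) (hsum : ∑ j, κ j = s)
    {H : ℝ} (hH : 0 ≤ H) : ∃ CM CS : ℝ, 0 ≤ CM ∧ 0 ≤ CS ∧
    ∀ (M z Rs : ℕ) (ε e1 c η d x0 : ℝ), Pk M z Rs ε e1 c η d x0 → 2 * s ≤ M →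
      η * (M * ((Rs:ℝ) + 1)) ≤ 1 / (32000 * ((k:ℝ) + 1)) →
    ∃ (K0 Mm : ℕ) (lam δ1 : ℝ), 1 ≤ lam ∧ 0 < δ1 ∧ ∀ᶠ T : ℝ in atTop, ∀ δ : ℝ, lam / Real.log T ≤ δ → δ ≤ δ1 →
      ∀ J : ℕ, PJ c z η Rs d T J →
        Cr k s κ Mm M z Rs J K0 ⌊T ^ ((1:ℝ) / 10)⌋₊ (NT T) (KT T) ε e1 c (yT η T) δ T CM CS H := by
  obtain ⟨CM, hCM, hmv⟩ := mv_dom
  obtain ⟨CS, hCS, hst⟩ := hST s H hs hH
  refine ⟨CM, CS, hCM.le, hCS.le, fun M z Rs ε e1 c η d x0 P hsM hτ => ?_⟩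
  have hM1 : (1:ℝ) ≤ M := by exact_mod_cast P.M1
  have hM0 : (0:ℝ) < M := by linarith
  have hε := P.e0
  have hε1 := P.e01
  have he1 := P.e10
  have he11 := P.e11
  have hη := P.η0
  have hkM' : s ≤ M := by linarith
  have hκs : ∀ j, κ j ≤ s := fun j => by
    rw [← hsum]; exact single_le_sum (f := κ) (fun i _ => (hκ i).le) (mem_univ j)
  obtain ⟨K1, hK1⟩ := Az_close (k := 1) le_rfl z hε
  obtain ⟨K2, hK2⟩ := Az_close_r hs z hε
  obtain ⟨K3, hK3⟩ := Az_ip (α := s) z hε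
  have hKj := fun j => Az_close_r (hκ j) z hε
  choose Kj hKj using hKj
  obtain ⟨K0, hK01, hK02, hK03, hK0j⟩ : ∃ K0 : ℕ, K1 ≤ K0 ∧ K2 ≤ K0 ∧ K3 ≤ K0 ∧ ∀ j, Kj j ≤ K0 := by
    refine ⟨K1 + K2 + K3 + ∑ j, Kj j, by omega, by omega, by omega, fun j => ?_⟩
    have := single_le_sum (f := Kj) (fun _ _ => Nat.zero_le _) (mem_univ j)
    omega
  obtain ⟨m2, hA2'⟩ := Az_Bd s K0 z
  have hmj := fun j => Az_Bd (κ j) K0 z
  choose mj hmj using hmj
  obtain ⟨m, hm1, hm3, hmm⟩ : ∃ m : ℝ, 1 ≤ m ∧ m2 ≤ m ∧ ∀ j, mj j ≤ m := by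
    refine ⟨1 + |m2| + ∑ j, |mj j|, ?_, ?_, fun j => ?_⟩
    · have := sum_nonneg (s := univ) (f := fun j => |mj j|) fun _ _ => abs_nonneg _
      have := abs_nonneg m2
      linarith
    · have := sum_nonneg (s := univ) (f := fun j => |mj j|) fun _ _ => abs_nonneg _
      have := le_abs_self m2
      linarith
    · have h1 : |mj j| ≤ ∑ j, |mj j| := single_le_sum (f := fun j => |mj j|) (fun _ _ => abs_nonneg _) (mem_univ j)
      have := abs_nonneg m2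
      have := le_abs_self (mj j)
      linarith
  have hA2 : Bd1 m (Az s K0 z) := hA2'.mono hm3
  have hAj : ∀ j, Bd1 m (Az (κ j) K0 z) := fun j => (hmj j).mono (hmm j)
  obtain ⟨l, hl1, hl2⟩ : ∃ l : ℝ, 1 ≤ l ∧ l1' (Az s K0 z) ≤ l := ⟨max (l1' (Az s K0 z)) 1, le_max_right _ _, le_max_left _ _⟩
  obtain ⟨c20, hc20, hDD⟩ := DD_low_u (M := (M:ℝ)) hM0
  obtain ⟨lam, hlam1, hlamx, hkey⟩ := key P (m := m) (l := l) (c2 := min c20 1) hm1 hl1 (lt_min hc20 one_pos)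
  have hz1 : ∀ s : ℂ, 1 / 2 ≤ s.re → ‖es s (Pz z) ^ 1 * es s (Az 1 K0 z) - 1‖ ≤ ε := by
    intro s hs
    have := hK1 K0 hK01 s hs
    rwa [Nat.cast_one] at this
  obtain ⟨δ1, hδ10, hpr⟩ := Pz_ratio hε1 hz1 hH
  obtain ⟨Mm, hMmM, hor, hsMm⟩ : ∃ Mm : ℕ, Mm ≤ M ∧ ((Mm = 1 ∧ |s - 1| ≤ 1) ∨ (Mm = M ∧ 0 ≤ s - 1 ∧ s - 1 ≤ M)) ∧ s ≤ Mm := by
    by_cases h1 : s ≤ 1
    · refine ⟨1, P.M1, Or.inl ⟨rfl, ?_⟩, by rw [Nat.cast_one]; exact h1⟩
      rw [abs_of_nonpos (by linarith)]; linarith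
    · exact ⟨M, le_rfl, Or.inr ⟨rfl, by linarith, by linarith⟩, hkM'⟩
  refine ⟨K0, Mm, lam, min δ1 (1 / 16), hlam1, lt_min hδ10 (by norm_num), ?_⟩
  filter_upwards [hkey, eventually_ge_atTop (10 ^ 10),
    rpow_ev (p := 1 / 50) (q := 1 / 10) (by norm_num) (2 * m),
    rpow_ev (p := 1 / 400) (q := 1 / 10) (by norm_num) (2 * m ^ k),
    rpow_ev (p := 1 / 25) (q := 1) (by norm_num) (2 * m),
    rpow_ev (p := 1 / 10) (q := 1) (by norm_num) 2,
    Real.tendsto_log_atTop.eventually_ge_atTop 1,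
    ((tendsto_rpow_atTop (show (0:ℝ) < 1 / 10 by norm_num))).eventually_ge_atTop 2] with
    T tk t4 t5 t6 t7 t8 t9 t10 δ hδ1 hδ2' J hPJ
  have hδ2 : δ ≤ 1 / 16 := hδ2'.trans (min_le_right _ _)
  have hT0 : 0 < T := by linarith
  have hT1 : 1 ≤ T := by linarith
  have hL0 : 0 < Real.log T := by linarith
  have hx : lam ≤ δ * Real.log T := by rwa [div_le_iff₀ hL0] at hδ1
  have hδ0 : 0 < δ := lt_of_lt_of_le (div_pos (lt_of_lt_of_le one_pos hlam1) hL0) hδ1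
  have hkk := tk δ hδ1 hδ2 J hPJ
  have hS := hPJ.1
  have hly : Real.log (yT η T) = η * Real.log T := Real.log_exp _
  obtain ⟨y, hy⟩ : ∃ y, y = yT η T := ⟨_, rfl⟩
  rw [← hy] at hly hS hkk
  rw [← hy]
  obtain ⟨hi1, hi2⟩ := hK3 K0 hK03 δ hδ0.le
  obtain ⟨ip0, hip0⟩ : ∃ ip0, ip0 = ip δ (Az s K0 z) (Az s K0 z) := ⟨_, rfl⟩
  rw [← hip0] at hi1 hi2
  set P0 := ∏ p ∈ S0 z, Ed s δ p with hP0
  have hxy : x0 ≤ δ * Real.log y := by
    rw [hly]
    have h1 : x0 ≤ lam * η := by rwa [div_le_iff₀ hη] at hlamx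
    calc x0 ≤ lam * η := h1
      _ ≤ (δ * Real.log T) * η := mul_le_mul_of_nonneg_right hx hη.le
      _ = _ := by ring
  have hcm := P.cm s hs hkM' y δ hS.zy hδ0 hxy J hS.J1
  obtain ⟨EV, hEV⟩ : ∃ EV, EV = Real.exp (s ^ 2 * Vd δ z y J) := ⟨_, rfl⟩
  have hEV0 : 0 < EV := by rw [hEV]; exact Real.exp_pos _
  have hDD1 : 1 ≤ DD s δ := DD_ge_one hs hδ0
  have hcm1 := hcm.1
  have hcm2 := hcm.2
  rw [← hEV] at hcm1 hcm2
  obtain ⟨D, hD⟩ : ∃ D, D = DD s δ := ⟨_, rfl⟩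
  rw [← hD] at hDD1 hcm1 hcm2
  have hMup : ip0 * EV ≤ (1 + 2 * ε) * D := by
    calc ip0 * EV ≤ P0 * EV := mul_le_mul_of_nonneg_right hi2 hEV0.le
      _ ≤ Real.exp ε * D := hcm2
      _ ≤ (1 + 2 * ε) * D := mul_le_mul_of_nonneg_right (exp_le_two hε.le (hε1.trans (by norm_num)))
          (zero_le_one.trans hDD1)
  have hMlo : (1 - 2 * ε) * D ≤ ip0 * EV := by
    have h1 : (1 - ε) * (Real.exp (-ε) * D) ≤ ip0 * EV := by
      calc (1 - ε) * (Real.exp (-ε) * D) ≤ (1 - ε) * (P0 * EV) := mul_le_mul_of_nonneg_left hcm1 (by linarith)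
        _ = ((1 - ε) * P0) * EV := by ring
        _ ≤ ip0 * EV := mul_le_mul_of_nonneg_right hi1 hEV0.le
    exact (low_two hε.le (hε1.trans (by norm_num)) (zero_le_one.trans hDD1)).trans h1
  obtain ⟨hMm1, hκ1, hzM, hET, hWm, -, hoff⟩ := hkk Mm s (Az s K0 z) D hor hs.le hkM' hA2 (Az_mem _ _ _) hl2
    (by rw [← hip0]; rw [hip0]; have := Az_ip_ge (δ := δ) hs K0 z; linarith)
    (by
      rw [← hip0, ← hEV]
      have h2 : ip0 * EV ≤ 2 * D := hMup.trans (by nlinarith)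
      have h3 := mul_le_mul_of_nonneg_left h2 (by linarith : 0 ≤ T / 2)
      linarith)
    (by
      have h2 := hDD s hs hkM' δ hδ0 (by linarith)
      rw [← hD] at h2
      refine le_trans ?_ h2
      exact mul_le_mul_of_nonneg_right (min_le_left _ _) (by positivity)) hDD1
  have hMmR : (1:ℝ) ≤ Mm := by exact_mod_cast hMm1
  have hMmMR : (Mm:ℝ) ≤ M := by exact_mod_cast hMmM
  have he600 : ε * e1 ^ 2 / 600 ≤ ε / 600 := by
    have h1 : e1 ^ 2 ≤ 1 := pow_le_one₀ he1.le he11.le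
    have : ε * e1 ^ 2 ≤ ε * 1 := mul_le_mul_of_nonneg_left h1 hε.le
    linarith
  have hET0 := ETM_nonneg Mm c z y J Rs
  have n45 := N45M (c := c) hMm1 hzM hS hδ0.le hκ1 (Az_mem s K0 z) (hET.trans (by linarith))
  have n3 := N3M (c := c) hMm1 hzM hS hδ0.le hκ1 (Az_mem s K0 z)
  have e0 : 1 + (s - 1) = s := by ring
  rw [e0] at n45 n3
  have n45' := n45.1
  rw [← hip0, ← hEV] at n45' n3
  obtain ⟨W, hW⟩ : ∃ W, W = T ^ ((1:ℝ) / 50) := ⟨_, rfl⟩
  rw [← hW] at hWm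
  have hW0 : 0 < W := by rw [hW]; positivity
  have hW1 : 1 ≤ W := by rw [hW]; exact Real.one_le_rpow hT1 (by norm_num)
  have hWM : Real.exp (Real.log y * (180 * (M * ((Rs:ℝ) + 1)))) ≤ W := by
    rw [hly, hW, Real.rpow_def_of_pos hT0]
    refine Real.exp_le_exp.mpr ?_
    have e : η * Real.log T * (180 * (M * ((Rs:ℝ) + 1))) = 180 * (η * (M * ((Rs:ℝ) + 1))) * Real.log T := by ring
    rw [e, mul_comm (Real.log T)]
    exact mul_le_mul_of_nonneg_right (by linarith only [P.η1]) hL0.le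
  obtain ⟨N, hN⟩ : ∃ N : ℕ, N = ⌊T ^ ((1:ℝ) / 10)⌋₊ := ⟨_, rfl⟩
  have hNle : (N:ℝ) ≤ T ^ ((1:ℝ)/10) := by rw [hN]; exact Nat.floor_le (by positivity)
  have hNge : T ^ ((1:ℝ)/10) / 2 ≤ N := by
    have h1 := Nat.lt_floor_add_one (T ^ ((1:ℝ)/10))
    rw [← hN] at h1
    linarith only [h1, t10]
  rw [← hN]
  rw [Real.rpow_one] at t7 t8
  have hmN : m * W ≤ N := by
    rw [← hW] at t5
    linarith only [hNge, t5]
  have hNT : (N:ℝ) ≤ T / 2 := by linarith only [hNle, t8]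
  have hmW2 : m * W * W ≤ T / 2 := by
    have e2 : W * W = T ^ ((1:ℝ)/25) := by rw [hW, ← Real.rpow_add hT0]; norm_num
    rw [mul_assoc, e2]
    linarith only [t7]
  have hmW : m * W ≤ T / 2 := by
    have : m * W * 1 ≤ m * W * W := mul_le_mul_of_nonneg_left hW1 (by positivity)
    linarith
  -- the short polynomials
  have hW' : Real.exp (Real.log y * (80 * (Mm * ((Rs:ℝ) + 1)))) ^ k ≤ T ^ ((1:ℝ) / 400) := by
    rw [← Real.exp_nat_mul, Real.rpow_def_of_pos hT0, hly]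
    refine Real.exp_le_exp.mpr ?_
    have hk0 : (0:ℝ) ≤ k := Nat.cast_nonneg k
    have h0 : (Mm:ℝ) * ((Rs:ℝ) + 1) ≤ M * ((Rs:ℝ) + 1) := mul_le_mul_of_nonneg_right hMmMR (by positivity)
    have h00 : η * (Mm * ((Rs:ℝ) + 1)) ≤ 1 / (32000 * ((k:ℝ) + 1)) := (mul_le_mul_of_nonneg_left h0 hη.le).trans hτ
    have e : (k:ℝ) * (η * Real.log T * (80 * (Mm * ((Rs:ℝ) + 1)))) = (80 * k * (η * (Mm * ((Rs:ℝ) + 1)))) * Real.log T := by ring
    rw [e, mul_comm (Real.log T)]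
    refine mul_le_mul_of_nonneg_right ?_ hL0.le
    have h1 : 80 * (k:ℝ) * (η * (Mm * ((Rs:ℝ) + 1))) ≤ 80 * k * (1 / (32000 * ((k:ℝ) + 1))) := mul_le_mul_of_nonneg_left h00 (by positivity)
    refine h1.trans ?_
    rw [mul_one_div, div_le_div_iff₀ (by positivity) (by norm_num)]
    linarith
  have hf1B : Bd1 N (∏ j, fr (κ j) Mm z K0 y J Rs) := by
    have h1 : ∀ j, Bd1 (m * Real.exp (Real.log y * (80 * (Mm * ((Rs:ℝ) + 1))))) (fr (κ j) Mm z K0 y J Rs) := by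
      intro j
      unfold fr
      exact (hAj j).mul (Bm_Bd hS)
    refine (Bd1_fin h1).mono ?_
    rw [mul_pow]
    have h2 := mul_le_mul_of_nonneg_left hW' (by positivity : 0 ≤ m ^ k)
    linarith only [h2, hNge, t6]
  have hfkB' : Bd1 (m * W) (fr s Mm z K0 y J Rs) := by
    unfold fr
    exact ABm_Bd (a := s) hS hA2 (by linarith) hWm
  have hfkB : Bd1 N (fr s Mm z K0 y J Rs) := hfkB'.mono hmN
  exact {
    κ0 := hκ
    s0 := hs
    hs := hsum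
    Mm1 := hMm1
    MmM := hMmM
    sMm := hsMm
    sM := hsM
    e0 := hε
    e01 := hε1
    e10 := he1
    p1 := P.p1
    h4a := P.h4a
    sy := hS
    δ0 := hδ0
    δ1 := hδ2
    T1 := hT1
    zcj := fun j w hw => hKj j K0 (hK0j j) w hw
    zcs := fun w hw => hK2 K0 hK02 w hw
    pr := hpr δ hδ0 (hδ2'.trans (min_le_left _ _))
    cj := fun j n => ABm_dom hS (hκ j).le K0 (M := Mm) n
    cs := fun n => ABm_dom hS hs.le K0 (M := Mm) n
    b1 := hf1B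
    bk := hfkB
    NT := hNT
    low := by
      rw [← hD]
      refine le_trans ?_ n45'
      have h1 : ETM Mm c z y J Rs ≤ ε / 600 := hET.trans he600
      have h2 : 0 ≤ ip0 * EV := le_trans (by nlinarith) hMlo
      calc (1 - 3 * ε) * D ≤ (1 - ε / 600) * ((1 - 2 * ε) * D) := by
            have h3 : 1 - 3 * ε ≤ (1 - ε / 600) * (1 - 2 * ε) := by nlinarith
            have := mul_le_mul_of_nonneg_right h3 (zero_le_one.trans hDD1)
            linarith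
        _ ≤ (1 - ε / 600) * (ip0 * EV) := mul_le_mul_of_nonneg_left hMlo (by linarith)
        _ ≤ (1 - ETM Mm c z y J Rs) * (ip0 * EV) := mul_le_mul_of_nonneg_right (by linarith) h2
    Q := by
      rw [← hD]
      unfold fr
      refine n3.trans ?_
      have h1 : ETM Mm c z y J Rs ≤ ε / 600 := hET.trans he600
      have h2 : Real.exp (ETM Mm c z y J Rs) ≤ 3 := by
        have h3 : ETM Mm c z y J Rs ≤ 1 := by linarith
        have := Real.exp_le_exp.mpr h3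
        have := Real.exp_one_lt_d9
        linarith
      have h4 : ip0 * EV ≤ 2 * D := by
        refine hMup.trans ?_
        nlinarith
      have h5 : 0 ≤ ip0 * EV := le_trans (by nlinarith) hMlo
      calc ETM Mm c z y J Rs * Real.exp (ETM Mm c z y J Rs) * (ip0 * EV) ≤ ε / 600 * 3 * (2 * D) := by gcongr
        _ ≤ ε * D := by nlinarith
    bQ := fun i hi => by
      have h1 : Bd1 W (Qe (RR Rs i) (IZ z y i)) := (Qe_Bd (rg_b hS.rg i) _).mono (bbR_le hS (W_of P.M1 hS hWM) i)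
      exact (hfkB'.mul h1).mono hmW2
    st := by
      have h1 := hst M z Rs ε e1 c η d x0 P hkM' y δ J _ _ K0 hS hδ0 hδ2 hxy
      exact (Le.ip (gsr_le hs.le hMmM z K0 hH hδ0.le J Rs) δ).trans h1
    bS := by
      have h1 := gsr_Bd (s := s) (M := M) (K0 := K0) (H := H) (δ := δ) hS hMmM hA2 (by linarith)
      refine h1.mono ?_
      have h2 := Wm_mono hS hWM (k := 160) (by norm_num)
      have := mul_le_mul_of_nonneg_left h2 (by linarith : 0 ≤ m)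
      linarith
    off := by
      rw [← hD]
      unfold fr
      refine hoff.trans ?_
      have : 0 ≤ T * D := by positivity
      nlinarith
    mv := fun g A hA hg => by
      have h1 := hmv δ (T / 2) (T / 2) g A (by linarith) hA hg le_rfl
      have e1 : 2 * (T / 2) = T := by ring
      rw [e1] at h1
      refine h1.trans ?_
      have h2 := ip_self_nonneg δ g
      refine mul_le_mul_of_nonneg_left ?_ hCM.le
      exact mul_le_mul_of_nonneg_right (by linarith) h2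
    CM0 := hCM.le
    CS0 := hCS.le
    H0 := hH }

end Pool.Agent.Y753.SHR
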