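import Pool.Agent.Y753.SHR.R7

set_option autoImplicit false

/-! The limits of the shifted moments with real exponents along a path. -/

namespace Pool.Agent.Y753.SHR

open Finset Filter MeasureTheory MonoidAlgebra Topology
open Pool.Agent.Y755
open Pool.Agent.W184.NZ
open Pool.Agent.Y753.NL
open Pool.Agent.Y753.SH
open Pool.Agent.H306R2 (dv dv_nonneg dv_one aF)

/-- a product of two functions close to two others -/
lemma pair_int {U : Set ℝ} {F G A B : ℝ → ℂ} (hF : Measurable F) (hG : Measurable G)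
    (hA : Continuous A) (hB : Continuous B) {T : ℝ} (hUT : U ⊆ Set.Icc 0 T) (h1 : IntegrableOn (fun t => ‖F t - A t‖ ^ 2) U)
    (h2 : IntegrableOn (fun t => ‖G t - B t‖ ^ 2) U) :
    IntegrableOn (fun t => F t * (starRingEnd ℂ) (G t) - A t * (starRingEnd ℂ) (B t)) U ∧
    IntegrableOn (fun t => F t * (starRingEnd ℂ) (G t)) U := by
  have hint : ∀ g : ℝ → ℝ, Continuous g → IntegrableOn g U := fun g hg =>
    (hg.continuousOn.integrableOn_compact isCompact_Icc).mono_set hUT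
  have hintc : ∀ g : ℝ → ℂ, Continuous g → IntegrableOn g U := fun g hg =>
    (hg.continuousOn.integrableOn_compact isCompact_Icc).mono_set hUT
  have cstar : Continuous (starRingEnd ℂ) := Complex.continuous_conj
  have cQ : Continuous fun t => A t * (starRingEnd ℂ) (B t) := hA.mul (cstar.comp hB)
  have mP : Measurable fun t => F t * (starRingEnd ℂ) (G t) := hF.mul (cstar.measurable.comp hG)
  have h3 : IntegrableOn (fun t => 1 * (‖F t - A t‖ ^ 2 + ‖G t - B t‖ ^ 2) + 1 / 1 * (‖A t‖ ^ 2 + ‖B t‖ ^ 2)) U :=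
    ((h1.add h2).const_mul 1).add (hint _ (((hA.norm.pow 2).add (hB.norm.pow 2)).const_mul _))
  have h4 : IntegrableOn (fun t => F t * (starRingEnd ℂ) (G t) - A t * (starRingEnd ℂ) (B t)) U := by
    refine Integrable.mono' h3 (mP.sub cQ.measurable).aestronglyMeasurable (Eventually.of_forall fun t => ?_)
    exact two_prod le_rfl
  refine ⟨h4, ?_⟩
  have h5 := h4.add (hintc _ cQ)
  refine h5.congr (Eventually.of_forall fun t => ?_)
  simp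

/-- one value of `T` -/
theorem one_TR : ∃ C : ℝ, 0 < C ∧ ∀ (σ ρ : ℕ → ℝ) (n : ℕ) (T δ : ℝ) (V : Set ℝ × (ℝ → ℂ)), StR σ ρ n T δ V → 0 < δ → δ < 1 / 2 → 1 ≤ T →
    (L0 T : ℝ) ≤ T → ∀ (k l : ℕ) (κ a : Fin k → ℝ) (τ b : Fin l → ℝ) (r : ℝ), 1 ≤ k → k ≤ n + 1 → 1 ≤ l → l ≤ n + 1 →
    (∀ j, 0 ≤ κ j) → (∀ j, 0 ≤ τ j) → 0 < r → ∑ j, κ j = r → ∑ j, τ j = r →
    (∀ j, ∃ i, i ≤ n ∧ κ j = ρ i) → (∀ j, ∃ i, i ≤ n ∧ a j = σ i) →
    (∀ j, ∃ i, i ≤ n ∧ τ j = ρ i) → (∀ j, ∃ i, i ≤ n ∧ b j = σ i) →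
    IntegrableOn (fun t => zr V.2 δ κ a t * (starRingEnd ℂ) (zr V.2 δ τ b t)) V.1 ∧
    ‖(∫ t in V.1, zr V.2 δ κ a t * (starRingEnd ℂ) (zr V.2 δ τ b t)) -
        ((T:ℝ):ℂ) * dg δ (Icc 1 (L0 T)) (Dr κ (fun j => a j * δ) (L0 T)) (Dr τ (fun j => b j * δ) (L0 T))‖ ≤
      C * (√(1 / ((n:ℝ) + 1)) * (T * DD r δ)) + 2 * (L0 T : ℝ) ^ 4 * DD r δ := by
  obtain ⟨C, hC, hmv⟩ := mv_dom
  refine ⟨3 + 2 * C, by positivity, fun σ ρ n T δ V hS hδ hδ1 hT hLT k l κ a τ b r hk hkn hl1 hln hκ hτ hr hκr hτr hκρ ha hτρ hb => ?_⟩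
  obtain ⟨L, hL⟩ : ∃ L, L = L0 T := ⟨_, rfl⟩
  rw [← hL] at hLT ⊢
  obtain ⟨⟨⟨hUm, hUT, -⟩, hwm, -⟩, hS2⟩ := hS
  obtain ⟨a0, a1, a2⟩ := hS2 k hk hkn κ a hκρ ha
  obtain ⟨b0, b1, b2⟩ := hS2 l hl1 hln τ b hτρ hb
  rw [← hL] at a0 a1 a2 b0 b1 b2
  rw [hκr] at a1 a2
  rw [hτr] at b1 b2
  obtain ⟨s, hs⟩ : ∃ s : ℝ, s = 1 / ((n:ℝ) + 1) := ⟨_, rfl⟩
  rw [← hs] at a1 a2 b1 b2 ⊢
  have hn0 : (0:ℝ) ≤ n := Nat.cast_nonneg n
  have hs0 : 0 < s := by rw [hs]; positivity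
  have hs1 : s ≤ 1 := by rw [hs, div_le_one (by linarith)]; linarith
  have hss : √s * √s = s := Real.mul_self_sqrt hs0.le
  have hsq : 0 < √s := Real.sqrt_pos.mpr hs0
  have hsq1 : √s ≤ 1 := by rw [Real.sqrt_le_one]; exact hs1
  have hD1 : 1 ≤ DD r δ := DD_ge_one hr hδ
  have hT0 : 0 < T := by linarith
  obtain ⟨D, hD⟩ : ∃ D, D = DD r δ := ⟨_, rfl⟩
  rw [← hD] at a1 a2 b1 b2 hD1 ⊢
  have hD0 : 0 < D := by linarith
  obtain ⟨U, hUd⟩ : ∃ U, U = V.1 := ⟨_, rfl⟩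
  rw [← hUd] at a0 a1 a2 b0 b1 b2 hUm hUT ⊢
  obtain ⟨F, hF⟩ : ∃ F : ℝ → ℂ, F = zr V.2 δ κ a := ⟨_, rfl⟩
  obtain ⟨G, hG⟩ : ∃ G : ℝ → ℂ, G = zr V.2 δ τ b := ⟨_, rfl⟩
  obtain ⟨A, hA⟩ : ∃ A : ℝ → ℂ, A = pr δ κ a L := ⟨_, rfl⟩
  obtain ⟨B, hB⟩ : ∃ B : ℝ → ℂ, B = pr δ τ b L := ⟨_, rfl⟩
  rw [← hF, ← hA] at a0 a1
  rw [← hA] at a2
  rw [← hG, ← hB] at b0 b1
  rw [← hB] at b2
  rw [← hF, ← hG]
  have cA : Continuous A := by rw [hA]; exact pr_cont δ hκ a L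
  have cB : Continuous B := by rw [hB]; exact pr_cont δ hτ b L
  have mF : Measurable F := by rw [hF]; exact zr_meas hwm δ κ a
  have mG : Measurable G := by rw [hG]; exact zr_meas hwm δ τ b
  obtain ⟨p1, p2⟩ := pair_int mF mG cA cB hUT a0 b0
  refine ⟨p2, ?_⟩
  have hint : ∀ g : ℝ → ℝ, Continuous g → IntegrableOn g (Set.Icc 0 T) := fun g hg =>
    hg.continuousOn.integrableOn_compact isCompact_Icc
  have hintc : ∀ g : ℝ → ℂ, Continuous g → IntegrableOn g (Set.Icc 0 T) := fun g hg =>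
    hg.continuousOn.integrableOn_compact isCompact_Icc
  have mA : ∀ (m : ℕ) (κ x : Fin m → ℝ), (∀ j, 0 ≤ κ j) → ∑ j, κ j = r → ∫ t in U, ‖pr δ κ x L t‖ ^ 2 ≤ C * (T * D) := by
    intro m κ x hκ hκr
    have h1 := hmv δ T L _ _ hT (Dr_Do hκ (fun j => x j * δ) L) (DN_Bd _ L) hLT
    have h2 : ∫ t in U, ‖pr δ κ x L t‖ ^ 2 ≤ ∫ t in (0:ℝ)..(2 * T), ‖pr δ κ x L t‖ ^ 2 := by
      rw [intervalIntegral.integral_of_le (by linarith), ← integral_Icc_eq_integral_Ioc]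
      refine setIntegral_mono_set (((pr_cont δ hκ x L).norm.pow 2).continuousOn.integrableOn_compact isCompact_Icc)
        (Eventually.of_forall fun t => by positivity) (Eventually.of_forall fun t ht => ?_)
      have h3 := hUT ht
      exact ⟨h3.1, by linarith [h3.2]⟩
    refine h2.trans (h1.trans ?_)
    rw [hκr]
    have := ip_DN_le hr hδ L
    rw [← hD] at this
    gcongr
  have m1 : ∫ t in U, ‖A t‖ ^ 2 ≤ C * (T * D) := by rw [hA]; exact mA k κ a hκ hκr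
  have m2 : ∫ t in U, ‖B t‖ ^ 2 ≤ C * (T * D) := by rw [hB]; exact mA l τ b hτ hτr
  -- closeness
  have cstar : Continuous (starRingEnd ℂ) := Complex.continuous_conj
  have cQ : Continuous fun t => A t * (starRingEnd ℂ) (B t) := cA.mul (cstar.comp cB)
  have q3 : Continuous fun t : ℝ => ‖A t‖ ^ 2 := cA.norm.pow 2
  have q4 : Continuous fun t : ℝ => ‖B t‖ ^ 2 := cB.norm.pow 2
  have i12 : IntegrableOn (fun t : ℝ => 1 / √s * (‖F t - A t‖ ^ 2 + ‖G t - B t‖ ^ 2)) U := (a0.add b0).const_mul _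
  have q34 : Continuous fun t : ℝ => 1 / (1 / √s) * (‖A t‖ ^ 2 + ‖B t‖ ^ 2) := (q3.add q4).const_mul _
  have hl : 1 ≤ 1 / √s := by rw [le_div_iff₀ hsq]; linarith
  have I1 : ‖(∫ t in U, F t * (starRingEnd ℂ) (G t)) - ∫ t in U, A t * (starRingEnd ℂ) (B t)‖ ≤
      (2 + 2 * C) * (√s * (T * D)) := by
    rw [← integral_sub p2 ((hintc _ cQ).mono_set hUT)]
    refine (norm_integral_le_integral_norm _).trans ?_
    have h1 : ∫ t in U, ‖F t * (starRingEnd ℂ) (G t) - A t * (starRingEnd ℂ) (B t)‖ ≤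
        ∫ t in U, (1 / √s * (‖F t - A t‖ ^ 2 + ‖G t - B t‖ ^ 2) +
          1 / (1 / √s) * (‖A t‖ ^ 2 + ‖B t‖ ^ 2)) :=
      setIntegral_mono_on p1.norm (i12.add ((hint _ q34).mono_set hUT)) hUm
        fun t _ => two_prod hl
    rw [integral_add i12 ((hint _ q34).mono_set hUT), integral_const_mul, integral_const_mul,
      integral_add a0 b0,
      integral_add ((hint _ q3).mono_set hUT) ((hint _ q4).mono_set hUT)] at h1
    refine h1.trans ?_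
    have h2 : 1 / √s * ((∫ t in U, ‖F t - A t‖ ^ 2) + ∫ t in U, ‖G t - B t‖ ^ 2) ≤
        1 / √s * (2 * (s * (T * D))) := mul_le_mul_of_nonneg_left (by linarith) (by positivity)
    have h3 : 1 / (1 / √s) * ((∫ t in U, ‖A t‖ ^ 2) + ∫ t in U, ‖B t‖ ^ 2) ≤
        √s * (2 * (C * (T * D))) := by
      rw [one_div_one_div]
      exact mul_le_mul_of_nonneg_left (by linarith) hsq.le
    have e3 : 1 / √s * (2 * (s * (T * D))) = 2 * (√s * (T * D)) := by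
      rw [one_div, inv_mul_eq_div, div_eq_iff hsq.ne']
      calc 2 * (s * (T * D)) = 2 * ((√s * √s) * (T * D)) := by rw [hss]
        _ = _ := by ring
    rw [e3] at h2
    linarith
  -- the complement
  have I2 : ‖(∫ t in U, A t * (starRingEnd ℂ) (B t)) -
      ∫ t in (0:ℝ)..T, A t * (starRingEnd ℂ) (B t)‖ ≤ √s * (T * D) := by
    rw [intervalIntegral.integral_of_le hT0.le, ← integral_Icc_eq_integral_Ioc]
    have h1 := setIntegral_sdiff (μ := volume) hUm (hintc _ cQ) hUT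
    have e3 : (∫ t in U, A t * (starRingEnd ℂ) (B t)) -
      ∫ t in Set.Icc 0 T, A t * (starRingEnd ℂ) (B t) =
        -∫ t in Set.Icc 0 T \ U, A t * (starRingEnd ℂ) (B t) := by rw [h1]; ring
    rw [e3, norm_neg]
    refine (norm_integral_le_integral_norm _).trans ?_
    have c34 : Continuous fun t : ℝ => 1 / 2 * (‖A t‖ ^ 2 + ‖B t‖ ^ 2) := (q3.add q4).const_mul _
    have hm : MeasurableSet (Set.Icc 0 T \ U) := measurableSet_Icc.diff hUm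
    have h2 : ∫ t in Set.Icc 0 T \ U, ‖A t * (starRingEnd ℂ) (B t)‖ ≤
        ∫ t in Set.Icc 0 T \ U, 1 / 2 * (‖A t‖ ^ 2 + ‖B t‖ ^ 2) := by
      refine setIntegral_mono_on ((hint _ cQ.norm).mono_set Set.sdiff_subset) ((hint _ c34).mono_set Set.sdiff_subset) hm
        fun t _ => ?_
      rw [norm_mul, RCLike.norm_conj]
      nlinarith [sq_nonneg (‖A t‖ - ‖B t‖)]
    rw [integral_const_mul, integral_add ((hint _ q3).mono_set Set.sdiff_subset) ((hint _ q4).mono_set Set.sdiff_subset)] at h2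
    refine h2.trans ?_
    have h3 : s * (T * D) ≤ √s * (T * D) := by
      refine mul_le_mul_of_nonneg_right ?_ (by positivity)
      nlinarith
    linarith
  -- the mean value
  have hDa := Dr_Do hκ (fun j => a j * δ) L
  have hDb := Dr_Do hτ (fun j => b j * δ) L
  rw [hκr] at hDa
  rw [hτr] at hDb
  have I3 := bil (N := (L:ℝ)) hδ.le hDa hDb (DN_Bd r L) (DN_Bd r L) (DN_supp r L) 0 T
  rw [sub_zero] at I3
  have I4 : 2 * (L:ℝ) * (l1' (DN r L) * l1' (DN r L)) ≤ 2 * (L:ℝ) ^ 4 * D := by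
    have h1 := DN_l1 hr hδ hδ1.le L
    rw [← hD, sq] at h1
    have h2 := mul_le_mul_of_nonneg_left h1 (by positivity : (0:ℝ) ≤ 2 * L)
    refine h2.trans (le_of_eq ?_)
    ring
  have I5 : ‖(∫ t in (0:ℝ)..T, A t * (starRingEnd ℂ) (B t)) - ((T:ℝ):ℂ) * dg δ (Icc 1 L) (Dr κ (fun j => a j * δ) L)
        (Dr τ (fun j => b j * δ) L)‖ ≤ 2 * (L:ℝ) ^ 4 * D := by
    rw [hA, hB]
    exact I3.trans I4
  have e4 : (∫ t in U, F t * (starRingEnd ℂ) (G t)) - ((T:ℝ):ℂ) * dg δ (Icc 1 L) (Dr κ (fun j => a j * δ) L)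
        (Dr τ (fun j => b j * δ) L) =
      ((∫ t in U, F t * (starRingEnd ℂ) (G t)) - ∫ t in U, A t * (starRingEnd ℂ) (B t)) +
      ((∫ t in U, A t * (starRingEnd ℂ) (B t)) - ∫ t in (0:ℝ)..T, A t * (starRingEnd ℂ) (B t)) +
      ((∫ t in (0:ℝ)..T, A t * (starRingEnd ℂ) (B t)) - ((T:ℝ):ℂ) * dg δ (Icc 1 L) (Dr κ (fun j => a j * δ) L)
        (Dr τ (fun j => b j * δ) L)) := by ring
  rw [e4]
  refine (norm_add_le _ _).trans ((add_le_add ((norm_add_le _ _).trans (add_le_add I1 I2)) I5).trans (le_of_eq ?_))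
  ring

/-- the tail of the diagonal -/
lemma tail_dgR {k l : ℕ} {κ : Fin k → ℝ} {τ : Fin l → ℝ} {r : ℝ} (hr : 0 < r) (hκ : ∀ j, 0 ≤ κ j) (hτ : ∀ j, 0 ≤ τ j)
    (hκr : ∑ j, κ j = r) (hτr : ∑ j, τ j = r) {δ : ℝ} (hδ : 0 < δ) {L : ℕ} (hL : 1 ≤ L) (a : Fin k → ℝ) (b : Fin l → ℝ) :
    ‖dg δ (Icc 1 L) (Dr κ (fun j => a j * δ) L) (Dr τ (fun j => b j * δ) L) -
      ∑' n : ℕ, dk δ κ a n * (starRingEnd ℂ) (dk δ τ b n) * (((n:ℝ) ^ (-(1 + 2 * δ)) : ℝ) : ℂ)‖ ≤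
      (L:ℝ) ^ (-δ) * DD r (δ / 2) := by
  obtain ⟨f, hf⟩ : ∃ f : ℕ → ℂ, ∀ n, f n = dk δ κ a n * (starRingEnd ℂ) (dk δ τ b n) * (((n:ℝ) ^ (-(1 + 2 * δ)) : ℝ) : ℂ) := ⟨_, fun _ => rfl⟩
  simp_rw [← hf]
  have hfn : ∀ n, n ≠ 0 → ‖f n‖ ≤ dv r n ^ 2 * (n:ℝ) ^ (-(1 + 2 * δ)) := by
    intro n hn
    rw [hf, norm_mul, norm_mul, RCLike.norm_conj, Complex.norm_real, Real.norm_eq_abs,
      abs_of_nonneg (Real.rpow_nonneg (Nat.cast_nonneg n) _), sq]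
    have h1 : ‖dk δ κ a n‖ ≤ dv r n := by rw [← hκr]; exact dr_le hκ (fun j => a j * δ) hn
    have h2 : ‖dk δ τ b n‖ ≤ dv r n := by rw [← hτr]; exact dr_le hτ (fun j => b j * δ) hn
    have h3 := dv_nonneg hr.le n
    gcongr
  have hf0 : f 0 = 0 := by
    rw [hf]; simp
  have hw : ∀ n : ℕ, n ≠ 0 → wδ δ n = (n:ℝ) ^ (-(1 + 2 * δ)) := by
    intro n hn
    have n0 : (0:ℝ) < n := by exact_mod_cast Nat.pos_of_ne_zero hn
    unfold wδ
    rw [one_div, ← Real.rpow_neg_one (n:ℝ), ← Real.rpow_add n0]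
    congr 1; ring
  have hg : ∀ n, ‖f n‖ ≤ g2 r δ n := by
    intro n
    rcases eq_or_ne n 0 with h | h
    · subst h; rw [hf0, norm_zero]; exact g2_nonneg _ _ _
    · unfold g2; rw [hw n h]; exact hfn n h
  have hsum : Summable f := Summable.of_norm_bounded (g2_summable hr hδ) hg
  have hdg : dg δ (Icc 1 L) (Dr κ (fun j => a j * δ) L) (Dr τ (fun j => b j * δ) L) = ∑ n ∈ Icc 1 L, f n := by
    unfold dg
    refine sum_congr rfl fun n hn => ?_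
    have hn0 : n ≠ 0 := by have := (mem_Icc.mp hn).1; omega
    rw [Dr_coeff, Dr_coeff, if_pos hn, if_pos hn, hf, hw n hn0]
    rfl
  have h0 := hsum.sum_add_tsum_compl (s := Icc 1 L)
  obtain ⟨S, hS⟩ : ∃ S : Set ℕ, S = (((Icc 1 L : Finset ℕ) : Set ℕ)ᶜ : Set ℕ) := ⟨_, rfl⟩
  rw [← hS] at h0
  have e1 : ∑ n ∈ Icc 1 L, f n - (∑ n ∈ Icc 1 L, f n + ∑' n : S, f n) = -∑' n : S, f n := by ring
  rw [hdg, ← h0, e1, norm_neg]
  have hL0 : (0:ℝ) < L := by exact_mod_cast hL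
  have h1 : ∀ n : S, ‖f n‖ ≤ (L:ℝ) ^ (-δ) * g2 r (δ / 2) n := by
    rintro ⟨n, hn⟩
    rw [hS] at hn
    simp only
    rcases eq_or_ne n 0 with h | h
    · subst h; rw [hf0, norm_zero]
      exact mul_nonneg (by positivity) (g2_nonneg _ _ _)
    · have hn1 : L ≤ n := by
        simp only [coe_Icc, Set.mem_compl_iff, Set.mem_Icc, not_and, not_le] at hn
        exact (hn (Nat.pos_of_ne_zero h)).le
      have n0 : (0:ℝ) < n := by exact_mod_cast Nat.pos_of_ne_zero h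
      refine (hfn n h).trans ?_
      have e2 : (n:ℝ) ^ (-(1 + 2 * δ)) = (n:ℝ) ^ (-δ) * wδ (δ / 2) n := by
        unfold wδ
        rw [one_div, ← Real.rpow_neg_one (n:ℝ), ← Real.rpow_add n0, ← Real.rpow_add n0]
        congr 1; ring
      rw [e2]
      have h5 : (n:ℝ) ^ (-δ) ≤ (L:ℝ) ^ (-δ) := Real.rpow_le_rpow_of_nonpos hL0 (by exact_mod_cast hn1) (by linarith)
      have h6 := g2_nonneg r (δ / 2) n
      unfold g2 at h6 ⊢
      calc dv r n ^ 2 * ((n:ℝ) ^ (-δ) * wδ (δ / 2) n) = (n:ℝ) ^ (-δ) * (dv r n ^ 2 * wδ (δ / 2) n) := by ring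
        _ ≤ _ := mul_le_mul_of_nonneg_right h5 h6
  have hg2 := g2_summable hr (show 0 < δ / 2 by positivity)
  have h2 : Summable fun n : S => (L:ℝ) ^ (-δ) * g2 r (δ / 2) n :=
    (hg2.subtype _).mul_left _
  refine (tsum_of_norm_bounded h2.hasSum h1).trans ?_
  rw [tsum_mul_left]
  refine mul_le_mul_of_nonneg_left ?_ (by positivity)
  unfold DD
  exact hg2.tsum_subtype_le _ _ (fun n => g2_nonneg _ _ n)

end Pool.Agent.Y753.SHR
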